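import Mathlib

set_option autoImplicit false

open Filter Topology

namespace Pool.Agent.Helper5.CI

variable {H : Type} [NormedAddCommGroup H] [InnerProductSpace ℂ H] [CompleteSpace H]

/-- all entries of the sequence `a` lie in `M` -/
def InM (M : VonNeumannAlgebra H) (a : ℕ → (H →L[ℂ] H)) : Prop := ∀ i, a i ∈ M

/-- `f`, a function of sequences, is an `n`-cochain on `M` with compact values, of norm `≤ C` -/
structure IsC (M : VonNeumannAlgebra H) (n : ℕ) (C : ℝ)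
    (f : (ℕ → (H →L[ℂ] H)) → (H →L[ℂ] H)) : Prop where
  dep : ∀ a b : ℕ → (H →L[ℂ] H), (∀ i, i < n → a i = b i) → f a = f b
  lin : ∀ a : ℕ → (H →L[ℂ] H), InM M a → ∀ i, i < n → ∀ x y : H →L[ℂ] H, x ∈ M → y ∈ M → ∀ c : ℂ,
      f (Function.update a i (c • x + y)) = c • f (Function.update a i x) + f (Function.update a i y)
  bd : ∀ a : ℕ → (H →L[ℂ] H), InM M a → ‖f a‖ ≤ C * ∏ i ∈ Finset.range n, ‖a i‖
  cpt : ∀ a : ℕ → (H →L[ℂ] H), InM M a → IsCompactOperator (f a)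

/-- multiply the entries `i` and `i+1` -/
def mulAt (i : ℕ) (a : ℕ → (H →L[ℂ] H)) : ℕ → (H →L[ℂ] H) :=
  fun k => if k < i then a k else if k = i then a i * a (i + 1) else a (k + 1)

/-- Hochschild coboundary of an `n`-cochain -/
noncomputable def dd (n : ℕ) (f : (ℕ → (H →L[ℂ] H)) → (H →L[ℂ] H)) (a : ℕ → (H →L[ℂ] H)) :
    H →L[ℂ] H :=
  a 0 * f (fun k => a (k + 1))
    + ∑ i ∈ Finset.range n, ((-1 : ℂ) ^ (i + 1)) • f (mulAt i a)
    + ((-1 : ℂ) ^ (n + 1)) • (f a * a n)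

/-- `n`-cocycle on `M` -/
def IsZ (M : VonNeumannAlgebra H) (n : ℕ) (f : (ℕ → (H →L[ℂ] H)) → (H →L[ℂ] H)) : Prop :=
  ∀ a, InM M a → dd n f a = 0

/-- insert `v` at place `i`, conjugating the earlier entries -/
noncomputable def ins (i : ℕ) (v : H →L[ℂ] H) (b : ℕ → (H →L[ℂ] H)) : ℕ → (H →L[ℂ] H) :=
  fun l => if l < i then v * b l * star v else if l = i then v else b (l - 1)

/-- conjugate all entries -/
noncomputable def conj (v : H →L[ℂ] H) (b : ℕ → (H →L[ℂ] H)) : ℕ → (H →L[ℂ] H) :=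
  fun l => v * b l * star v

/-- the compressed cochain `v* f(v . v*) v` is small -/
def Small (M : VonNeumannAlgebra H) (n : ℕ) (f : (ℕ → (H →L[ℂ] H)) → (H →L[ℂ] H)) (c : ℝ)
    (v : H →L[ℂ] H) : Prop :=
  ∀ a, InM M a → ‖star v * f (conj v a) * v‖ ≤ c * ∏ l ∈ Finset.range n, ‖a l‖

/-- central projection of `M` -/
structure CP (M : VonNeumannAlgebra H) (z : H →L[ℂ] H) : Prop where
  mem : z ∈ M
  sa : star z = z
  idem : z * z = z
  cent : ∀ x ∈ M, z * x = x * z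

/-- minimal central projection -/
def MinCP (M : VonNeumannAlgebra H) (z : H →L[ℂ] H) : Prop :=
  CP M z ∧ z ≠ 0 ∧ ∀ w, CP M w → w * z = w → w = 0 ∨ w = z

/-- `z M` contains two isometries with orthogonal ranges: `z M` is properly infinite -/
def PI (M : VonNeumannAlgebra H) (z : H →L[ℂ] H) : Prop :=
  ∃ s t : H →L[ℂ] H, s ∈ M ∧ t ∈ M ∧ star s * s = z ∧ star t * t = z ∧ star s * t = 0

/-- `z M` is a full matrix algebra -/
def MU (M : VonNeumannAlgebra H) (z : H →L[ℂ] H) : Prop :=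
  ∃ (k : ℕ) (e : Fin k → Fin k → (H →L[ℂ] H)),
    (∀ i j, e i j ∈ M) ∧ (∀ i j, star (e i j) = e j i) ∧
    (∀ i j p q, e i j * e p q = if j = p then e i q else 0) ∧
    (∑ i, e i i = z) ∧
    ∀ x ∈ M, ∃ c : Fin k → Fin k → ℂ, z * x = ∑ i, ∑ j, c i j • e i j

def Tame (M : VonNeumannAlgebra H) : Prop := ∀ z, MinCP M z → PI M z ∨ MU M z

/-- entries below `r` from `w`, the others from `b` -/
def mix (r : ℕ) (w b : ℕ → (H →L[ℂ] H)) : ℕ → (H →L[ℂ] H) := fun l => if l < r then w l else b l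

end Pool.Agent.Helper5.CI
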