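import Mathlib
import Pool.Agent.Helper5.Ci.Defs

set_option autoImplicit false
open Filter Topology

namespace Pool.Agent.Helper5.CI

variable {H : Type} [NormedAddCommGroup H] [InnerProductSpace ℂ H] [CompleteSpace H]

theorem avg_two_ins {J : Type} {E : Type} [NormedAddCommGroup E] [NormedSpace ℂ E]
    [DecidableEq J] (Φ : J → J → E) (s : Finset J) (k : J) (hk : k ∉ s) (ε : J → ℂ) (δ : ℂ)
    (hδ : δ * δ = 1) :
    ∑ i ∈ insert k s, ∑ j ∈ insert k s,
      (Function.update ε k δ i * Function.update ε k δ j) • Φ i j =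
    (Φ k k + ∑ i ∈ s, ∑ j ∈ s, (ε i * ε j) • Φ i j) +
      δ • (∑ j ∈ s, ε j • (Φ k j + Φ j k)) := by
  have hne : ∀ j ∈ s, Function.update ε k δ j = ε j := by
    intro j hj
    rw [Function.update_of_ne]
    rintro rfl
    exact hk hj
  have hkk : Function.update ε k δ k = δ := Function.update_self _ _ _
  rw [Finset.sum_insert hk, Finset.sum_insert hk, hkk, hδ, one_smul]
  have h1 : ∑ j ∈ s, (δ * Function.update ε k δ j) • Φ k j = δ • ∑ j ∈ s, ε j • Φ k j := by
    rw [Finset.smul_sum]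
    apply Finset.sum_congr rfl
    intro j hj
    rw [hne j hj, mul_smul]
  have h2 : ∑ i ∈ s, ∑ j ∈ insert k s, (Function.update ε k δ i * Function.update ε k δ j) • Φ i j =
      δ • (∑ i ∈ s, ε i • Φ i k) + ∑ i ∈ s, ∑ j ∈ s, (ε i * ε j) • Φ i j := by
    rw [Finset.smul_sum, ← Finset.sum_add_distrib]
    apply Finset.sum_congr rfl
    intro i hi
    rw [Finset.sum_insert hk, hkk, hne i hi, mul_comm (ε i) δ, mul_smul]
    congr 1
    apply Finset.sum_congr rfl
    intro j hj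
    rw [hne j hj]
  rw [h1, h2]
  have h3 : ∑ j ∈ s, ε j • (Φ k j + Φ j k) = (∑ j ∈ s, ε j • Φ k j) + ∑ j ∈ s, ε j • Φ j k := by
    rw [← Finset.sum_add_distrib]
    apply Finset.sum_congr rfl
    intro j _
    rw [smul_add]
  rw [h3, smul_add]
  abel

theorem avg_two_gen {J : Type} {E : Type} [NormedAddCommGroup E] [NormedSpace ℂ E]
    (Φ : J → J → E) (t : Finset J) : ∀ x : E,
    ∃ ε : J → ℂ, (∀ j, ε j = 1 ∨ ε j = -1) ∧
      ‖x + ∑ j ∈ t, Φ j j‖ ≤ ‖x + ∑ i ∈ t, ∑ j ∈ t, (ε i * ε j) • Φ i j‖ := by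
  classical
  induction t using Finset.induction_on with
  | empty =>
    intro x
    exact ⟨fun _ => 1, fun _ => Or.inl rfl, by simp⟩
  | insert k s hk ih =>
    intro x
    obtain ⟨ε, hε, h⟩ := ih (x + Φ k k)
    set A : E := x + Φ k k + ∑ i ∈ s, ∑ j ∈ s, (ε i * ε j) • Φ i j with hA
    set c : E := ∑ j ∈ s, ε j • (Φ k j + Φ j k) with hc
    have h0 : ‖x + ∑ j ∈ insert k s, Φ j j‖ ≤ ‖A‖ := by
      rw [Finset.sum_insert hk, ← add_assoc]
      exact h
    have key : ‖A‖ ≤ ‖A + c‖ ∨ ‖A‖ ≤ ‖A - c‖ := by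
      by_contra hcon
      push Not at hcon
      have h2 : ‖(2 : ℂ) • A‖ ≤ ‖A + c‖ + ‖A - c‖ := by
        have e : (2 : ℂ) • A = (A + c) + (A - c) := by
          rw [two_smul]
          abel
        rw [e]
        exact norm_add_le _ _
      rw [norm_smul] at h2
      have h3 : ‖(2 : ℂ)‖ = 2 := by simp
      rw [h3] at h2
      linarith [hcon.1, hcon.2]
    have hsg : ∀ δ : ℂ, (δ = 1 ∨ δ = -1) → ∀ j, Function.update ε k δ j = 1 ∨
        Function.update ε k δ j = -1 := by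
      intro δ hδ j
      by_cases hj : j = k
      · subst hj
        rw [Function.update_self]
        exact hδ
      · rw [Function.update_of_ne hj]
        exact hε j
    rcases key with h1 | h1
    · refine ⟨Function.update ε k 1, hsg 1 (Or.inl rfl), h0.trans (h1.trans (le_of_eq ?_))⟩
      rw [avg_two_ins Φ s k hk ε 1 (by norm_num), one_smul, ← add_assoc, ← add_assoc]
    · refine ⟨Function.update ε k (-1), hsg (-1) (Or.inr rfl), h0.trans (h1.trans (le_of_eq ?_))⟩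
      rw [avg_two_ins Φ s k hk ε (-1) (by norm_num), neg_smul, one_smul, ← add_assoc, ← add_assoc,
        sub_eq_add_neg]

theorem avg_two {J : Type} {E : Type} [NormedAddCommGroup E] [NormedSpace ℂ E]
    (Φ : J → J → E) (t : Finset J) :
    ∃ ε : J → ℂ, (∀ j, ε j = 1 ∨ ε j = -1) ∧
      ‖∑ j ∈ t, Φ j j‖ ≤ ‖∑ i ∈ t, ∑ j ∈ t, (ε i * ε j) • Φ i j‖ := by
  obtain ⟨ε, hε, h⟩ := avg_two_gen Φ t 0
  refine ⟨ε, hε, ?_⟩
  simpa using h

end Pool.Agent.Helper5.CI
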