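import Mathlib
import Pool.Agent.Helper5.Ci.Defs

set_option autoImplicit false
open Filter Topology

namespace Pool.Agent.Helper5.CI

variable {H : Type} [NormedAddCommGroup H] [InnerProductSpace ℂ H] [CompleteSpace H]

theorem blk_pyth (v : ℕ → H) (hv : ∀ k l, k ≠ l → inner ℂ (v k) (v l) = 0) (F : Finset ℕ) :
    ‖∑ k ∈ F, v k‖ ^ 2 = ∑ k ∈ F, ‖v k‖ ^ 2 := by
  classical
  induction F using Finset.induction_on with
  | empty => simp
  | insert a F ha ih =>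
    rw [Finset.sum_insert ha, Finset.sum_insert ha, ← ih]
    have h1 : inner ℂ (v a) (∑ k ∈ F, v k) = 0 := by
      rw [inner_sum]
      apply Finset.sum_eq_zero
      intro k hk
      exact hv a k (fun h => ha (h ▸ hk))
    have h2 := norm_add_sq_eq_norm_sq_add_norm_sq_of_inner_eq_zero (v a) (∑ k ∈ F, v k) h1
    rw [sq, sq, sq]
    exact h2

theorem blk_sym (e : H →L[ℂ] H) (he : star e = e) (a b : H) :
    inner ℂ (e a) b = inner ℂ a (e b) := by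
  have h := ContinuousLinearMap.adjoint_inner_left e b a
  rw [← ContinuousLinearMap.star_eq_adjoint, he] at h
  exact h

theorem blk_bessel (e : ℕ → (H →L[ℂ] H)) (hes : ∀ k, star (e k) = e k)
    (hee : ∀ k, e k * e k = e k) (heo : ∀ k l, k ≠ l → e k * e l = 0) (ξ : H) (F : Finset ℕ) :
    ∑ k ∈ F, ‖e k ξ‖ ^ 2 ≤ ‖ξ‖ ^ 2 := by
  have horth : ∀ k l, k ≠ l → inner ℂ (e k ξ) (e l ξ) = 0 := by
    intro k l hkl
    rw [blk_sym (e k) (hes k)]
    have h1 : e k (e l ξ) = 0 := by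
      have h2 := congrArg (fun T : H →L[ℂ] H => T ξ) (heo k l hkl)
      exact h2
    rw [h1, inner_zero_right]
  have h1 := blk_pyth (fun k => e k ξ) horth F
  have h2 : inner ℂ (∑ k ∈ F, e k ξ) ξ = ((∑ k ∈ F, ‖e k ξ‖ ^ 2 : ℝ) : ℂ) := by
    rw [sum_inner]
    push_cast
    apply Finset.sum_congr rfl
    intro k _
    have h3 : e k (e k ξ) = e k ξ := by
      have h2 := congrArg (fun T : H →L[ℂ] H => T ξ) (hee k)
      exact h2
    have h4 : inner ℂ (e k ξ) ξ = inner ℂ (e k ξ) (e k ξ) := by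
      rw [← blk_sym (e k) (hes k) (e k ξ) ξ, h3]
    rw [h4, inner_self_eq_norm_sq_to_K]
    norm_cast
  have h3 : ∑ k ∈ F, ‖e k ξ‖ ^ 2 ≤ ‖∑ k ∈ F, e k ξ‖ * ‖ξ‖ := by
    have h4 := norm_inner_le_norm (𝕜 := ℂ) (∑ k ∈ F, e k ξ) ξ
    rw [h2, Complex.norm_real, Real.norm_eq_abs, abs_of_nonneg (by positivity)] at h4
    exact h4
  rw [← h1] at h3 ⊢
  have h5 : 0 ≤ ‖∑ k ∈ F, e k ξ‖ := norm_nonneg _
  have h6 : ‖∑ k ∈ F, e k ξ‖ ≤ ‖ξ‖ := by
    rcases eq_or_lt_of_le h5 with h | h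
    · rw [← h]; exact norm_nonneg _
    · have h7 : ‖∑ k ∈ F, e k ξ‖ * ‖∑ k ∈ F, e k ξ‖ ≤ ‖∑ k ∈ F, e k ξ‖ * ‖ξ‖ := by
        rw [← sq]; exact h3
      exact le_of_mul_le_mul_left h7 h
  exact pow_le_pow_left₀ h5 h6 2

open Classical in
/-- the summands -/
noncomputable def blk_v (x : ℕ → (H →L[ℂ] H)) (S : Set ℕ) (ξ : H) (k : ℕ) : H :=
  if k ∈ S then x k ξ else 0

theorem blk_orth (e : ℕ → (H →L[ℂ] H)) (hes : ∀ k, star (e k) = e k)
    (heo : ∀ k l, k ≠ l → e k * e l = 0)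
    (x : ℕ → (H →L[ℂ] H)) (hxl : ∀ k, e k * x k = x k) (S : Set ℕ) (ξ : H) (k l : ℕ) (hkl : k ≠ l) :
    inner ℂ (blk_v x S ξ k) (blk_v x S ξ l) = 0 := by
  unfold blk_v
  split_ifs
  · have h1 : ∀ k, e k (x k ξ) = x k ξ := fun k => by
      have h2 := congrArg (fun T : H →L[ℂ] H => T ξ) (hxl k)
      exact h2
    rw [← h1 k, ← h1 l, blk_sym (e k) (hes k)]
    have h3 : e k (e l (x l ξ)) = 0 := by
      have h2 := congrArg (fun T : H →L[ℂ] H => T (x l ξ)) (heo k l hkl)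
      exact h2
    rw [h3, inner_zero_right]
  · rw [inner_zero_right]
  · rw [inner_zero_left]
  · rw [inner_zero_left]

theorem blk_le (e : ℕ → (H →L[ℂ] H)) 
    (x : ℕ → (H →L[ℂ] H)) (hxr : ∀ k, x k * e k = x k) (c : ℝ) (hc : ∀ k, ‖x k‖ ≤ c)
    (S : Set ℕ) (ξ : H) (k : ℕ) : ‖blk_v x S ξ k‖ ^ 2 ≤ c ^ 2 * ‖e k ξ‖ ^ 2 := by
  have hc0 : 0 ≤ c := (norm_nonneg _).trans (hc 0)
  unfold blk_v
  split_ifs
  · have h1 : x k (e k ξ) = x k ξ := by
      have h2 := congrArg (fun T : H →L[ℂ] H => T ξ) (hxr k)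
      exact h2
    rw [← mul_pow, ← h1]
    apply pow_le_pow_left₀ (norm_nonneg _)
    exact ((x k).le_opNorm _).trans (mul_le_mul_of_nonneg_right (hc k) (norm_nonneg _))
  · rw [norm_zero, zero_pow two_ne_zero]
    positivity

theorem blk_sumle (e : ℕ → (H →L[ℂ] H)) (hes : ∀ k, star (e k) = e k)
    (hee : ∀ k, e k * e k = e k) (heo : ∀ k l, k ≠ l → e k * e l = 0)
    (x : ℕ → (H →L[ℂ] H)) (hxr : ∀ k, x k * e k = x k) (c : ℝ) (hc : ∀ k, ‖x k‖ ≤ c)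
    (S : Set ℕ) (ξ : H) (F : Finset ℕ) : ∑ k ∈ F, ‖blk_v x S ξ k‖ ^ 2 ≤ c ^ 2 * ‖ξ‖ ^ 2 :=
  calc ∑ k ∈ F, ‖blk_v x S ξ k‖ ^ 2 ≤ ∑ k ∈ F, c ^ 2 * ‖e k ξ‖ ^ 2 :=
        Finset.sum_le_sum fun k _ => blk_le e x hxr c hc S ξ k
    _ = c ^ 2 * ∑ k ∈ F, ‖e k ξ‖ ^ 2 := by rw [Finset.mul_sum]
    _ ≤ c ^ 2 * ‖ξ‖ ^ 2 := mul_le_mul_of_nonneg_left (blk_bessel e hes hee heo ξ F) (sq_nonneg c)

theorem blk_summable (e : ℕ → (H →L[ℂ] H)) (hes : ∀ k, star (e k) = e k)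
    (hee : ∀ k, e k * e k = e k) (heo : ∀ k l, k ≠ l → e k * e l = 0)
    (x : ℕ → (H →L[ℂ] H)) (hxl : ∀ k, e k * x k = x k)
    (hxr : ∀ k, x k * e k = x k) (c : ℝ) (hc : ∀ k, ‖x k‖ ≤ c)
    (S : Set ℕ) (ξ : H) : Summable (blk_v x S ξ) := by
  have h1 : Summable (fun k => ‖blk_v x S ξ k‖ ^ 2) :=
    summable_of_sum_le (fun k => sq_nonneg _) (blk_sumle e hes hee heo x hxr c hc S ξ)
  rw [summable_iff_vanishing_norm] at h1 ⊢
  intro ε hε
  obtain ⟨s, hs⟩ := h1 (ε ^ 2) (by positivity)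
  refine ⟨s, fun t ht => ?_⟩
  have h2 := hs t ht
  rw [Real.norm_eq_abs, abs_of_nonneg (by positivity),
    ← blk_pyth _ (blk_orth e hes heo x hxl S ξ) t] at h2
  exact lt_of_pow_lt_pow_left₀ 2 hε.le h2

theorem blk_norm (e : ℕ → (H →L[ℂ] H)) (hes : ∀ k, star (e k) = e k)
    (hee : ∀ k, e k * e k = e k) (heo : ∀ k l, k ≠ l → e k * e l = 0)
    (x : ℕ → (H →L[ℂ] H)) (hxl : ∀ k, e k * x k = x k)
    (hxr : ∀ k, x k * e k = x k) (c : ℝ) (hc : ∀ k, ‖x k‖ ≤ c)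
    (S : Set ℕ) (ξ : H) : ‖∑' k, blk_v x S ξ k‖ ≤ c * ‖ξ‖ := by
  have hc0 : 0 ≤ c := (norm_nonneg _).trans (hc 0)
  have h1 := (blk_summable e hes hee heo x hxl hxr c hc S ξ).hasSum
  have h2 : Tendsto (fun F : Finset ℕ => ‖∑ k ∈ F, blk_v x S ξ k‖) atTop
      (𝓝 ‖∑' k, blk_v x S ξ k‖) := (continuous_norm.tendsto _).comp h1
  apply le_of_tendsto' h2
  intro F
  have h3 := blk_sumle e hes hee heo x hxr c hc S ξ F
  rw [← blk_pyth _ (blk_orth e hes heo x hxl S ξ) F, ← mul_pow] at h3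
  exact (pow_le_pow_iff_left₀ (norm_nonneg _) (by positivity) two_ne_zero).1 h3

theorem blk (M : VonNeumannAlgebra H) (e : ℕ → (H →L[ℂ] H)) (hes : ∀ k, star (e k) = e k)
    (hee : ∀ k, e k * e k = e k) (heo : ∀ k l, k ≠ l → e k * e l = 0)
    (x : ℕ → (H →L[ℂ] H)) (hx : ∀ k, x k ∈ M) (hxl : ∀ k, e k * x k = x k)
    (hxr : ∀ k, x k * e k = x k) (c : ℝ) (hc : ∀ k, ‖x k‖ ≤ c) :
    ∃ B : Set ℕ → (H →L[ℂ] H), (∀ S, B S ∈ M) ∧ (∀ S, ‖B S‖ ≤ c) ∧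
      (∀ S T, Disjoint S T → B (S ∪ T) = B S + B T) ∧ ∀ k, B {k} = x k := by
  classical
  have hc0 : 0 ≤ c := (norm_nonneg _).trans (hc 0)
  have hsum := blk_summable e hes hee heo x hxl hxr c hc
  have hnorm := blk_norm e hes hee heo x hxl hxr c hc
  have hadd : ∀ (S : Set ℕ) (ξ η : H) (k : ℕ), blk_v x S (ξ + η) k = blk_v x S ξ k + blk_v x S η k := by
    intro S ξ η k
    unfold blk_v
    split_ifs
    · exact map_add _ _ _
    · rw [add_zero]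
  have hsm : ∀ (S : Set ℕ) (r : ℂ) (ξ : H) (k : ℕ), blk_v x S (r • ξ) k = r • blk_v x S ξ k := by
    intro S r ξ k
    unfold blk_v
    split_ifs
    · exact map_smul _ _ _
    · rw [smul_zero]
  let L : Set ℕ → (H →ₗ[ℂ] H) := fun S =>
    { toFun := fun ξ => ∑' k, blk_v x S ξ k
      map_add' := fun ξ η => by
        rw [← (hsum S ξ).tsum_add (hsum S η)]
        exact tsum_congr (hadd S ξ η)
      map_smul' := fun r ξ => by
        show ∑' k, blk_v x S (r • ξ) k = r • ∑' k, blk_v x S ξ k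
        rw [← (hsum S ξ).tsum_const_smul r]
        exact tsum_congr (hsm S r ξ) }
  let B : Set ℕ → (H →L[ℂ] H) := fun S => (L S).mkContinuous c (hnorm S)
  have hB : ∀ S ξ, B S ξ = ∑' k, blk_v x S ξ k := fun S ξ => rfl
  refine ⟨B, ?_, ?_, ?_, ?_⟩
  · intro S
    rw [← M.commutant_commutant, VonNeumannAlgebra.mem_commutant_iff]
    intro g hg
    rw [VonNeumannAlgebra.mem_commutant_iff] at hg
    ext ξ
    show g (B S ξ) = B S (g ξ)
    rw [hB, hB, g.map_tsum (hsum S ξ)]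
    apply tsum_congr
    intro k
    unfold blk_v
    split_ifs
    · have h1 := congrArg (fun T : H →L[ℂ] H => T ξ) (hg (x k) (hx k))
      exact h1.symm
    · exact map_zero g
  · intro S
    exact (L S).mkContinuous_norm_le hc0 (hnorm S)
  · intro S T hST
    ext ξ
    show B (S ∪ T) ξ = B S ξ + B T ξ
    rw [hB, hB, hB, ← (hsum S ξ).tsum_add (hsum T ξ)]
    apply tsum_congr
    intro k
    unfold blk_v
    by_cases hS : k ∈ S
    · have hT : k ∉ T := fun hT => Set.disjoint_left.1 hST hS hT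
      have hU : k ∈ S ∪ T := Or.inl hS
      rw [if_pos hU, if_pos hS, if_neg hT, add_zero]
    · by_cases hT : k ∈ T
      · have hU : k ∈ S ∪ T := Or.inr hT
        rw [if_pos hU, if_neg hS, if_pos hT, zero_add]
      · have hU : k ∉ S ∪ T := fun h => h.elim hS hT
        rw [if_neg hU, if_neg hS, if_neg hT, add_zero]
  · intro k
    ext ξ
    rw [hB, tsum_eq_single k]
    · unfold blk_v
      rw [if_pos (Set.mem_singleton k)]
    · intro l hl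
      unfold blk_v
      rw [if_neg (fun h => hl (Set.mem_singleton_iff.1 h))]

end Pool.Agent.Helper5.CI
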