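import Mathlib
import Pool.Agent.Helper5.Ci.Defs

set_option autoImplicit false
open Filter Topology

namespace Pool.Agent.Helper5.CI

variable {H : Type} [NormedAddCommGroup H] [InnerProductSpace ℂ H] [CompleteSpace H]

theorem blk_fin {J : Type} (d : J → (H →L[ℂ] H)) (hds : ∀ j, star (d j) = d j)
    (hdd : ∀ j, d j * d j = d j) (hdo : ∀ i j, i ≠ j → d i * d j = 0)
    (x : J → (H →L[ℂ] H)) (hxl : ∀ j, d j * x j = x j) (hxr : ∀ j, x j * d j = x j)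
    (c : ℝ) (hc0 : 0 ≤ c) (hc : ∀ j, ‖x j‖ ≤ c) (t : Finset J) :
    ‖∑ j ∈ t, x j‖ ≤ c := by
  classical
  have hadj : ∀ (j : J) (ξ η : H), inner ℂ (d j ξ) η = inner ℂ ξ (d j η) := by
    intro j ξ η
    have h := ContinuousLinearMap.adjoint_inner_left (d j) η ξ
    rw [← ContinuousLinearMap.star_eq_adjoint, hds j] at h
    exact h
  have hpyth : ∀ (a : J → H), (∀ i j, i ≠ j → inner ℂ (a i) (a j) = 0) → ∀ s : Finset J,
      ‖∑ j ∈ s, a j‖ ^ 2 = ∑ j ∈ s, ‖a j‖ ^ 2 := by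
    intro a ha s
    induction s using Finset.induction_on with
    | empty => simp
    | insert i s his ih =>
      rw [Finset.sum_insert his, Finset.sum_insert his, ← ih]
      have h0 : inner ℂ (a i) (∑ j ∈ s, a j) = 0 := by
        rw [inner_sum]
        exact Finset.sum_eq_zero (fun j hj => ha i j (fun h => his (h ▸ hj)))
      have h1 := norm_add_sq_eq_norm_sq_add_norm_sq_of_inner_eq_zero (a i) (∑ j ∈ s, a j) h0
      rw [pow_two, pow_two, pow_two]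
      exact h1
  have hdapp : ∀ (i j : J) (ξ : H), i ≠ j → d i (d j ξ) = 0 := by
    intro i j ξ hij
    have h := congrArg (fun T : H →L[ℂ] H => T ξ) (hdo i j hij)
    exact h
  have hddapp : ∀ (i : J) (ξ : H), d i (d i ξ) = d i ξ := by
    intro i ξ
    exact congrArg (fun T : H →L[ℂ] H => T ξ) (hdd i)
  have hxlapp : ∀ (i : J) (ξ : H), d i (x i ξ) = x i ξ := by
    intro i ξ
    exact congrArg (fun T : H →L[ℂ] H => T ξ) (hxl i)
  have hxrapp : ∀ (i : J) (ξ : H), x i (d i ξ) = x i ξ := by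
    intro i ξ
    exact congrArg (fun T : H →L[ℂ] H => T ξ) (hxr i)
  refine ContinuousLinearMap.opNorm_le_bound _ hc0 (fun ξ => ?_)
  have happ : (∑ j ∈ t, x j) ξ = ∑ j ∈ t, x j ξ := by
    simp
  rw [happ]
  have h1 : ‖∑ j ∈ t, x j ξ‖ ^ 2 = ∑ j ∈ t, ‖x j ξ‖ ^ 2 := by
    apply hpyth
    intro i j hij
    rw [← hxlapp i ξ, hadj, ← hxlapp j ξ, hdapp i j _ hij, inner_zero_right]
  have h2 : ‖∑ j ∈ t, d j ξ‖ ^ 2 = ∑ j ∈ t, ‖d j ξ‖ ^ 2 := by
    apply hpyth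
    intro i j hij
    rw [hadj, hdapp i j _ hij, inner_zero_right]
  have h3 : ∑ j ∈ t, ‖x j ξ‖ ^ 2 ≤ c ^ 2 * ∑ j ∈ t, ‖d j ξ‖ ^ 2 := by
    rw [Finset.mul_sum]
    refine Finset.sum_le_sum (fun j _ => ?_)
    rw [← hxrapp j ξ, ← mul_pow]
    have h4 : ‖x j (d j ξ)‖ ≤ c * ‖d j ξ‖ :=
      (ContinuousLinearMap.le_opNorm _ _).trans (mul_le_mul_of_nonneg_right (hc j) (norm_nonneg _))
    exact pow_le_pow_left₀ (norm_nonneg _) h4 2
  have h5 : ‖∑ j ∈ t, d j ξ‖ ≤ ‖ξ‖ := by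
    have h6 : inner ℂ (∑ j ∈ t, d j ξ) ξ = ((∑ j ∈ t, ‖d j ξ‖ ^ 2 : ℝ) : ℂ) := by
      rw [sum_inner, Complex.ofReal_sum]
      refine Finset.sum_congr rfl (fun j _ => ?_)
      have h7 : inner ℂ (d j ξ) ξ = inner ℂ (d j ξ) (d j ξ) := by
        rw [← hddapp j ξ, hadj j (d j ξ) ξ, hddapp]
      rw [h7, inner_self_eq_norm_sq_to_K]
      norm_cast
    have h8 : ‖inner ℂ (∑ j ∈ t, d j ξ) ξ‖ ≤ ‖∑ j ∈ t, d j ξ‖ * ‖ξ‖ := norm_inner_le_norm _ _
    rw [h6, Complex.norm_real, Real.norm_of_nonneg (Finset.sum_nonneg (fun j _ => sq_nonneg _)),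
      ← h2] at h8
    by_contra hcon
    push Not at hcon
    have h9 : 0 < ‖∑ j ∈ t, d j ξ‖ := lt_of_le_of_lt (norm_nonneg _) hcon
    nlinarith
  have h10 : ‖∑ j ∈ t, x j ξ‖ ^ 2 ≤ (c * ‖ξ‖) ^ 2 := by
    rw [h1, mul_pow]
    refine h3.trans ?_
    rw [← h2]
    exact mul_le_mul_of_nonneg_left (pow_le_pow_left₀ (norm_nonneg _) h5 2) (sq_nonneg _)
  exact le_of_sq_le_sq h10 (mul_nonneg hc0 (norm_nonneg _))

end Pool.Agent.Helper5.CI
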