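import Mathlib
import Pool.Agent.Helper5.Ci.Defs

set_option autoImplicit false
open Filter Topology

namespace Pool.Agent.Helper5.CI

variable {H : Type} [NormedAddCommGroup H] [InnerProductSpace ℂ H] [CompleteSpace H]

theorem blC_orth {J : Type} (t : Finset J) (x : J → H)
    (h : ∀ i j, i ≠ j → inner ℂ (x i) (x j) = 0) :
    ‖∑ j ∈ t, x j‖ ^ 2 = ∑ j ∈ t, ‖x j‖ ^ 2 := by
  classical
  induction t using Finset.induction_on with
  | empty => simp
  | insert a s ha ih =>
    rw [Finset.sum_insert ha, Finset.sum_insert ha, ← ih]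
    have h1 : inner ℂ (x a) (∑ j ∈ s, x j) = 0 := by
      rw [inner_sum]
      exact Finset.sum_eq_zero (fun j hj => h a j (fun e => ha (e ▸ hj)))
    have := norm_add_sq_eq_norm_sq_add_norm_sq_of_inner_eq_zero _ _ h1
    rw [sq, sq, sq]
    exact this

theorem blC_inner {J : Type} (d : J → (H →L[ℂ] H)) (hsa : ∀ j, star (d j) = d j)
    (hdo : ∀ i j, i ≠ j → d i * d j = 0) (i j : J) (hij : i ≠ j) (ξ η : H) :
    inner ℂ (d i ξ) (d j η) = 0 := by
  have h1 : inner ℂ ((ContinuousLinearMap.adjoint (d i)) ξ) (d j η) =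
      inner ℂ ξ (d i (d j η)) := ContinuousLinearMap.adjoint_inner_left _ _ _
  rw [← ContinuousLinearMap.star_eq_adjoint, hsa] at h1
  rw [h1]
  have h2 : d i (d j η) = 0 := by
    have := congrArg (fun T : H →L[ℂ] H => T η) (hdo i j hij)
    exact this
  rw [h2, inner_zero_right]

theorem blC_bessel {J : Type} (d : J → (H →L[ℂ] H)) (hsa : ∀ j, star (d j) = d j)
    (hid : ∀ j, d j * d j = d j) (hdo : ∀ i j, i ≠ j → d i * d j = 0) (t : Finset J) (ξ : H) :
    ∑ j ∈ t, ‖d j ξ‖ ^ 2 ≤ ‖ξ‖ ^ 2 := by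
  have h1 := blC_orth t (fun j => d j ξ) (fun i j hij => blC_inner d hsa hdo i j hij ξ ξ)
  have h2 : inner ℂ (∑ j ∈ t, d j ξ) ξ = ((∑ j ∈ t, ‖d j ξ‖ ^ 2 : ℝ) : ℂ) := by
    rw [sum_inner, Complex.ofReal_sum]
    refine Finset.sum_congr rfl (fun j _ => ?_)
    have h3 : inner ℂ (d j ξ) (d j ξ) = inner ℂ (d j ξ) ξ := by
      have h4 : inner ℂ ((ContinuousLinearMap.adjoint (d j)) (d j ξ)) ξ =
        inner ℂ (d j ξ) (d j ξ) := ContinuousLinearMap.adjoint_inner_left _ _ _
      rw [← ContinuousLinearMap.star_eq_adjoint, hsa] at h4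
      rw [← h4]
      have h5 : d j (d j ξ) = d j ξ := by
        have := congrArg (fun T : H →L[ℂ] H => T ξ) (hid j)
        exact this
      rw [h5]
    rw [← h3, inner_self_eq_norm_sq_to_K]
    push_cast
    rfl
  set P := ∑ j ∈ t, d j ξ with hP
  have h4 : ‖P‖ ^ 2 ≤ ‖P‖ * ‖ξ‖ := by
    rw [h1]
    calc (∑ j ∈ t, ‖d j ξ‖ ^ 2) = ‖inner ℂ P ξ‖ := by
          rw [h2, Complex.norm_real, Real.norm_of_nonneg (Finset.sum_nonneg (fun _ _ => sq_nonneg _))]
      _ ≤ ‖P‖ * ‖ξ‖ := norm_inner_le_norm _ _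
  rw [← h1]
  have h5 : ‖P‖ ≤ ‖ξ‖ := by
    by_contra hc
    push Not at hc
    have : 0 < ‖P‖ := lt_of_le_of_lt (norm_nonneg _) hc
    nlinarith
  exact pow_le_pow_left₀ (norm_nonneg _) h5 2

theorem blC_fin {J : Type} (d F : J → (H →L[ℂ] H)) (hsa : ∀ j, star (d j) = d j)
    (hid : ∀ j, d j * d j = d j) (hdo : ∀ i j, i ≠ j → d i * d j = 0)
    (hF1 : ∀ j, d j * F j = F j) (hF2 : ∀ j, F j * d j = F j) (K : ℝ) (hK0 : 0 ≤ K)
    (hK : ∀ j, ‖F j‖ ≤ K) (t : Finset J) : ‖∑ j ∈ t, F j‖ ≤ K := by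
  refine ContinuousLinearMap.opNorm_le_bound _ hK0 (fun ξ => ?_)
  have h1 : (∑ j ∈ t, F j) ξ = ∑ j ∈ t, F j ξ := ContinuousLinearMap.sum_apply _ _ _
  rw [h1]
  have e1 : ∀ j, F j ξ = d j (F j ξ) := fun j => by
    have := congrArg (fun T : H →L[ℂ] H => T ξ) (hF1 j)
    exact this.symm
  have e2 : ∀ j, F j ξ = F j (d j ξ) := fun j => by
    have := congrArg (fun T : H →L[ℂ] H => T ξ) (hF2 j)
    exact this.symm
  have h2 := blC_orth t (fun j => F j ξ) (fun i j hij => by
    beta_reduce
    rw [e1 i, e1 j]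
    exact blC_inner d hsa hdo i j hij _ _)
  have h3 : ∀ j, ‖F j ξ‖ ^ 2 ≤ K ^ 2 * ‖d j ξ‖ ^ 2 := by
    intro j
    rw [e2 j, ← mul_pow]
    exact pow_le_pow_left₀ (norm_nonneg _) ((ContinuousLinearMap.le_opNorm _ _).trans
      (mul_le_mul_of_nonneg_right (hK j) (norm_nonneg _))) 2
  have h4 : ‖∑ j ∈ t, F j ξ‖ ^ 2 ≤ (K * ‖ξ‖) ^ 2 := by
    rw [h2, mul_pow]
    calc ∑ j ∈ t, ‖F j ξ‖ ^ 2 ≤ ∑ j ∈ t, K ^ 2 * ‖d j ξ‖ ^ 2 :=
          Finset.sum_le_sum (fun j _ => h3 j)
      _ = K ^ 2 * ∑ j ∈ t, ‖d j ξ‖ ^ 2 := by rw [Finset.mul_sum]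
      _ ≤ K ^ 2 * ‖ξ‖ ^ 2 :=
          mul_le_mul_of_nonneg_left (blC_bessel d hsa hid hdo t ξ) (sq_nonneg _)
  exact (sq_le_sq₀ (norm_nonneg _) (by positivity)).1 h4

theorem blC_conj_mem {M : VonNeumannAlgebra H} {v : H →L[ℂ] H} (hv : v ∈ M)
    {a : ℕ → (H →L[ℂ] H)} (ha : InM M a) : InM M (conj v a) :=
  fun i => mul_mem (mul_mem hv (ha i)) (star_mem hv)

theorem blC_conj_upd (v : H →L[ℂ] H) (a : ℕ → (H →L[ℂ] H)) (i : ℕ) (x : H →L[ℂ] H) :
    conj v (Function.update a i x) = Function.update (conj v a) i (v * x * star v) := by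
  funext l
  by_cases h : l = i
  · subst h
    simp [conj]
  · simp [conj, Function.update_of_ne h]

theorem blC_upd_mem {M : VonNeumannAlgebra H} {a : ℕ → (H →L[ℂ] H)} (ha : InM M a) (i : ℕ)
    {x : H →L[ℂ] H} (hx : x ∈ M) : InM M (Function.update a i x) := by
  intro l
  by_cases h : l = i
  · subst h
    rw [Function.update_self]
    exact hx
  · rw [Function.update_of_ne h]
    exact ha l

theorem blC_mulAt_mem {M : VonNeumannAlgebra H} {a : ℕ → (H →L[ℂ] H)} (ha : InM M a) (i : ℕ) :
    InM M (mulAt i a) := by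
  intro k
  unfold mulAt
  split_ifs
  · exact ha k
  · exact mul_mem (ha _) (ha _)
  · exact ha _

theorem blC_conj_mulAt {M : VonNeumannAlgebra H} {v d : H →L[ℂ] H} (hd : CP M d)
    (hvd : star v * v = d) (hvr : v * d = v) {a : ℕ → (H →L[ℂ] H)} (ha : InM M a) (i : ℕ) :
    mulAt i (conj v a) = conj v (mulAt i a) := by
  funext k
  simp only [mulAt, conj]
  split_ifs
  · rfl
  · calc v * a i * star v * (v * a (i + 1) * star v) =
        v * a i * (star v * v) * a (i + 1) * star v := by simp only [mul_assoc]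
      _ = v * (a i * d) * a (i + 1) * star v := by rw [hvd]; simp only [mul_assoc]
      _ = (v * d) * a i * a (i + 1) * star v := by
          rw [← hd.cent _ (ha i)]
          simp only [mul_assoc]
      _ = v * (a i * a (i + 1)) * star v := by
          rw [hvr]
          simp only [mul_assoc]
  · rfl

theorem blC_dd {M : VonNeumannAlgebra H} {n : ℕ} {f : (ℕ → (H →L[ℂ] H)) → (H →L[ℂ] H)}
    (hz : IsZ M n f) {v d : H →L[ℂ] H} (hv : v ∈ M) (hd : CP M d)
    (hvd : star v * v = d) (hvr : v * d = v) {a : ℕ → (H →L[ℂ] H)} (ha : InM M a) :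
    dd n (fun a => star v * f (conj v a) * v) a = 0 := by
  have hds : d * star v = star v := by
    have := congrArg star hvr
    rw [star_mul, hd.sa] at this
    exact this
  have h0 := hz (conj v a) (blC_conj_mem hv ha)
  have h1 : star v * dd n f (conj v a) * v = 0 := by
    rw [h0, mul_zero, zero_mul]
  rw [← h1]
  simp only [dd, blC_conj_mulAt hd hvd hvr ha]
  rw [mul_add, mul_add, add_mul, add_mul]
  congr 1
  · congr 1
    · show a 0 * (star v * f (conj v fun k => a (k + 1)) * v) =
        star v * (v * a 0 * star v * f (conj v fun k => a (k + 1))) * v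
      calc a 0 * (star v * f (conj v fun k => a (k + 1)) * v) =
          a 0 * (d * star v) * (f (conj v fun k => a (k + 1)) * v) := by
            rw [hds]
            simp only [mul_assoc]
        _ = (d * a 0) * star v * (f (conj v fun k => a (k + 1)) * v) := by
            rw [hd.cent _ (ha 0)]
            simp only [mul_assoc]
        _ = star v * (v * a 0 * star v * f (conj v fun k => a (k + 1))) * v := by
            rw [← hvd]
            simp only [mul_assoc]
    · rw [Finset.mul_sum, Finset.sum_mul]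
      refine Finset.sum_congr rfl (fun i _ => ?_)
      rw [mul_smul_comm, smul_mul_assoc]
  · rw [mul_smul_comm, smul_mul_assoc]
    congr 1
    show star v * f (conj v a) * v * a n = star v * (f (conj v a) * (v * a n * star v)) * v
    calc star v * f (conj v a) * v * a n = star v * f (conj v a) * (v * d) * a n := by rw [hvr]
      _ = star v * f (conj v a) * v * (d * a n) := by simp only [mul_assoc]
      _ = star v * f (conj v a) * v * (a n * (star v * v)) := by
          rw [hd.cent _ (ha n), hvd]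
      _ = star v * (f (conj v a) * (v * a n * star v)) * v := by simp only [mul_assoc]

theorem blockC (M : VonNeumannAlgebra H) (n : ℕ) (C c : ℝ)
    (f : (ℕ → (H →L[ℂ] H)) → (H →L[ℂ] H)) (hf : IsC M n C f) (hz : IsZ M n f) (hc0 : 0 ≤ c)
    {J : Type} (v d : J → (H →L[ℂ] H)) (hv : ∀ j, v j ∈ M) (hd : ∀ j, CP M (d j))
    (hvd : ∀ j, star (v j) * v j = d j) (hvr : ∀ j, v j * d j = v j)
    (hdo : ∀ i j, i ≠ j → d i * d j = 0)
    (hs : ∀ j, Small M n f c (v j))
    (hsm : ∀ a, InM M a → Summable (fun j => star (v j) * f (conj (v j) a) * v j)) :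
    IsC M n c (fun a => ∑' j, star (v j) * f (conj (v j) a) * v j) ∧
      IsZ M n (fun a => ∑' j, star (v j) * f (conj (v j) a) * v j) := by
  have hds : ∀ j, d j * star (v j) = star (v j) := by
    intro j
    have := congrArg star (hvr j)
    rw [star_mul, (hd j).sa] at this
    exact this
  have hsum : ∀ a, InM M a → HasSum (fun j => star (v j) * f (conj (v j) a) * v j)
      (∑' j, star (v j) * f (conj (v j) a) * v j) := fun a ha => (hsm a ha).hasSum
  refine ⟨⟨?_, ?_, ?_, ?_⟩, ?_⟩
  · intro a b hab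
    refine tsum_congr (fun j => ?_)
    rw [hf.dep (conj (v j) a) (conj (v j) b) (fun i hi => by simp only [conj, hab i hi])]
  · intro a ha i hi x y hx hy c'
    have hxy : c' • x + y ∈ M := add_mem (M.toStarSubalgebra.smul_mem hx c') hy
    have h1 := hsum _ (blC_upd_mem ha i hxy)
    have h2 := hsum _ (blC_upd_mem ha i hx)
    have h3 := hsum _ (blC_upd_mem ha i hy)
    have h4 := (h2.const_smul c').add h3
    have e : (fun j => star (v j) * f (conj (v j) (Function.update a i (c' • x + y))) * v j) =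
        fun j => c' • (star (v j) * f (conj (v j) (Function.update a i x)) * v j) +
          star (v j) * f (conj (v j) (Function.update a i y)) * v j := by
      funext j
      rw [blC_conj_upd, blC_conj_upd, blC_conj_upd]
      have e1 : v j * (c' • x + y) * star (v j) =
          c' • (v j * x * star (v j)) + v j * y * star (v j) := by
        rw [mul_add, add_mul, mul_smul_comm, smul_mul_assoc]
      rw [e1, hf.lin (conj (v j) a) (blC_conj_mem (hv j) ha) i hi _ _
        (mul_mem (mul_mem (hv j) hx) (star_mem (hv j)))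
        (mul_mem (mul_mem (hv j) hy) (star_mem (hv j))) c', mul_add, add_mul, mul_smul_comm,
        smul_mul_assoc]
    have h5 : HasSum (fun j => star (v j) *
        f (conj (v j) (Function.update a i (c' • x + y))) * v j)
        (c' • (∑' j, star (v j) * f (conj (v j) (Function.update a i x)) * v j) +
          ∑' j, star (v j) * f (conj (v j) (Function.update a i y)) * v j) := by
      rw [e]
      exact h4
    exact h1.unique h5
  · intro a ha
    have hK0 : 0 ≤ c * ∏ l ∈ Finset.range n, ‖a l‖ :=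
      mul_nonneg hc0 (Finset.prod_nonneg (fun _ _ => norm_nonneg _))
    refine le_of_tendsto (Filter.Tendsto.norm (hsum a ha))
      (Filter.Eventually.of_forall (fun t => ?_))
    refine blC_fin d (fun j => star (v j) * f (conj (v j) a) * v j) (fun j => (hd j).sa)
      (fun j => (hd j).idem) hdo (fun j => ?_) (fun j => ?_) _ hK0 (fun j => hs j a ha) t
    · beta_reduce
      rw [← mul_assoc, ← mul_assoc, hds]
    · beta_reduce
      rw [mul_assoc, hvr]
  · intro a ha
    refine isCompactOperator_of_tendsto (hsum a ha) (Filter.Eventually.of_forall (fun t => ?_))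
    have hmem : (∑ j ∈ t, star (v j) * f (conj (v j) a) * v j) ∈
        compactOperator (RingHom.id ℂ) H H := by
      refine Submodule.sum_mem _ (fun j _ => ?_)
      exact ((hf.cpt (conj (v j) a) (blC_conj_mem (hv j) ha)).clm_comp (star (v j))).comp_clm (v j)
    exact hmem
  · intro a ha
    have h1 := (hsum (fun k => a (k + 1)) (fun i => ha _)).mul_left (a 0)
    have h2 := hasSum_sum (s := Finset.range n) (fun i _ =>
      (hsum (mulAt i a) (blC_mulAt_mem ha i)).const_smul ((-1 : ℂ) ^ (i + 1)))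
    have h3 := ((hsum a ha).mul_right (a n)).const_smul ((-1 : ℂ) ^ (n + 1))
    have h4 := (h1.add h2).add h3
    have h5 : (fun j => dd n (fun a => star (v j) * f (conj (v j) a) * v j) a) =
        fun _ : J => (0 : H →L[ℂ] H) :=
      funext (fun j => blC_dd hz (hv j) (hd j) (hvd j) (hvr j) ha)
    have h6 : HasSum (fun j => dd n (fun a => star (v j) * f (conj (v j) a) * v j) a)
        (dd n (fun a => ∑' j, star (v j) * f (conj (v j) a) * v j) a) := h4
    rw [h5] at h6
    exact h6.unique hasSum_zero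

end Pool.Agent.Helper5.CI
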