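import Mathlib
import Pool.Agent.Helper5.Ci.Defs

set_option autoImplicit false
open Filter Topology

namespace Pool.Agent.Helper5.CI

variable {H : Type} [NormedAddCommGroup H] [InnerProductSpace ℂ H] [CompleteSpace H]

theorem cv_re (P : H →L[ℂ] H) (hs : star P = P) (hi : P * P = P) (y : H) :
    ‖P y‖ ^ 2 = RCLike.re (inner ℂ (P y) y) := by
  rw [ContinuousLinearMap.apply_norm_sq_eq_inner_adjoint_left]
  have h1 : (ContinuousLinearMap.adjoint P).comp P = P := by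
    rw [← ContinuousLinearMap.star_eq_adjoint, hs]
    exact hi
  rw [h1]

theorem cv_le (P : H →L[ℂ] H) (hs : star P = P) (hi : P * P = P) (y : H) : ‖P y‖ ≤ ‖y‖ := by
  have h1 := cv_re P hs hi y
  have h2 : RCLike.re (inner ℂ (P y) y) ≤ ‖P y‖ * ‖y‖ :=
    (RCLike.re_le_norm _).trans (norm_inner_le_norm _ _)
  rw [← h1] at h2
  by_contra hcon
  push Not at hcon
  nlinarith [norm_nonneg y, norm_nonneg (P y)]

theorem cv_bessel (e : ℕ → (H →L[ℂ] H)) (hes : ∀ k, star (e k) = e k)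
    (hee : ∀ k, e k * e k = e k) (heo : ∀ k l, k ≠ l → e k * e l = 0) (y : H) (s : Finset ℕ) :
    ∑ k ∈ s, ‖e k y‖ ^ 2 ≤ ‖y‖ ^ 2 := by
  classical
  have hPs : star (∑ k ∈ s, e k) = ∑ k ∈ s, e k := by
    rw [star_sum]
    exact Finset.sum_congr rfl fun k _ => hes k
  have hPi : (∑ k ∈ s, e k) * (∑ k ∈ s, e k) = ∑ k ∈ s, e k := by
    rw [Finset.sum_mul]
    refine Finset.sum_congr rfl fun k hk => ?_
    rw [Finset.mul_sum, Finset.sum_eq_single_of_mem k hk (fun l _ hl => heo k l hl.symm), hee]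
  have h1 : ∑ k ∈ s, ‖e k y‖ ^ 2 = ‖(∑ k ∈ s, e k) y‖ ^ 2 := by
    rw [cv_re _ hPs hPi y, sum_apply, sum_inner, map_sum]
    exact Finset.sum_congr rfl fun k _ => cv_re _ (hes k) (hee k) y
  rw [h1]
  exact pow_le_pow_left₀ (norm_nonneg _) (cv_le _ hPs hPi y) 2

theorem cv_tendsto (e : ℕ → (H →L[ℂ] H)) (hes : ∀ k, star (e k) = e k)
    (hee : ∀ k, e k * e k = e k) (heo : ∀ k l, k ≠ l → e k * e l = 0) (y : H) :
    Tendsto (fun k => ‖e k y‖) atTop (𝓝 0) := by
  have h1 : Summable (fun k => ‖e k y‖ ^ 2) :=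
    summable_of_sum_le (fun k => sq_nonneg _) (fun s => cv_bessel e hes hee heo y s)
  have h2 := h1.tendsto_atTop_zero
  have h3 := h2.sqrt
  simpa [Real.sqrt_sq] using h3

theorem cpt_vanish (e : ℕ → (H →L[ℂ] H)) (hes : ∀ k, star (e k) = e k)
    (hee : ∀ k, e k * e k = e k) (heo : ∀ k l, k ≠ l → e k * e l = 0)
    (T : H →L[ℂ] H) (hT : IsCompactOperator T) :
    Tendsto (fun k => ‖e k * T‖) atTop (𝓝 0) := by
  obtain ⟨K, hK, hTK⟩ := hT.image_closedBall_subset_compact 1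
  rw [Metric.tendsto_atTop]
  intro ε hε
  obtain ⟨t, htfin, htK⟩ := Metric.totallyBounded_iff.mp hK.totallyBounded (ε / 3) (by linarith)
  have h1 : ∀ᶠ k in atTop, ∀ y ∈ t, ‖e k y‖ < ε / 3 := by
    rw [Filter.eventually_all_finite htfin]
    intro y _
    exact (cv_tendsto e hes hee heo y).eventually (gt_mem_nhds (by linarith))
  obtain ⟨N, hN⟩ := Filter.eventually_atTop.mp h1
  refine ⟨N, fun k hk => ?_⟩
  rw [dist_zero_right, norm_norm]
  have h2 : ‖e k * T‖ ≤ 2 * (ε / 3) := by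
    refine ContinuousLinearMap.opNorm_le_of_unit_norm (by linarith) fun x hx => ?_
    have hxK : T x ∈ K := hTK ⟨x, by simp [hx], rfl⟩
    have hxt := htK hxK
    rw [Set.mem_iUnion₂] at hxt
    obtain ⟨y, hy, hxy⟩ := hxt
    have h3 : (e k * T) x = e k (T x - y) + e k y := by
      rw [map_sub]
      simp
    rw [h3]
    refine (norm_add_le _ _).trans ?_
    have h4 : ‖e k (T x - y)‖ ≤ ‖T x - y‖ := cv_le _ (hes k) (hee k) _
    rw [Metric.mem_ball, dist_eq_norm] at hxy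
    have h5 := hN k hk y hy
    linarith
  linarith

end Pool.Agent.Helper5.CI
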