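import Mathlib
import Pool.Agent.Helper5.Ci.Defs

set_option autoImplicit false
open Filter Topology

namespace Pool.Agent.Helper5.CI

variable {H : Type} [NormedAddCommGroup H] [InnerProductSpace ℂ H] [CompleteSpace H]

theorem exists_family_comm {N : Submodule ℂ H} [N.HasOrthogonalProjection] (y : H →L[ℂ] H)
    (h1 : ∀ ξ ∈ N, y ξ ∈ N) (h2 : ∀ ξ ∈ N, (star y) ξ ∈ N) :
    y * N.starProjection = N.starProjection * y := by
  have key : ∀ w : H →L[ℂ] H, (∀ ξ ∈ N, w ξ ∈ N) →
      N.starProjection * w * N.starProjection = w * N.starProjection := by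
    intro w hw
    ext ξ
    show N.starProjection (w (N.starProjection ξ)) = w (N.starProjection ξ)
    exact Submodule.starProjection_eq_self_iff.2 (hw _ (Submodule.starProjection_apply_mem N ξ))
  have hs : star N.starProjection = N.starProjection := isSelfAdjoint_starProjection N
  have k1 := key y h1
  have k2 := congrArg star (key (star y) h2)
  rw [star_mul, star_mul, star_mul, star_star, hs] at k2
  rw [← k1, mul_assoc, k2]

theorem exists_family_bd (T : H →L[ℂ] H) (h1 : star T = T) (h2 : T * T = T) (ξ : H) :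
    ‖T ξ‖ ≤ ‖ξ‖ := by
  have h3 : inner ℂ (T ξ) (T ξ) = inner ℂ ξ (T ξ) := by
    have h4 : inner ℂ ((ContinuousLinearMap.adjoint T) ξ) (T ξ) = inner ℂ ξ (T (T ξ)) :=
      ContinuousLinearMap.adjoint_inner_left T (T ξ) ξ
    have h5 : ContinuousLinearMap.adjoint T = T := by
      rw [← ContinuousLinearMap.star_eq_adjoint]; exact h1
    have h6 : T (T ξ) = T ξ := congrArg (fun L : H →L[ℂ] H => L ξ) h2
    rw [h5, h6] at h4
    exact h4
  have h4 : ‖T ξ‖ ^ 2 ≤ ‖ξ‖ * ‖T ξ‖ := by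
    have h5 : ‖(inner ℂ (T ξ) (T ξ) : ℂ)‖ = ‖T ξ‖ ^ 2 := by
      rw [inner_self_eq_norm_sq_to_K, norm_pow]
      simp
    rw [← h5, h3]
    exact norm_inner_le_norm _ _
  rcases (norm_nonneg (T ξ)).eq_or_lt with h5 | h5
  · rw [← h5]; exact norm_nonneg _
  · nlinarith

theorem exists_family_sum (S : Set (H →L[ℂ] H)) (h1 : ∀ z ∈ S, star z = z ∧ z * z = z)
    (h2 : ∀ z ∈ S, ∀ w ∈ S, z ≠ w → z * w = 0) (h3 : ∀ ξ : H, (∀ z ∈ S, z ξ = 0) → ξ = 0) :
    ∀ ξ : H, HasSum (fun z : S => (z : H →L[ℂ] H) ξ) ξ := by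
  have hb : ∀ (F : Finset S) (ξ : H), ‖∑ z ∈ F, (z : H →L[ℂ] H) ξ‖ ≤ ‖ξ‖ := by
    intro F ξ
    have e1 : star (∑ z ∈ F, (z : H →L[ℂ] H)) = ∑ z ∈ F, (z : H →L[ℂ] H) := by
      rw [star_sum]
      exact Finset.sum_congr rfl (fun z _ => (h1 z z.2).1)
    have e2 : (∑ z ∈ F, (z : H →L[ℂ] H)) * (∑ z ∈ F, (z : H →L[ℂ] H))
        = ∑ z ∈ F, (z : H →L[ℂ] H) := by
      rw [Finset.sum_mul_sum]
      apply Finset.sum_congr rfl
      intro z hz
      rw [Finset.sum_eq_single z]
      · exact (h1 z z.2).2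
      · intro w _ hw
        exact h2 z z.2 w w.2 (fun h => hw (Subtype.ext h.symm))
      · intro h; exact absurd hz h
    have h4 := exists_family_bd _ e1 e2 ξ
    rwa [_root_.sum_apply] at h4
  have hfil : ∀ ξ : H, HasSum (fun z : S => (z : H →L[ℂ] H) ξ) ξ ↔
      ∀ ε > 0, ∃ F₀ : Finset S, ∀ F : Finset S, F₀ ⊆ F → ‖∑ z ∈ F, (z : H →L[ℂ] H) ξ - ξ‖ < ε := by
    intro ξ
    classical
    unfold HasSum
    rw [SummationFilter.unconditional_filter, Metric.tendsto_atTop]
    simp only [dist_eq_norm]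
  let E : Submodule ℂ H :=
    { carrier := {ξ | HasSum (fun z : S => (z : H →L[ℂ] H) ξ) ξ}
      add_mem' := by
        intro a b ha hb
        show HasSum (fun z : S => (z : H →L[ℂ] H) (a + b)) (a + b)
        have h := HasSum.add ha hb
        simpa only [map_add] using h
      zero_mem' := by
        show HasSum (fun z : S => (z : H →L[ℂ] H) 0) 0
        simpa only [map_zero] using hasSum_zero
      smul_mem' := by
        intro c a ha
        show HasSum (fun z : S => (z : H →L[ℂ] H) (c • a)) (c • a)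
        have h := HasSum.const_smul c ha
        simpa only [map_smul] using h }
  have hE : ∀ ξ, ξ ∈ E ↔ HasSum (fun z : S => (z : H →L[ℂ] H) ξ) ξ := fun ξ => Iff.rfl
  have hclosed : IsClosed (E : Set H) := by
    apply isClosed_of_closure_subset
    intro ξ hξ
    show ξ ∈ E
    rw [hE, hfil]
    intro ε hε
    obtain ⟨ζ, hζ, hd⟩ := Metric.mem_closure_iff.1 hξ (ε / 3) (by positivity)
    have hζ' : ζ ∈ E := hζ
    rw [hE, hfil] at hζ'
    obtain ⟨F₀, hF₀⟩ := hζ' (ε / 3) (by positivity)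
    refine ⟨F₀, fun F hF => ?_⟩
    have k1 := hF₀ F hF
    have k2 := hb F (ξ - ζ)
    have k3 : ∑ z ∈ F, (z : H →L[ℂ] H) ξ - ξ
        = ∑ z ∈ F, (z : H →L[ℂ] H) (ξ - ζ) + (∑ z ∈ F, (z : H →L[ℂ] H) ζ - ζ) - (ξ - ζ) := by
      simp only [map_sub, Finset.sum_sub_distrib]
      abel
    rw [dist_eq_norm] at hd
    rw [k3]
    calc ‖∑ z ∈ F, (z : H →L[ℂ] H) (ξ - ζ) + (∑ z ∈ F, (z : H →L[ℂ] H) ζ - ζ) - (ξ - ζ)‖
        ≤ ‖∑ z ∈ F, (z : H →L[ℂ] H) (ξ - ζ) + (∑ z ∈ F, (z : H →L[ℂ] H) ζ - ζ)‖ + ‖ξ - ζ‖ :=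
          norm_sub_le _ _
      _ ≤ (‖∑ z ∈ F, (z : H →L[ℂ] H) (ξ - ζ)‖ + ‖∑ z ∈ F, (z : H →L[ℂ] H) ζ - ζ‖) + ‖ξ - ζ‖ := by
          gcongr
          exact norm_add_le _ _
      _ < ε := by linarith
  have hrange : ∀ z ∈ S, ∀ η : H, z η ∈ E := by
    intro z hz η
    rw [hE]
    have h := hasSum_single (f := fun w : S => (w : H →L[ℂ] H) (z η)) ⟨z, hz⟩ (by
      intro w hw
      have h4 : (w : H →L[ℂ] H) * z = 0 := h2 w w.2 z hz (fun h => hw (Subtype.ext h))
      exact congrArg (fun L : H →L[ℂ] H => L η) h4)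
    have h5 : z (z η) = z η := congrArg (fun L : H →L[ℂ] H => L η) (h1 z hz).2
    have h6 : HasSum (fun w : S => (w : H →L[ℂ] H) (z η)) (z (z η)) := h
    rwa [h5] at h6
  have horth : Eᗮ = ⊥ := by
    rw [Submodule.eq_bot_iff]
    intro η hη
    apply h3
    intro z hz
    have h4 : inner ℂ (z η) (z η) = (0 : ℂ) := by
      have h5 : inner ℂ ((ContinuousLinearMap.adjoint z) η) (z η) = inner ℂ η (z (z η)) :=
        ContinuousLinearMap.adjoint_inner_left z (z η) η
      have h6 : ContinuousLinearMap.adjoint z = z := by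
        rw [← ContinuousLinearMap.star_eq_adjoint]; exact (h1 z hz).1
      rw [h6] at h5
      rw [h5]
      exact Submodule.inner_left_of_mem_orthogonal (hrange z hz (z η)) hη
    exact inner_self_eq_zero.1 h4
  have htop : E = ⊤ := by
    have h4 := Submodule.topologicalClosure_eq_top_iff.2 horth
    rwa [hclosed.submodule_topologicalClosure_eq] at h4
  intro ξ
  rw [← hE, htop]
  exact Submodule.mem_top


theorem exists_family (M : VonNeumannAlgebra H) (P : (H →L[ℂ] H) → Prop)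
    (hP : ∀ r, CP M r → r ≠ 0 → ∃ z, CP M z ∧ z ≠ 0 ∧ z * r = z ∧ P z) :
    ∃ S : Set (H →L[ℂ] H), (∀ z ∈ S, CP M z ∧ P z) ∧
      (∀ z ∈ S, ∀ w ∈ S, z ≠ w → z * w = 0) ∧
      ∀ ξ : H, HasSum (fun z : S => (z : H →L[ℂ] H) ξ) ξ := by
  have hz := zorn_subset {S : Set (H →L[ℂ] H) | (∀ z ∈ S, CP M z ∧ z ≠ 0 ∧ P z) ∧
    ∀ z ∈ S, ∀ w ∈ S, z ≠ w → z * w = 0} (by
    intro c hc hchain
    refine ⟨⋃₀ c, ⟨?_, ?_⟩, fun s hs => Set.subset_sUnion_of_mem hs⟩
    · rintro z ⟨s, hs, hzs⟩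
      exact (hc hs).1 z hzs
    · rintro z ⟨s, hs, hzs⟩ w ⟨t, ht, hwt⟩ hne
      rcases hchain.total hs ht with h | h
      · exact (hc ht).2 z (h hzs) w hwt hne
      · exact (hc hs).2 z hzs w (h hwt) hne)
  obtain ⟨S, hSmax⟩ := hz
  have hSm := hSmax.prop
  obtain ⟨hS1, hS2⟩ := hSm
  refine ⟨S, fun z hz => ⟨(hS1 z hz).1, (hS1 z hz).2.2⟩, hS2, ?_⟩
  apply exists_family_sum S (fun z hz => ⟨(hS1 z hz).1.sa, (hS1 z hz).1.idem⟩) hS2
  let N : Submodule ℂ H :=
    { carrier := {ξ | ∀ z ∈ S, z ξ = 0}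
      add_mem' := by
        intro a b ha hb z hz
        rw [map_add, ha z hz, hb z hz, add_zero]
      zero_mem' := by
        intro z _
        exact map_zero z
      smul_mem' := by
        intro c a ha z hz
        rw [map_smul, ha z hz, smul_zero] }
  have hN : ∀ ξ, ξ ∈ N ↔ ∀ z ∈ S, z ξ = 0 := fun ξ => Iff.rfl
  have hclosed : IsClosed (N : Set H) := by
    have h1 : (N : Set H) = ⋂ z ∈ S, {ξ : H | z ξ = 0} := by
      ext ξ
      simp only [Set.mem_iInter]
      exact hN ξ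
    rw [h1]
    exact isClosed_biInter (fun z _ => isClosed_eq z.continuous continuous_const)
  have hcomp : CompleteSpace N := hclosed.completeSpace_coe
  have hcommS : ∀ y : H →L[ℂ] H, (∀ z ∈ S, z * y = y * z) →
      y * N.starProjection = N.starProjection * y := by
    intro y hy
    apply exists_family_comm
    · intro ξ hξ
      rw [hN] at hξ ⊢
      intro z hz
      have h1 : z (y ξ) = y (z ξ) := congrArg (fun L : H →L[ℂ] H => L ξ) (hy z hz)
      rw [h1, hξ z hz, map_zero]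
    · intro ξ hξ
      rw [hN] at hξ ⊢
      intro z hz
      have h2 := congrArg star (hy z hz)
      rw [star_mul, star_mul, (hS1 z hz).1.sa] at h2
      have h1 : z (star y ξ) = star y (z ξ) := congrArg (fun L : H →L[ℂ] H => L ξ) h2.symm
      rw [h1, hξ z hz, map_zero]
  have hr : CP M N.starProjection := by
    refine ⟨?_, isSelfAdjoint_starProjection N, N.isIdempotentElem_starProjection, ?_⟩
    · rw [← VonNeumannAlgebra.commutant_commutant M, VonNeumannAlgebra.mem_commutant_iff]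
      intro g hg
      rw [VonNeumannAlgebra.mem_commutant_iff] at hg
      exact hcommS g (fun z hz => hg z (hS1 z hz).1.mem)
    · intro x hx
      exact (hcommS x (fun z hz => (hS1 z hz).1.cent x hx)).symm
  have hr0 : N.starProjection = 0 := by
    by_contra hne
    obtain ⟨z, hz, hz0, hzr, hPz⟩ := hP _ hr hne
    have hwr : ∀ w ∈ S, w * N.starProjection = 0 := by
      intro w hw
      ext ξ
      exact (hN _).1 (Submodule.starProjection_apply_mem N ξ) w hw
    have hrz : N.starProjection * z = z := by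
      rw [hr.cent z hz.mem, hzr]
    have hwz : ∀ w ∈ S, w * z = 0 := by
      intro w hw
      rw [← hrz, ← mul_assoc, hwr w hw, zero_mul]
    have hzw : ∀ w ∈ S, z * w = 0 := by
      intro w hw
      rw [hz.cent w (hS1 w hw).1.mem, hwz w hw]
    have hnot : z ∉ S := by
      intro h
      apply hz0
      rw [← hz.idem]
      exact hwz z h
    have hins : insert z S ∈ {S : Set (H →L[ℂ] H) | (∀ z ∈ S, CP M z ∧ z ≠ 0 ∧ P z) ∧
        ∀ z ∈ S, ∀ w ∈ S, z ≠ w → z * w = 0} := by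
      refine ⟨?_, ?_⟩
      · intro w hw
        rcases Set.mem_insert_iff.1 hw with h | h
        · rw [h]; exact ⟨hz, hz0, hPz⟩
        · exact hS1 w h
      · intro a ha b hb hab
        rcases Set.mem_insert_iff.1 ha with h | h <;> rcases Set.mem_insert_iff.1 hb with h' | h'
        · exact absurd (h.trans h'.symm) hab
        · rw [h]; exact hzw b h'
        · rw [h']; exact hwz a h
        · exact hS2 a h b h' hab
    have h5 := hSmax.le_of_ge hins (Set.subset_insert z S)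
    exact hnot (h5 (Set.mem_insert z S))
  intro ξ hξ
  have h1 : N.starProjection ξ = ξ := Submodule.starProjection_eq_self_iff.2 ((hN ξ).2 hξ)
  rw [← h1, hr0]
  rfl

end Pool.Agent.Helper5.CI
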