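import Mathlib
import Pool.Agent.Helper5.Ci.Defs

set_option autoImplicit false
open Filter Topology

namespace Pool.Agent.Helper5.CI

variable {H : Type} [NormedAddCommGroup H] [InnerProductSpace ℂ H] [CompleteSpace H]

/-- the positive variation -/
noncomputable def h170_w (g : Set ℕ → ℝ) (S : Set ℕ) : ℝ := sSup (g '' {A | A ⊆ S})

theorem h170_bdd (g : Set ℕ → ℝ) (K : ℝ) (hb : ∀ S, g S ≤ K) (S : Set ℕ) :
    BddAbove (g '' {A | A ⊆ S}) := by
  refine ⟨K, ?_⟩
  rintro _ ⟨A, -, rfl⟩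
  exact hb A

theorem h170_ne (g : Set ℕ → ℝ) (S : Set ℕ) : (g '' {A | A ⊆ S}).Nonempty :=
  ⟨g ∅, ∅, Set.empty_subset _, rfl⟩

theorem h170_le_w (g : Set ℕ → ℝ) (K : ℝ) (hb : ∀ S, g S ≤ K) {A S : Set ℕ} (h : A ⊆ S) :
    g A ≤ h170_w g S := le_csSup (h170_bdd g K hb S) ⟨A, h, rfl⟩

theorem h170_empty (g : Set ℕ → ℝ) (hadd : ∀ S T, Disjoint S T → g (S ∪ T) = g S + g T) :
    g ∅ = 0 := by
  have h := hadd ∅ ∅ (Set.disjoint_empty _)
  rw [Set.union_empty] at h
  linarith

theorem h170_w_nonneg (g : Set ℕ → ℝ) (K : ℝ) (hb : ∀ S, g S ≤ K)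
    (hadd : ∀ S T, Disjoint S T → g (S ∪ T) = g S + g T) (S : Set ℕ) : 0 ≤ h170_w g S := by
  rw [← h170_empty g hadd]
  exact h170_le_w g K hb (Set.empty_subset S)

theorem h170_w_le (g : Set ℕ → ℝ) (K : ℝ) (hb : ∀ S, g S ≤ K) (S : Set ℕ) : h170_w g S ≤ K := by
  apply csSup_le (h170_ne g S)
  rintro _ ⟨A, -, rfl⟩
  exact hb A

theorem h170_super (g : Set ℕ → ℝ) (K : ℝ) (hb : ∀ S, g S ≤ K)
    (hadd : ∀ S T, Disjoint S T → g (S ∪ T) = g S + g T) {S T R : Set ℕ} (hd : Disjoint S T)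
    (hR : S ∪ T ⊆ R) : h170_w g S + h170_w g T ≤ h170_w g R := by
  have h1 : ∀ A ⊆ S, ∀ B ⊆ T, g A + g B ≤ h170_w g R := by
    intro A hA B hB
    rw [← hadd A B (hd.mono hA hB)]
    exact h170_le_w g K hb ((Set.union_subset_union hA hB).trans hR)
  have h2 : ∀ B ⊆ T, h170_w g S ≤ h170_w g R - g B := by
    intro B hB
    apply csSup_le (h170_ne g S)
    rintro _ ⟨A, hA, rfl⟩
    have := h1 A hA B hB
    linarith
  have h3 : h170_w g T ≤ h170_w g R - h170_w g S := by
    apply csSup_le (h170_ne g T)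
    rintro _ ⟨B, hB, rfl⟩
    have := h2 B hB
    linarith
  linarith

/-- Rosenthal's lemma -/
theorem h170_rosenthal (v : ℕ → Set ℕ → ℝ) (M : ℝ) (h0 : ∀ k S, 0 ≤ v k S) (hM : ∀ k S, v k S ≤ M)
    (hs : ∀ k (S T R : Set ℕ), Disjoint S T → S ∪ T ⊆ R → v k S + v k T ≤ v k R) (ε : ℝ)
    (hε : 0 < ε) (J0 : Set ℕ) (hJ0 : J0.Infinite) :
    ∃ J ⊆ J0, J.Infinite ∧ ∀ k ∈ J, v k (J \ {k}) < ε := by
  by_contra hcon
  push Not at hcon
  have key : ∀ n : ℕ, ∃ J ⊆ J0, J.Infinite ∧ ∀ k ∈ J, v k J ≤ M - n * ε := by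
    intro n
    induction n with
    | zero => exact ⟨J0, subset_rfl, hJ0, fun k _ => by simpa using hM k J0⟩
    | succ n ih =>
      obtain ⟨J, hJJ, hJ, hv⟩ := ih
      obtain ⟨e⟩ : Nonempty (ℕ ↪ J) := ⟨hJ.natEmbedding J⟩
      obtain ⟨Jp, hJp⟩ : ∃ Jp : ℕ → Set ℕ, ∀ p, Jp p = Set.range (fun m => (e (Nat.pair p m) : ℕ)) :=
        ⟨fun p => Set.range (fun m => (e (Nat.pair p m) : ℕ)), fun _ => rfl⟩
      have hinf : ∀ p, (Jp p).Infinite := by
        intro p
        rw [hJp]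
        apply Set.infinite_range_of_injective
        intro m m' h
        have h1 := e.injective (Subtype.ext h)
        exact (Nat.pair_eq_pair.1 h1).2
      have hsub : ∀ p, Jp p ⊆ J := by
        intro p
        rw [hJp]
        rintro _ ⟨m, rfl⟩
        exact (e (Nat.pair p m)).2
      have hdis : ∀ p q x, x ∈ Jp p → x ∈ Jp q → p = q := by
        intro p q x hp hq
        rw [hJp] at hp hq
        obtain ⟨m, rfl⟩ := hp
        obtain ⟨m', h⟩ := hq
        have h1 := e.injective (Subtype.ext h)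
        exact (Nat.pair_eq_pair.1 h1).1.symm
      have hch : ∀ p, ∃ k ∈ Jp p, ε ≤ v k (Jp p \ {k}) := fun p =>
        hcon (Jp p) ((hsub p).trans hJJ) (hinf p)
      choose κ hκ hκv using hch
      refine ⟨Set.range κ, ?_, ?_, ?_⟩
      · rintro _ ⟨p, rfl⟩
        exact hJJ (hsub p (hκ p))
      · apply Set.infinite_range_of_injective
        intro p q h
        exact hdis p q (κ p) (hκ p) (by rw [h]; exact hκ q)
      · rintro _ ⟨p, rfl⟩
        have h1 := hs (κ p) (Set.range κ) (Jp p \ {κ p}) J (by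
          rw [Set.disjoint_left]
          rintro _ ⟨q, rfl⟩ ⟨h2, h3⟩
          have h4 := hdis q p (κ q) (hκ q) h2
          apply h3
          rw [h4]
          rfl) (by
          apply Set.union_subset
          · rintro _ ⟨q, rfl⟩
            exact hsub q (hκ q)
          · exact Set.sdiff_subset.trans (hsub p))
        have h2 := hκv p
        have h3 := hv (κ p) (hsub p (hκ p))
        push_cast
        linarith
  obtain ⟨n, hn⟩ := exists_nat_gt (M / ε)
  obtain ⟨J, -, hJ, hv⟩ := key n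
  obtain ⟨k, hk⟩ := hJ.nonempty
  have h1 := hv k hk
  have h2 := h0 k J
  rw [div_lt_iff₀ hε] at hn
  linarith

theorem phillips (μ : ℕ → Set ℕ → ℂ) (K : ℝ)
    (hadd : ∀ k S T, Disjoint S T → μ k (S ∪ T) = μ k S + μ k T)
    (hbd : ∀ k S, ‖μ k S‖ ≤ K)
    (hlim : ∀ S, Tendsto (fun k => μ k S) atTop (𝓝 0)) :
    Tendsto (fun k => μ k {k}) atTop (𝓝 0) := by
  by_contra hcon
  rw [Metric.tendsto_atTop] at hcon
  push Not at hcon
  obtain ⟨ε, hε, hcon⟩ := hcon
  have hJ0 : {k | ε ≤ ‖μ k {k}‖}.Infinite := by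
    apply Set.infinite_of_forall_exists_gt
    intro a
    obtain ⟨n, hn, h⟩ := hcon (a + 1)
    rw [dist_zero_right] at h
    exact ⟨n, h, by omega⟩
  have hre : ∀ k S, (μ k S).re ≤ K := fun k S =>
    ((le_abs_self _).trans (Complex.abs_re_le_norm _)).trans (hbd k S)
  have hre' : ∀ k S, -(μ k S).re ≤ K := fun k S =>
    ((neg_le_abs _).trans (Complex.abs_re_le_norm _)).trans (hbd k S)
  have him : ∀ k S, (μ k S).im ≤ K := fun k S =>
    ((le_abs_self _).trans (Complex.abs_im_le_norm _)).trans (hbd k S)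
  have him' : ∀ k S, -(μ k S).im ≤ K := fun k S =>
    ((neg_le_abs _).trans (Complex.abs_im_le_norm _)).trans (hbd k S)
  have are : ∀ k S T, Disjoint S T → (μ k (S ∪ T)).re = (μ k S).re + (μ k T).re := fun k S T h => by
    rw [hadd k S T h, Complex.add_re]
  have are' : ∀ k S T, Disjoint S T → -(μ k (S ∪ T)).re = -(μ k S).re + -(μ k T).re :=
    fun k S T h => by rw [hadd k S T h, Complex.add_re]; ring
  have aim : ∀ k S T, Disjoint S T → (μ k (S ∪ T)).im = (μ k S).im + (μ k T).im := fun k S T h => by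
    rw [hadd k S T h, Complex.add_im]
  have aim' : ∀ k S T, Disjoint S T → -(μ k (S ∪ T)).im = -(μ k S).im + -(μ k T).im :=
    fun k S T h => by rw [hadd k S T h, Complex.add_im]; ring
  obtain ⟨v, hv⟩ : ∃ v : ℕ → Set ℕ → ℝ, ∀ k S, v k S =
      h170_w (fun A => (μ k A).re) S + h170_w (fun A => -(μ k A).re) S +
      (h170_w (fun A => (μ k A).im) S + h170_w (fun A => -(μ k A).im) S) :=
    ⟨fun k S => h170_w (fun A => (μ k A).re) S + h170_w (fun A => -(μ k A).re) S +
      (h170_w (fun A => (μ k A).im) S + h170_w (fun A => -(μ k A).im) S), fun _ _ => rfl⟩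
  have n1 := fun k S => h170_w_nonneg (fun A => (μ k A).re) K (hre k) (are k) S
  have n2 := fun k S => h170_w_nonneg (fun A => -(μ k A).re) K (hre' k) (are' k) S
  have n3 := fun k S => h170_w_nonneg (fun A => (μ k A).im) K (him k) (aim k) S
  have n4 := fun k S => h170_w_nonneg (fun A => -(μ k A).im) K (him' k) (aim' k) S
  have hnorm : ∀ k S, ‖μ k S‖ ≤ v k S := by
    intro k S
    have e1 : (μ k S).re ≤ h170_w (fun A => (μ k A).re) S :=
      h170_le_w (fun A => (μ k A).re) K (hre k) subset_rfl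
    have e2 : -(μ k S).re ≤ h170_w (fun A => -(μ k A).re) S :=
      h170_le_w (fun A => -(μ k A).re) K (hre' k) subset_rfl
    have e3 : (μ k S).im ≤ h170_w (fun A => (μ k A).im) S :=
      h170_le_w (fun A => (μ k A).im) K (him k) subset_rfl
    have e4 : -(μ k S).im ≤ h170_w (fun A => -(μ k A).im) S :=
      h170_le_w (fun A => -(μ k A).im) K (him' k) subset_rfl
    have f1 : |(μ k S).re| ≤ h170_w (fun A => (μ k A).re) S + h170_w (fun A => -(μ k A).re) S := by
      rw [abs_le]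
      constructor <;> linarith [n1 k S, n2 k S]
    have f2 : |(μ k S).im| ≤ h170_w (fun A => (μ k A).im) S + h170_w (fun A => -(μ k A).im) S := by
      rw [abs_le]
      constructor <;> linarith [n3 k S, n4 k S]
    have := Complex.norm_le_abs_re_add_abs_im (μ k S)
    rw [hv]
    linarith
  obtain ⟨J, hJJ, hJ, hJv⟩ := h170_rosenthal v (4 * K)
    (fun k S => by rw [hv]; linarith [n1 k S, n2 k S, n3 k S, n4 k S])
    (fun k S => by
      rw [hv]
      linarith [h170_w_le (fun A => (μ k A).re) K (hre k) S,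
        h170_w_le (fun A => -(μ k A).re) K (hre' k) S,
        h170_w_le (fun A => (μ k A).im) K (him k) S,
        h170_w_le (fun A => -(μ k A).im) K (him' k) S])
    (fun k S T R hd hR => by
      rw [hv, hv, hv]
      linarith [h170_super (fun A => (μ k A).re) K (hre k) (are k) hd hR,
        h170_super (fun A => -(μ k A).re) K (hre' k) (are' k) hd hR,
        h170_super (fun A => (μ k A).im) K (him k) (aim k) hd hR,
        h170_super (fun A => -(μ k A).im) K (him' k) (aim' k) hd hR]) (ε / 2) (by linarith) _ hJ0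
  have h1 := Metric.tendsto_atTop.1 (hlim J) (ε / 2) (by linarith)
  obtain ⟨N, hN⟩ := h1
  obtain ⟨k, hk, hkN⟩ := hJ.exists_gt N
  have h2 := hN k hkN.le
  rw [dist_zero_right] at h2
  have h3 : μ k J = μ k {k} + μ k (J \ {k}) := by
    rw [← hadd k {k} (J \ {k}) Set.disjoint_sdiff_right, Set.union_sdiff_cancel]
    exact Set.singleton_subset_iff.2 hk
  have h4 : ε ≤ ‖μ k {k}‖ := hJJ hk
  have h5 : ‖μ k (J \ {k})‖ < ε / 2 := lt_of_le_of_lt (hnorm k _) (hJv k hk)
  have h6 : ‖μ k {k}‖ ≤ ‖μ k J‖ + ‖μ k (J \ {k})‖ := by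
    have : μ k {k} = μ k J - μ k (J \ {k}) := by rw [h3]; ring
    rw [this]
    exact norm_sub_le _ _
  linarith

end Pool.Agent.Helper5.CI
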