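import Mathlib
import Pool.Agent.Helper5.Ci.Defs
import Pool.Agent.Helper5.Ci.Phillips
import Pool.Agent.Helper5.Ci.Blk
import Pool.Agent.Helper5.Ci.CptVanish

set_option autoImplicit false
open Filter Topology

namespace Pool.Agent.Helper5.CI

variable {H : Type} [NormedAddCommGroup H] [InnerProductSpace ℂ H] [CompleteSpace H]

theorem gl_vec (T : H →L[ℂ] H) : ∃ ξ η : H, ‖ξ‖ ≤ 1 ∧ ‖η‖ ≤ 1 ∧
    ‖T‖ ≤ 2 * ‖inner ℂ η (T ξ)‖ := by
  by_cases hT : T = 0
  · refine ⟨0, 0, by simp, by simp, ?_⟩
    rw [hT]
    simp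
  · have hpos : 0 < ‖T‖ := norm_pos_iff.mpr hT
    obtain ⟨x, hx1, hx2⟩ := ContinuousLinearMap.exists_lt_apply_of_lt_opNorm T
      (show ‖T‖ / 2 < ‖T‖ by linarith)
    have hTx : 0 < ‖T x‖ := by linarith
    have hTxc : ((‖T x‖ : ℝ) : ℂ) ≠ 0 := by
      exact_mod_cast hTx.ne'
    refine ⟨x, (((‖T x‖)⁻¹ : ℝ) : ℂ) • T x, hx1.le, ?_, ?_⟩
    · rw [norm_smul, Complex.norm_real, norm_inv, norm_norm, inv_mul_cancel₀ hTx.ne']
    · rw [inner_smul_left, inner_self_eq_norm_sq_to_K, norm_mul]
      simp only [Complex.conj_ofReal, Complex.norm_real, norm_inv, norm_norm, norm_pow]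
      have : ‖((‖T x‖ : ℝ) : ℂ)‖ = ‖T x‖ := by
        rw [Complex.norm_real, norm_norm]
      have h2 : ‖(RCLike.ofReal ‖T x‖ : ℂ)‖ = ‖T x‖ := by
        simp
      rw [h2]
      have h3 : ‖T x‖⁻¹ * ‖T x‖ ^ 2 = ‖T x‖ := by
        field_simp
      rw [h3]
      linarith

theorem gl_proj (e : H →L[ℂ] H) (hes : star e = e) (hee : e * e = e) : ‖e‖ ≤ 1 := by
  have h : ‖star e * e‖ = ‖e‖ * ‖e‖ := CStarRing.norm_star_mul_self
  rw [hes, hee] at h
  by_contra hlt
  push Not at hlt
  nlinarith

theorem gl_F (e T : H →L[ℂ] H) (ξ η : H) (hξ : ‖ξ‖ ≤ 1) (hη : ‖η‖ ≤ 1) :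
    ‖inner ℂ η ((e * T) ξ)‖ ≤ ‖e * T‖ := by
  calc ‖inner ℂ η ((e * T) ξ)‖ ≤ ‖η‖ * ‖(e * T) ξ‖ := norm_inner_le_norm _ _
    _ ≤ 1 * (‖e * T‖ * ‖ξ‖) := by
        gcongr
        exact (e * T).le_opNorm ξ
    _ ≤ 1 * (‖e * T‖ * 1) := by gcongr
    _ = ‖e * T‖ := by ring

theorem gl (M : VonNeumannAlgebra H) (n : ℕ) (C : ℝ)
    (f : (ℕ → (H →L[ℂ] H)) → (H →L[ℂ] H)) (hf : IsC M n C f)
    (e : ℕ → (H →L[ℂ] H)) (hes : ∀ k, star (e k) = e k)
    (hee : ∀ k, e k * e k = e k) (heo : ∀ k l, k ≠ l → e k * e l = 0)
    (W : ℕ → ℕ → (H →L[ℂ] H)) (hW : ∀ k l, W k l ∈ M) (hWl : ∀ k l, e k * W k l = W k l)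
    (hWr : ∀ k l, W k l * e k = W k l) (c : ℝ) (hc : ∀ k l, ‖W k l‖ ≤ c)
    (b : ℕ → (H →L[ℂ] H)) (hb : InM M b) (r : ℕ) (hr : r ≤ n) :
    Tendsto (fun k => ‖e k * f (mix r (W k) b)‖) atTop (𝓝 0) := by
  choose ξ η hξ hη hF using fun k => gl_vec (e k * f (mix r (W k) b))
  set F : ℕ → (ℕ → (H →L[ℂ] H)) → ℂ := fun k a => inner ℂ (η k) ((e k * f a) (ξ k)) with hFdef
  have hFle : ∀ k a, ‖F k a‖ ≤ ‖e k * f a‖ := fun k a => gl_F _ _ _ _ (hξ k) (hη k)
  have hFle2 : ∀ k a, ‖F k a‖ ≤ ‖f a‖ := by
    intro k a
    refine (hFle k a).trans ((norm_mul_le _ _).trans ?_)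
    have := gl_proj (e k) (hes k) (hee k)
    nlinarith [norm_nonneg (f a)]
  have claim : ∀ s, s ≤ r → ∀ b : ℕ → (H →L[ℂ] H), InM M b →
      Tendsto (fun k => F k (mix s (W k) b)) atTop (𝓝 0) := by
    intro s
    induction s with
    | zero =>
      intro _ b hb
      have h0 : ∀ k, mix 0 (W k) b = b := by
        intro k
        funext l
        simp [mix]
      simp_rw [h0]
      refine squeeze_zero_norm (fun k => hFle k b) (cpt_vanish e hes hee heo (f b) (hf.cpt b hb))
    | succ s ih =>
      intro hs b hb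
      have hsn : s < n := lt_of_lt_of_le (Nat.lt_of_succ_le hs) hr
      obtain ⟨B, hBM, hBn, hBadd, hBs⟩ := blk M e hes hee heo (fun k => W k s) (fun k => hW k s)
        (fun k => hWl k s) (fun k => hWr k s) c (fun k => hc k s)
      have hupd : ∀ (k : ℕ) (x : H →L[ℂ] H), mix s (W k) (Function.update b s x) =
          Function.update (mix s (W k) b) s x := by
        intro k x
        funext l
        by_cases hl : l = s
        · subst hl
          simp [mix]
        · by_cases hl2 : l < s
          · simp [mix, hl, hl2]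
          · simp [mix, hl, hl2]
      have hmixM : ∀ (k : ℕ) (b : ℕ → (H →L[ℂ] H)), InM M b → InM M (mix s (W k) b) := by
        intro k b hb l
        unfold mix
        split_ifs
        · exact hW k l
        · exact hb l
      have hupdM : ∀ x ∈ M, InM M (Function.update b s x) := by
        intro x hx l
        by_cases hl : l = s
        · subst hl
          simpa using hx
        · rw [Function.update_of_ne hl]
          exact hb l
      have hadd : ∀ k S T, Disjoint S T →
          F k (mix s (W k) (Function.update b s (B (S ∪ T)))) =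
            F k (mix s (W k) (Function.update b s (B S))) +
            F k (mix s (W k) (Function.update b s (B T))) := by
        intro k S T hST
        rw [hupd, hupd, hupd, hBadd S T hST]
        have h1 := hf.lin (mix s (W k) b) (hmixM k b hb) s hsn (B S) (B T) (hBM S) (hBM T) 1
        rw [one_smul, one_smul] at h1
        simp only [hFdef]
        rw [h1, mul_add, ContinuousLinearMap.add_apply, inner_add_right]
      have hbd : ∀ k S, ‖F k (mix s (W k) (Function.update b s (B S)))‖ ≤
          |C| * ∏ i ∈ Finset.range n, (|c| + ‖b i‖) := by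
        intro k S
        refine (hFle2 k _).trans ((hf.bd _ (hmixM k _ (hupdM _ (hBM S)))).trans ?_)
        have hP : ∏ i ∈ Finset.range n, ‖mix s (W k) (Function.update b s (B S)) i‖ ≤
            ∏ i ∈ Finset.range n, (|c| + ‖b i‖) := by
          refine Finset.prod_le_prod (fun i _ => norm_nonneg _) fun i _ => ?_
          unfold mix
          split_ifs with h1
          · have := hc k i
            have h2 := le_abs_self c
            have h3 := norm_nonneg (b i)
            linarith
          · by_cases h2 : i = s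
            · subst h2
              rw [Function.update_self]
              have := hBn S
              have h2 := le_abs_self c
              have h3 := norm_nonneg (b i)
              linarith
            · rw [Function.update_of_ne h2]
              have := abs_nonneg c
              linarith
        have hP0 : 0 ≤ ∏ i ∈ Finset.range n, ‖mix s (W k) (Function.update b s (B S)) i‖ :=
          Finset.prod_nonneg fun i _ => norm_nonneg _
        calc C * ∏ i ∈ Finset.range n, ‖mix s (W k) (Function.update b s (B S)) i‖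
            ≤ |C| * ∏ i ∈ Finset.range n, ‖mix s (W k) (Function.update b s (B S)) i‖ :=
              mul_le_mul_of_nonneg_right (le_abs_self C) hP0
          _ ≤ |C| * ∏ i ∈ Finset.range n, (|c| + ‖b i‖) :=
              mul_le_mul_of_nonneg_left hP (abs_nonneg C)
      have hph := phillips (fun k S => F k (mix s (W k) (Function.update b s (B S)))) _ hadd hbd
        (fun S => ih (Nat.le_of_succ_le hs) _ (hupdM _ (hBM S)))
      have heq : (fun k => F k (mix s (W k) (Function.update b s (B {k})))) =
          fun k => F k (mix (s + 1) (W k) b) := by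
        funext k
        congr 1
        rw [hBs k]
        funext l
        unfold mix
        by_cases h1 : l < s
        · rw [if_pos h1, if_pos (Nat.lt_succ_of_lt h1)]
        · rw [if_neg h1]
          by_cases h2 : l = s
          · subst h2
            rw [Function.update_self, if_pos (Nat.lt_succ_self _)]
          · rw [Function.update_of_ne h2, if_neg (by omega)]
      rw [← heq]
      exact hph
  have hfin := (claim r le_rfl b hb).norm
  rw [norm_zero] at hfin
  have hfin2 := hfin.const_mul 2
  rw [mul_zero] at hfin2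
  exact squeeze_zero (fun k => norm_nonneg _) (fun k => hF k) hfin2

end Pool.Agent.Helper5.CI
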