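import Mathlib
import Pool.Agent.Helper5.Ci.Defs

set_option autoImplicit false
open Filter Topology

namespace Pool.Agent.Helper5.CI

variable {H : Type} [NormedAddCommGroup H] [InnerProductSpace ℂ H] [CompleteSpace H]

theorem smul_memM (M : VonNeumannAlgebra H) (c : ℂ) (x : H →L[ℂ] H) (hx : x ∈ M) : c • x ∈ M := by
  have hx' : x ∈ M.toStarSubalgebra := hx
  exact M.toStarSubalgebra.smul_mem hx' c

theorem f_zero (M : VonNeumannAlgebra H) (n : ℕ) (C : ℝ)
    (f : (ℕ → (H →L[ℂ] H)) → (H →L[ℂ] H)) (hf : IsC M n C f) (a : ℕ → (H →L[ℂ] H)) (ha : InM M a)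
    (i : ℕ) (hi : i < n) : f (Function.update a i 0) = 0 := by
  have h0 : (0 : H →L[ℂ] H) ∈ M := zero_mem M
  have h1 := hf.lin a ha i hi 0 0 h0 h0 1
  simp only [smul_zero, add_zero, one_smul] at h1
  have h2 : f (Function.update a i 0) + 0 = f (Function.update a i 0) + f (Function.update a i 0) := by
    rw [add_zero]; exact h1
  exact (add_left_cancel h2).symm

theorem f_smul (M : VonNeumannAlgebra H) (n : ℕ) (C : ℝ)
    (f : (ℕ → (H →L[ℂ] H)) → (H →L[ℂ] H)) (hf : IsC M n C f) (a : ℕ → (H →L[ℂ] H)) (ha : InM M a)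
    (i : ℕ) (hi : i < n) (x : H →L[ℂ] H) (hx : x ∈ M) (c : ℂ) :
    f (Function.update a i (c • x)) = c • f (Function.update a i x) := by
  have h1 := hf.lin a ha i hi x 0 hx (zero_mem M) c
  rw [add_zero, f_zero M n C f hf a ha i hi, add_zero] at h1
  exact h1

theorem f_prod (M : VonNeumannAlgebra H) (n : ℕ) (C : ℝ)
    (f : (ℕ → (H →L[ℂ] H)) → (H →L[ℂ] H)) (hf : IsC M n C f) (b : ℕ → (H →L[ℂ] H)) (hb : InM M b)
    (s : ℕ → ℂ) (k : ℕ) (hk : k ≤ n) :
    f (fun l => if l < k then s l • b l else b l) = (∏ l ∈ Finset.range k, s l) • f b := by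
  induction k with
  | zero => simp
  | succ k ih =>
    have hin : InM M (fun l => if l < k then s l • b l else b l) := by
      intro l
      by_cases hl : l < k
      · simp only [hl, if_true]; exact smul_memM M _ _ (hb l)
      · simp only [hl, if_false]; exact hb l
    have e1 : (fun l => if l < k + 1 then s l • b l else b l)
        = Function.update (fun l => if l < k then s l • b l else b l) k (s k • b k) := by
      funext l
      by_cases hl : l = k
      · subst hl; simp
      · rw [Function.update_of_ne hl]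
        by_cases h2 : l < k
        · simp [h2, Nat.lt_succ_of_lt h2]
        · have h3 : ¬ l < k + 1 := by omega
          simp [h2, h3]
    have e2 : Function.update (fun l => if l < k then s l • b l else b l) k (b k)
        = fun l => if l < k then s l • b l else b l := by
      funext l
      by_cases hl : l = k
      · subst hl; simp
      · rw [Function.update_of_ne hl]
    rw [e1, f_smul M n C f hf _ hin k (by omega) (b k) (hb k), e2, ih (by omega),
      Finset.prod_range_succ, smul_smul, mul_comm]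

theorem scale (M : VonNeumannAlgebra H) (n : ℕ) (C c : ℝ)
    (f : (ℕ → (H →L[ℂ] H)) → (H →L[ℂ] H)) (hf : IsC M n C f) (hc0 : 0 ≤ c)
    (v : H →L[ℂ] H) (hv : v ∈ M)
    (h : ∀ a, InM M a → (∀ l, ‖a l‖ ≤ 1) → ‖star v * f (conj v a) * v‖ ≤ c) :
    Small M n f c v := by
  intro a ha
  set b : ℕ → (H →L[ℂ] H) := fun l => ((‖a l‖⁻¹ : ℝ) : ℂ) • a l with hbdef
  have hb : InM M b := fun l => smul_memM M _ _ (ha l)
  have hb1 : ∀ l, ‖b l‖ ≤ 1 := by
    intro l
    simp only [hbdef]
    rw [norm_smul, Complex.norm_real, norm_inv, norm_norm]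
    by_cases h0 : ‖a l‖ = 0
    · rw [h0]; simp
    · rw [inv_mul_cancel₀ h0]
  have hab : ∀ l, a l = ((‖a l‖ : ℝ) : ℂ) • b l := by
    intro l
    simp only [hbdef]
    rw [smul_smul, ← Complex.ofReal_mul]
    by_cases h0 : ‖a l‖ = 0
    · have : a l = 0 := norm_eq_zero.1 h0
      simp [this]
    · rw [mul_inv_cancel₀ h0]; simp
  have hcb : InM M (conj v b) := fun l => mul_mem (mul_mem hv (hb l)) (star_mem hv)
  have e1 : f (conj v a) = (∏ l ∈ Finset.range n, ((‖a l‖ : ℝ) : ℂ)) • f (conj v b) := by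
    rw [← f_prod M n C f hf (conj v b) hcb (fun l => ((‖a l‖ : ℝ) : ℂ)) n le_rfl]
    apply hf.dep
    intro l hl
    simp only [hl, if_true, conj]
    conv_lhs => rw [hab l]
    rw [mul_smul_comm, smul_mul_assoc]
  rw [e1, mul_smul_comm, smul_mul_assoc, norm_smul]
  have h3 := h b hb hb1
  have h4 : ‖∏ l ∈ Finset.range n, ((‖a l‖ : ℝ) : ℂ)‖ = ∏ l ∈ Finset.range n, ‖a l‖ := by
    rw [norm_prod]
    apply Finset.prod_congr rfl
    intro l _
    rw [Complex.norm_real, norm_norm]
  rw [h4, mul_comm]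
  exact mul_le_mul_of_nonneg_right h3 (Finset.prod_nonneg (fun l _ => norm_nonneg _))

end Pool.Agent.Helper5.CI
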