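import Mathlib
import Pool.Agent.Helper5.Ci.Defs
import Pool.Agent.Helper5.Ci.Gl
import Pool.Agent.Helper5.Ci.Scale

set_option autoImplicit false
open Filter Topology

namespace Pool.Agent.Helper5.CI

variable {H : Type} [NormedAddCommGroup H] [InnerProductSpace ℂ H] [CompleteSpace H]

theorem small_of_seq (M : VonNeumannAlgebra H) (n : ℕ) (C c : ℝ)
    (f : (ℕ → (H →L[ℂ] H)) → (H →L[ℂ] H)) (hf : IsC M n C f) (hc0 : 0 < c)
    (v : ℕ → (H →L[ℂ] H)) (hv : ∀ k, v k ∈ M) (hvi : ∀ k, v k * star (v k) * v k = v k)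
    (hvo : ∀ k l, k ≠ l → star (v k) * v l = 0) :
    ∃ k, Small M n f c (v k) := by
  by_contra hcon
  push Not at hcon
  have hex : ∀ k, ∃ a, InM M a ∧ (∀ l, ‖a l‖ ≤ 1) ∧
      c < ‖star (v k) * f (conj (v k) a) * v k‖ := by
    intro k
    by_contra h
    push Not at h
    exact hcon k (scale M n C c f hf hc0.le (v k) (hv k) h)
  choose a ha1 ha2 ha3 using hex
  have hvs : ∀ k, star (v k) * v k * star (v k) = star (v k) := by
    intro k
    have := congrArg star (hvi k)
    rw [star_mul, star_mul, star_star, ← mul_assoc] at this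
    exact this
  have hvn : ∀ k, ‖v k‖ ≤ 1 := by
    intro k
    have hp : star (star (v k) * v k) * (star (v k) * v k) = star (v k) * v k := by
      rw [star_mul, star_star, ← mul_assoc, hvs]
    have h1 : ‖star (v k) * v k‖ = ‖star (v k) * v k‖ * ‖star (v k) * v k‖ := by
      rw [← CStarRing.norm_star_mul_self, hp]
    have h2 : ‖star (v k) * v k‖ = ‖v k‖ * ‖v k‖ := CStarRing.norm_star_mul_self
    have h3 : ‖star (v k) * v k‖ ≤ 1 := by
      nlinarith [norm_nonneg (star (v k) * v k), sq_nonneg (‖star (v k) * v k‖ - 1)]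
    nlinarith [norm_nonneg (v k)]
  have hvsn : ∀ k, ‖star (v k)‖ ≤ 1 := fun k => by rw [norm_star]; exact hvn k
  have hlim := gl M n C f hf (fun k => v k * star (v k))
    (fun k => by rw [star_mul, star_star])
    (fun k => by rw [← mul_assoc, hvi])
    (fun k l hkl => by
      rw [mul_assoc, ← mul_assoc (star (v k)), hvo k l hkl, zero_mul, mul_zero])
    (fun k l => v k * a k l * star (v k))
    (fun k l => mul_mem (mul_mem (hv k) (ha1 k l)) (star_mem (hv k)))
    (fun k l => by
      rw [← mul_assoc, ← mul_assoc, hvi])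
    (fun k l => by
      rw [mul_assoc (v k * a k l), ← mul_assoc (star (v k)), hvs])
    1 (fun k l => by
      calc _ ≤ ‖v k * a k l‖ * ‖star (v k)‖ := norm_mul_le _ _
        _ ≤ (‖v k‖ * ‖a k l‖) * ‖star (v k)‖ :=
          mul_le_mul_of_nonneg_right (norm_mul_le _ _) (norm_nonneg _)
        _ ≤ (1 * 1) * 1 := by
          apply mul_le_mul _ (hvsn k) (norm_nonneg _) (by norm_num)
          exact mul_le_mul (hvn k) (ha2 k l) (norm_nonneg _) zero_le_one
        _ = 1 := by norm_num)
    (fun _ => 0) (fun _ => zero_mem M) n le_rfl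
  have hlt := hlim.eventually (gt_mem_nhds hc0)
  obtain ⟨k, hk⟩ := hlt.exists
  have hdep : f (conj (v k) (a k)) =
      f (mix n (fun l => v k * a k l * star (v k)) (fun _ => 0)) := by
    apply hf.dep
    intro i hi
    unfold mix conj
    rw [if_pos hi]
  have h3 := ha3 k
  rw [hdep] at h3
  have h4 : star (v k) * f (mix n (fun l => v k * a k l * star (v k)) (fun _ => 0)) * v k =
      star (v k) * (v k * star (v k) *
        f (mix n (fun l => v k * a k l * star (v k)) (fun _ => 0))) * v k := by
    congr 1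
    rw [← mul_assoc, ← mul_assoc, hvs]
  rw [h4] at h3
  have h5 : ‖star (v k) * (v k * star (v k) *
        f (mix n (fun l => v k * a k l * star (v k)) (fun _ => 0))) * v k‖ ≤
      ‖v k * star (v k) * f (mix n (fun l => v k * a k l * star (v k)) (fun _ => 0))‖ := by
    refine (norm_mul_le _ _).trans ?_
    refine (mul_le_of_le_one_right (norm_nonneg _) (hvn k)).trans ?_
    refine (norm_mul_le _ _).trans ?_
    exact mul_le_of_le_one_left (norm_nonneg _) (hvsn k)
  linarith

end Pool.Agent.Helper5.CI
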