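import Mathlib
import Pool.Agent.Helper5.Ci.Defs
import Pool.Agent.Helper5.Ci.SmallOfSeq

set_option autoImplicit false
open Filter Topology

namespace Pool.Agent.Helper5.CI

variable {H : Type} [NormedAddCommGroup H] [InnerProductSpace ℂ H] [CompleteSpace H]

theorem ci_pi_fix {s z : H →L[ℂ] H} (hs : star s * s = z) (hz : z * z = z) (hzs : star z = z) :
    s * z = s := by
  have h1 : star (s - s * z) * (s - s * z) = 0 := by
    rw [star_sub, star_mul, hzs]
    have e1 : (star s - z * star s) * (s - s * z) =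
        star s * s - (star s * s) * z - z * (star s * s) + z * (star s * s) * z := by
      noncomm_ring
    rw [e1, hs, hz, hz]
    abel
  rw [CStarRing.star_mul_self_eq_zero_iff] at h1
  exact (sub_eq_zero.mp h1).symm

theorem ci_pow {M : VonNeumannAlgebra H} {z t : H →L[ℂ] H} (hz : CP M z) (ht : t ∈ M)
    (htt : star t * t = z) (k : ℕ) : ∀ x : H →L[ℂ] H, z * x = x →
      star (t ^ k) * (t ^ k * x) = x := by
  induction k with
  | zero => intro x _; simp
  | succ k ih =>
    intro x hx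
    have hc : z * t ^ k = t ^ k * z := hz.cent _ (pow_mem ht k)
    calc star (t ^ (k + 1)) * (t ^ (k + 1) * x) = star (t ^ k) * (star t * t) * (t ^ k * x) := by
          rw [pow_succ' t k, star_mul]
          noncomm_ring
      _ = star (t ^ k) * ((z * t ^ k) * x) := by
          rw [htt]
          noncomm_ring
      _ = star (t ^ k) * (t ^ k * x) := by rw [hc, mul_assoc, hx]
      _ = x := ih x hx

theorem ci_sub {M : VonNeumannAlgebra H} {s w : H →L[ℂ] H} (hs : CP M s) (hw : CP M w)
    (hws : w * s = w) : CP M (s - w) := by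
  have hsw : s * w = w := by rw [hs.cent w hw.mem, hws]
  refine ⟨sub_mem hs.mem hw.mem, ?_, ?_, ?_⟩
  · rw [star_sub, hs.sa, hw.sa]
  · rw [sub_mul, mul_sub, mul_sub, hs.idem, hw.idem, hsw, hws]
    abel
  · intro x hx
    rw [sub_mul, mul_sub, hs.cent x hx, hw.cent x hx]

theorem exists_nice (M : VonNeumannAlgebra H) (hM : Tame M) (n : ℕ) (C c : ℝ)
    (f : (ℕ → (H →L[ℂ] H)) → (H →L[ℂ] H)) (hf : IsC M n C f) (hc0 : 0 < c)
    (r : H →L[ℂ] H) (hr : CP M r) (hr0 : r ≠ 0) :
    ∃ z v : H →L[ℂ] H, CP M z ∧ z ≠ 0 ∧ z * r = z ∧ v ∈ M ∧ star v * v = z ∧ v * z = v ∧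
      (Small M n f c v ∨ (v = z ∧ MU M z)) := by
  classical
  by_cases hcase : ∃ z, MinCP M z ∧ z * r = z
  · obtain ⟨z, hz, hzr⟩ := hcase
    have hzc := hz.1
    rcases hM z hz with hPI | hMU
    · obtain ⟨s, t, hs, ht, hss, htt, hst⟩ := hPI
      have hsz : s * z = s := ci_pi_fix hss hzc.idem hzc.sa
      have htz : t * z = t := ci_pi_fix htt hzc.idem hzc.sa
      have hzs : z * s = s := by rw [hzc.cent s hs, hsz]
      have hzt : z * t = t := by rw [hzc.cent t ht, htz]
      set v : ℕ → (H →L[ℂ] H) := fun k => t ^ k * s with hv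
      have hvM : ∀ k, v k ∈ M := fun k => mul_mem (pow_mem ht k) hs
      have hvv : ∀ k, star (v k) * v k = z := by
        intro k
        simp only [hv]
        rw [star_mul, mul_assoc, ci_pow hzc ht htt k s hzs, hss]
      have hvz : ∀ k, v k * z = v k := by
        intro k
        simp only [hv]
        rw [mul_assoc, hsz]
      have hlt : ∀ k l, k < l → star (v k) * v l = 0 := by
        intro k l hkl
        obtain ⟨m, rfl⟩ : ∃ m, l = k + (m + 1) := ⟨l - k - 1, by omega⟩
        simp only [hv]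
        have hx : z * (t ^ (m + 1) * s) = t ^ (m + 1) * s := by
          rw [← mul_assoc, hzc.cent _ (pow_mem ht _), mul_assoc, hzs]
        rw [star_mul, pow_add, mul_assoc, mul_assoc, ci_pow hzc ht htt k _ hx, pow_succ' t m,
          mul_assoc, ← mul_assoc, hst, zero_mul]
      have hvo : ∀ k l, k ≠ l → star (v k) * v l = 0 := by
        intro k l hkl
        rcases Nat.lt_or_gt_of_ne hkl with h | h
        · exact hlt k l h
        · have h1 := congrArg star (hlt l k h)
          rwa [star_mul, star_star, star_zero] at h1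
      obtain ⟨k, hk⟩ := small_of_seq M n C c f hf hc0 v hvM
        (fun k => by rw [mul_assoc, hvv, hvz]) hvo
      exact ⟨z, v k, hzc, hz.2.1, hzr, hvM k, hvv k, hvz k, Or.inl hk⟩
    · exact ⟨z, z, hzc, hz.2.1, hzr, hzc.mem, by rw [hzc.sa, hzc.idem], hzc.idem,
        Or.inr ⟨rfl, hMU⟩⟩
  · have hstep : ∀ s : {s : H →L[ℂ] H // CP M s ∧ s ≠ 0 ∧ s * r = s},
        ∃ w : H →L[ℂ] H, CP M w ∧ w * s.1 = w ∧ w ≠ 0 ∧ w ≠ s.1 := by
      intro s
      by_contra hcon
      apply hcase
      refine ⟨s.1, ⟨s.2.1, s.2.2.1, fun w hw hws => ?_⟩, s.2.2.2⟩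
      by_contra h
      push Not at h
      exact hcon ⟨w, hw, hws, h.1, h.2⟩
    choose W hW using hstep
    set nxt : {s : H →L[ℂ] H // CP M s ∧ s ≠ 0 ∧ s * r = s} →
        {s : H →L[ℂ] H // CP M s ∧ s ≠ 0 ∧ s * r = s} := fun s =>
      ⟨s.1 - W s, ci_sub s.2.1 (hW s).1 (hW s).2.1, by
        intro h
        exact (hW s).2.2.2 (sub_eq_zero.mp h).symm, by
        have h1 : W s * r = W s := by
          conv_lhs => rw [← (hW s).2.1]
          rw [mul_assoc, s.2.2.2, (hW s).2.1]
        rw [sub_mul, s.2.2.2, h1]⟩ with hnxt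
    set S : ℕ → {s : H →L[ℂ] H // CP M s ∧ s ≠ 0 ∧ s * r = s} := fun k =>
      nxt^[k] ⟨r, hr, hr0, hr.idem⟩ with hS
    have hSs : ∀ k, (S (k + 1)).1 = (S k).1 - W (S k) := by
      intro k
      simp only [hS]
      rw [Function.iterate_succ_apply']
    set v : ℕ → (H →L[ℂ] H) := fun k => W (S k) with hv
    have hvc : ∀ k, CP M (v k) := fun k => (hW (S k)).1
    have hvS : ∀ k, v k * (S k).1 = v k := fun k => (hW (S k)).2.1
    have hSv : ∀ k, (S k).1 * v k = v k := fun k => by
      rw [(S k).2.1.cent _ (hvc k).mem, hvS]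
    have hS1 : ∀ k, (S (k + 1)).1 * (S k).1 = (S (k + 1)).1 := by
      intro k
      rw [hSs, sub_mul, (S k).2.1.idem, (hW (S k)).2.1]
    have hSl : ∀ k m, (S (k + m)).1 * (S k).1 = (S (k + m)).1 := by
      intro k m
      induction m with
      | zero => exact (S k).2.1.idem
      | succ m ih =>
        have h1 := hS1 (k + m)
        calc (S (k + (m + 1))).1 * (S k).1 = (S (k + m + 1)).1 * (S k).1 := rfl
          _ = ((S (k + m + 1)).1 * (S (k + m)).1) * (S k).1 := by rw [h1]
          _ = (S (k + m + 1)).1 * ((S (k + m)).1 * (S k).1) := mul_assoc _ _ _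
          _ = (S (k + m + 1)).1 * (S (k + m)).1 := by rw [ih]
          _ = (S (k + m + 1)).1 := h1
    have hzero : ∀ k, (S (k + 1)).1 * v k = 0 := by
      intro k
      rw [hSs, sub_mul, hSv k]
      have : W (S k) * v k = v k := (hvc k).idem
      rw [this, sub_self]
    have hlt : ∀ k l, k < l → v l * v k = 0 := by
      intro k l hkl
      obtain ⟨m, rfl⟩ : ∃ m, l = (k + 1) + m := ⟨l - (k + 1), by omega⟩
      have h1 := hSl (k + 1) m
      calc v (k + 1 + m) * v k = (v (k + 1 + m) * (S (k + 1 + m)).1) * v k := by rw [hvS]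
        _ = (v (k + 1 + m) * ((S (k + 1 + m)).1 * (S (k + 1)).1)) * v k := by rw [h1]
        _ = v (k + 1 + m) * (S (k + 1 + m)).1 * ((S (k + 1)).1 * v k) := by noncomm_ring
        _ = 0 := by rw [hzero, mul_zero]
    have hvo : ∀ k l, k ≠ l → star (v k) * v l = 0 := by
      intro k l hkl
      rw [(hvc k).sa]
      rcases Nat.lt_or_gt_of_ne hkl with h | h
      · rw [(hvc k).cent _ (hvc l).mem]
        exact hlt k l h
      · exact hlt l k h
    obtain ⟨k, hk⟩ := small_of_seq M n C c f hf hc0 v (fun k => (hvc k).mem)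
      (fun k => by rw [(hvc k).sa, (hvc k).idem, (hvc k).idem]) hvo
    refine ⟨v k, v k, hvc k, (hW (S k)).2.2.1, ?_, (hvc k).mem, by rw [(hvc k).sa, (hvc k).idem],
      (hvc k).idem, Or.inl hk⟩
    calc v k * r = (v k * (S k).1) * r := by rw [hvS]
      _ = v k * ((S k).1 * r) := mul_assoc _ _ _
      _ = v k * (S k).1 := by rw [(S k).2.2.2]
      _ = v k := hvS k

end Pool.Agent.Helper5.CI
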