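import Mathlib
import Pool.Agent.Helper5.Ci.Defs

set_option autoImplicit false
open Filter Topology

namespace Pool.Agent.Helper5.CI

variable {H : Type} [NormedAddCommGroup H] [InnerProductSpace ℂ H] [CompleteSpace H]

theorem hom_dbl {V : Type*} [AddCommGroup V] [Module ℂ V] (Φ Ψ : ℕ → ℕ → V)
    (h1 : ∀ i j, j < i → Φ (i + 1) j = Ψ i j) (h2 : ∀ i j, i ≤ j → Φ i (j + 1) = Ψ i j)
    (h3 : ∀ i, Φ (i + 1) i = Φ i i) (m : ℕ) :
    ∑ i ∈ Finset.range (m + 2), ∑ j ∈ Finset.range (m + 1), ((-1 : ℂ) ^ (i + j + 1)) • Φ i j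
      = ∑ j ∈ Finset.range m, ∑ i ∈ Finset.range (m + 1), ((-1 : ℂ) ^ (i + j)) • Ψ i j := by
  induction m with
  | zero =>
    simp [Finset.sum_range_succ, h3 0]
  | succ m ih =>
    have eL : ∑ i ∈ Finset.range (m + 1 + 2), ∑ j ∈ Finset.range (m + 1 + 1), ((-1 : ℂ) ^ (i + j + 1)) • Φ i j
        = ∑ i ∈ Finset.range (m + 2), ∑ j ∈ Finset.range (m + 1), ((-1 : ℂ) ^ (i + j + 1)) • Φ i j
          + (∑ i ∈ Finset.range (m + 1), ((-1 : ℂ) ^ (i + m)) • Ψ i m
            + ((-1 : ℂ) ^ ((m + 1) + (m + 1) + 1)) • Φ (m + 1) (m + 1))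
          + (∑ j ∈ Finset.range (m + 1), ((-1 : ℂ) ^ ((m + 1) + j)) • Ψ (m + 1) j
            + ((-1 : ℂ) ^ ((m + 2) + (m + 1) + 1)) • Φ (m + 2) (m + 1)) := by
      rw [show m + 1 + 2 = (m + 2) + 1 by ring, Finset.sum_range_succ]
      congr 1
      · have e0 : ∑ i ∈ Finset.range (m + 1), ((-1 : ℂ) ^ (i + m)) • Ψ i m
            + ((-1 : ℂ) ^ ((m + 1) + (m + 1) + 1)) • Φ (m + 1) (m + 1)
            = ∑ i ∈ Finset.range (m + 2), ((-1 : ℂ) ^ (i + (m + 1) + 1)) • Φ i (m + 1) := by
          rw [Finset.sum_range_succ _ (m + 1)]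
          congr 1
          apply Finset.sum_congr rfl
          intro i hi
          rw [h2 i m (Nat.lt_succ_iff.1 (Finset.mem_range.1 hi))]
          congr 1
          rw [show i + (m + 1) + 1 = (i + m) + 2 by ring, pow_add _ (i + m) 2]
          norm_num
        rw [e0, ← Finset.sum_add_distrib]
        apply Finset.sum_congr rfl
        intro i _
        rw [Finset.sum_range_succ]
      · rw [Finset.sum_range_succ]
        congr 1
        apply Finset.sum_congr rfl
        intro j hj
        rw [h1 (m + 1) j (Finset.mem_range.1 hj)]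
        congr 1
        rw [show m + 2 + j + 1 = (m + 1 + j) + 2 by ring, pow_add _ (m + 1 + j) 2]
        norm_num
    have eR : ∑ j ∈ Finset.range (m + 1), ∑ i ∈ Finset.range (m + 1 + 1), ((-1 : ℂ) ^ (i + j)) • Ψ i j
        = ∑ j ∈ Finset.range m, ∑ i ∈ Finset.range (m + 1), ((-1 : ℂ) ^ (i + j)) • Ψ i j
          + ∑ j ∈ Finset.range m, ((-1 : ℂ) ^ ((m + 1) + j)) • Ψ (m + 1) j
          + (∑ i ∈ Finset.range (m + 1), ((-1 : ℂ) ^ (i + m)) • Ψ i m
            + ((-1 : ℂ) ^ ((m + 1) + m)) • Ψ (m + 1) m) := by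
      rw [Finset.sum_range_succ]
      congr 1
      · rw [← Finset.sum_add_distrib]
        apply Finset.sum_congr rfl
        intro i _
        rw [Finset.sum_range_succ]
      · rw [Finset.sum_range_succ]
    rw [eL, eR, ih, Finset.sum_range_succ (fun j => ((-1 : ℂ) ^ ((m + 1) + j)) • Ψ (m + 1) j), h3 (m + 1)]
    have e1 : ((-1 : ℂ) ^ ((m + 1) + (m + 1) + 1)) = -1 := by
      rw [pow_succ, ← two_mul, pow_mul]; norm_num
    have e2 : ((-1 : ℂ) ^ ((m + 2) + (m + 1) + 1)) = 1 := by
      rw [show (m + 2) + (m + 1) + 1 = 2 * (m + 2) by ring, pow_mul]; norm_num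
    rw [e1, e2]
    module


theorem hom_shift (i : ℕ) (v : H →L[ℂ] H) (a : ℕ → (H →L[ℂ] H)) :
    (fun k => ins (i + 1) v a (k + 1)) = ins i v (fun k => a (k + 1)) := by
  funext k
  unfold ins
  rcases lt_trichotomy k i with h | h | h
  · rw [if_pos (by omega), if_pos h]
  · rw [if_neg (by omega), if_pos (by omega), if_neg (by omega), if_pos h]
  · rw [if_neg (by omega), if_neg (by omega), if_neg (by omega), if_neg (by omega)]
    show a (k + 1 - 1) = a (k - 1 + 1)
    congr 1
    omega

theorem hom_h1 (i j : ℕ) (hij : j < i) (v : H →L[ℂ] H) (a : ℕ → (H →L[ℂ] H))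
    (hm : v * a j * star v * (v * a (j + 1) * star v) = v * (a j * a (j + 1)) * star v) :
    mulAt j (ins (i + 1) v a) = ins i v (mulAt j a) := by
  funext k
  rcases lt_trichotomy k j with h | h | h
  · simp only [mulAt, ins]
    rw [if_pos h, if_pos (by omega), if_pos (by omega), if_pos h]
  · subst h
    have e1 : k < i + 1 := by omega
    have e2 : k + 1 < i + 1 := by omega
    simp only [mulAt, ins, lt_irrefl, if_true, if_false, e1, e2, hij]
    exact hm
  · simp only [mulAt, ins]
    rw [if_neg (by omega), if_neg (by omega)]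
    rcases lt_trichotomy k i with h' | h' | h'
    · rw [if_pos (by omega), if_pos h', if_neg (by omega), if_neg (by omega)]
    · rw [if_neg (by omega), if_pos (by omega), if_neg (by omega), if_pos h']
    · rw [if_neg (by omega), if_neg (by omega), if_neg (by omega), if_neg (by omega),
        if_neg (by omega), if_neg (by omega)]
      congr 1
      omega

theorem hom_h2 (i j : ℕ) (hij : i ≤ j) (v : H →L[ℂ] H) (a : ℕ → (H →L[ℂ] H)) :
    mulAt (j + 1) (ins i v a) = ins i v (mulAt j a) := by
  funext k
  rcases lt_trichotomy k (j + 1) with h | h | h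
  · simp only [mulAt, ins]
    rw [if_pos h]
    rcases lt_trichotomy k i with h' | h' | h'
    · rw [if_pos h', if_pos h', if_pos (by omega)]
    · rw [if_neg (by omega), if_pos h', if_neg (by omega), if_pos h']
    · rw [if_neg (by omega), if_neg (by omega), if_neg (by omega), if_neg (by omega),
        if_pos (by omega)]
  · subst h
    have e1 : ¬ j + 1 < i := by omega
    have e2 : ¬ j + 1 = i := by omega
    have e3 : ¬ j + 1 + 1 < i := by omega
    have e4 : ¬ j + 1 + 1 = i := by omega
    simp only [mulAt, ins, lt_irrefl, if_true, if_false, e1, e2, e3, e4, Nat.add_sub_cancel]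
  · simp only [mulAt, ins]
    rw [if_neg (by omega), if_neg (by omega), if_neg (by omega), if_neg (by omega),
      if_neg (by omega), if_neg (by omega), if_neg (by omega), if_neg (by omega)]
    congr 1
    omega

theorem hom_h3 (i : ℕ) (v : H →L[ℂ] H) (a : ℕ → (H →L[ℂ] H))
    (hm : v * a i * star v * v = v * a i) :
    mulAt i (ins (i + 1) v a) = mulAt i (ins i v a) := by
  funext k
  rcases lt_trichotomy k i with h | h | h
  · simp only [mulAt, ins]
    rw [if_pos h, if_pos (by omega), if_pos h, if_pos h]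
  · subst h
    have e1 : k < k + 1 := by omega
    have e2 : ¬ k + 1 < k := by omega
    have e3 : ¬ k + 1 = k := by omega
    simp only [mulAt, ins, lt_irrefl, if_true, if_false, e1, e2, e3, Nat.add_sub_cancel]
    exact hm
  · simp only [mulAt, ins]
    rw [if_neg (by omega), if_neg (by omega), if_neg (by omega), if_neg (by omega),
      if_neg (by omega), if_neg (by omega), if_neg (by omega), if_neg (by omega)]

theorem hom (m : ℕ) (M : VonNeumannAlgebra H)
    (f : (ℕ → (H →L[ℂ] H)) → (H →L[ℂ] H))
    (hdep : ∀ a b : ℕ → (H →L[ℂ] H), (∀ i, i < m + 1 → a i = b i) → f a = f b)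
    (hz : IsZ M (m + 1) f) (v : H →L[ℂ] H) (hv : v ∈ M) (hvd : v * (star v * v) = v)
    (hcent : ∀ x ∈ M, star v * v * x = x * (star v * v))
    (a : ℕ → (H →L[ℂ] H)) (ha : InM M a) :
    (star v * v) * f a = star v * f (conj v a) * v
      + dd m (fun b => ∑ i ∈ Finset.range (m + 1), ((-1 : ℂ) ^ i) • (star v * f (ins i v b))) a := by
  have hsv : star v ∈ M := star_mem hv
  have c2 : ∀ x ∈ M, v * x * star v * v = v * x := by
    intro x hx
    calc v * x * star v * v = v * (x * (star v * v)) := by simp only [mul_assoc]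
      _ = v * (star v * v * x) := by rw [hcent x hx]
      _ = v * (star v * v) * x := by simp only [mul_assoc]
      _ = v * x := by rw [hvd]
  have c3 : ∀ x ∈ M, ∀ y ∈ M, v * x * star v * (v * y * star v) = v * (x * y) * star v := by
    intro x hx y hy
    calc v * x * star v * (v * y * star v) = (v * x * star v * v) * y * star v := by
          simp only [mul_assoc]
      _ = v * (x * y) * star v := by rw [c2 x hx]; simp only [mul_assoc]
  have hvs : star v * v * star v = star v := by
    have := congrArg star hvd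
    simpa [star_mul, mul_assoc] using this
  have c4 : ∀ x ∈ M, star v * (v * x * star v) = x * star v := by
    intro x hx
    calc star v * (v * x * star v) = (star v * v * x) * star v := by simp only [mul_assoc]
      _ = x * (star v * v * star v) := by rw [hcent x hx]; simp only [mul_assoc]
      _ = x * star v := by rw [hvs]
  have hins : ∀ i, InM M (ins i v a) := by
    intro i l
    unfold ins
    split_ifs
    · exact mul_mem (mul_mem hv (ha l)) hsv
    · exact hv
    · exact ha _
  -- the cocycle identities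
  have hE : ∀ i, star v * ((ins i v a) 0 * f (fun k => ins i v a (k + 1)))
      + ∑ j ∈ Finset.range (m + 1), ((-1 : ℂ) ^ (j + 1)) • (star v * f (mulAt j (ins i v a)))
      + ((-1 : ℂ) ^ (m + 2)) • (star v * (f (ins i v a) * (ins i v a) (m + 1))) = 0 := by
    intro i
    have h := hz (ins i v a) (hins i)
    unfold dd at h
    have h2 := congrArg (fun x => star v * x) h
    simp only [mul_add, mul_zero, Finset.mul_sum, mul_smul_comm] at h2
    exact h2
  have hS : ∑ i ∈ Finset.range (m + 2), ((-1 : ℂ) ^ i) •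
      (star v * ((ins i v a) 0 * f (fun k => ins i v a (k + 1)))
      + ∑ j ∈ Finset.range (m + 1), ((-1 : ℂ) ^ (j + 1)) • (star v * f (mulAt j (ins i v a)))
      + ((-1 : ℂ) ^ (m + 2)) • (star v * (f (ins i v a) * (ins i v a) (m + 1)))) = 0 := by
    apply Finset.sum_eq_zero
    intro i _
    rw [hE i, smul_zero]
  simp only [smul_add, Finset.sum_add_distrib] at hS
  -- first terms
  have hF : ∑ i ∈ Finset.range (m + 2), ((-1 : ℂ) ^ i) •
      (star v * ((ins i v a) 0 * f (fun k => ins i v a (k + 1))))
      = star v * v * f a - a 0 * ∑ i ∈ Finset.range (m + 1), ((-1 : ℂ) ^ i) •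
        (star v * f (ins i v (fun k => a (k + 1)))) := by
    rw [Finset.sum_range_succ']
    have e0 : ins 0 v a 0 = v := by simp [ins]
    have e1 : (fun k => ins 0 v a (k + 1)) = a := by
      funext k
      simp [ins]
    have e2 : ∀ i, ins (i + 1) v a 0 = v * a 0 * star v := by
      intro i; simp [ins]
    rw [e0, e1, pow_zero, one_smul, mul_assoc (star v) v (f a), Finset.mul_sum, add_comm,
      sub_eq_add_neg, ← Finset.sum_neg_distrib]
    congr 1
    apply Finset.sum_congr rfl
    intro i _
    rw [hom_shift, e2, ← mul_assoc (star v), c4 _ (ha 0), pow_succ, mul_smul_comm, mul_assoc (a 0)]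
    simp
  -- last terms
  have hL : ∑ i ∈ Finset.range (m + 2), ((-1 : ℂ) ^ i) •
      ((-1 : ℂ) ^ (m + 2)) • (star v * (f (ins i v a) * (ins i v a) (m + 1)))
      = ((-1 : ℂ) ^ m) • ((∑ i ∈ Finset.range (m + 1), ((-1 : ℂ) ^ i) •
        (star v * f (ins i v a))) * a m) - star v * f (conj v a) * v := by
    rw [Finset.sum_range_succ, sub_eq_add_neg]
    congr 1
    · rw [Finset.sum_mul, Finset.smul_sum]
      apply Finset.sum_congr rfl
      intro i hi
      have hi' := Finset.mem_range.1 hi
      have e1 : ins i v a (m + 1) = a m := by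
        unfold ins
        rw [if_neg (by omega), if_neg (by omega)]
        rfl
      rw [e1, smul_mul_assoc, smul_smul, smul_smul, mul_assoc (star v), pow_add]
      congr 1
      norm_num
      ring
    · have e1 : ins (m + 1) v a (m + 1) = v := by simp [ins]
      have e2 : f (ins (m + 1) v a) = f (conj v a) := by
        apply hdep
        intro l hl
        simp [ins, conj, hl]
      rw [e1, e2, smul_smul, ← pow_add, show m + 1 + (m + 2) = 2 * (m + 1) + 1 by ring, pow_succ,
        pow_mul, mul_assoc (star v)]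
      norm_num
  -- middle terms
  have hM : ∑ i ∈ Finset.range (m + 2), ((-1 : ℂ) ^ i) • ∑ j ∈ Finset.range (m + 1),
      ((-1 : ℂ) ^ (j + 1)) • (star v * f (mulAt j (ins i v a)))
      = - ∑ j ∈ Finset.range m, ((-1 : ℂ) ^ (j + 1)) • ∑ i ∈ Finset.range (m + 1), ((-1 : ℂ) ^ i) •
        (star v * f (ins i v (mulAt j a))) := by
    have h := hom_dbl (fun i j => star v * f (mulAt j (ins i v a)))
      (fun i j => star v * f (ins i v (mulAt j a)))
      (fun i j hij => by
        rw [hom_h1 i j hij v a (c3 _ (ha j) _ (ha (j + 1)))])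
      (fun i j hij => by
        rw [hom_h2 i j hij v a])
      (fun i => by
        rw [hom_h3 i v a (c2 _ (ha i))]) m
    calc ∑ i ∈ Finset.range (m + 2), ((-1 : ℂ) ^ i) • ∑ j ∈ Finset.range (m + 1),
          ((-1 : ℂ) ^ (j + 1)) • (star v * f (mulAt j (ins i v a)))
        = ∑ i ∈ Finset.range (m + 2), ∑ j ∈ Finset.range (m + 1),
          ((-1 : ℂ) ^ (i + j + 1)) • (star v * f (mulAt j (ins i v a))) := by
          apply Finset.sum_congr rfl
          intro i _
          rw [Finset.smul_sum]
          apply Finset.sum_congr rfl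
          intro j _
          rw [smul_smul, ← pow_add, add_assoc]
      _ = ∑ j ∈ Finset.range m, ∑ i ∈ Finset.range (m + 1), ((-1 : ℂ) ^ (i + j)) •
          (star v * f (ins i v (mulAt j a))) := h
      _ = _ := by
          rw [← Finset.sum_neg_distrib]
          apply Finset.sum_congr rfl
          intro j _
          rw [Finset.smul_sum, ← Finset.sum_neg_distrib]
          apply Finset.sum_congr rfl
          intro i _
          rw [smul_smul, ← pow_add, show j + 1 + i = (i + j) + 1 by ring, pow_succ]
          simp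
  rw [hF, hL, hM] at hS
  unfold dd
  rw [pow_succ]
  have hS' := sub_eq_zero.2 hS
  rw [← sub_eq_zero]
  rw [← hS]
  simp only [mul_neg, mul_one, neg_smul]
  abel

end Pool.Agent.Helper5.CI
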