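import Mathlib
import Pool.Agent.Helper5.Ci.Defs
import Pool.Agent.Helper5.Ci.AvgTwo
import Pool.Agent.Helper5.Ci.BlkFin

set_option autoImplicit false
open Filter Topology

namespace Pool.Agent.Helper5.CI

variable {H : Type} [NormedAddCommGroup H] [InnerProductSpace ℂ H] [CompleteSpace H]

theorem sg_zero (M : VonNeumannAlgebra H) (n : ℕ) (C : ℝ)
    (f : (ℕ → (H →L[ℂ] H)) → (H →L[ℂ] H)) (hf : IsC M n C f)
    (a : ℕ → (H →L[ℂ] H)) (ha : InM M a) (i : ℕ) (hi : i < n) :
    f (Function.update a i 0) = 0 := by
  have h := hf.lin a ha i hi 0 0 (zero_mem M) (zero_mem M) 1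
  rw [smul_zero, add_zero, one_smul] at h
  exact (left_eq_add.1 h)

theorem sg_sum (M : VonNeumannAlgebra H) (n : ℕ) (C : ℝ)
    (f : (ℕ → (H →L[ℂ] H)) → (H →L[ℂ] H)) (hf : IsC M n C f)
    (a : ℕ → (H →L[ℂ] H)) (ha : InM M a) (i : ℕ) (hi : i < n) {J : Type} (t : Finset J)
    (ε : J → ℂ) (hε : ∀ j, ε j = 1 ∨ ε j = -1) (x : J → (H →L[ℂ] H)) (hx : ∀ j, x j ∈ M) :
    (∑ j ∈ t, ε j • x j) ∈ M ∧
    f (Function.update a i (∑ j ∈ t, ε j • x j)) = ∑ j ∈ t, ε j • f (Function.update a i (x j)) := by
  classical
  induction t using Finset.induction_on with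
  | empty =>
    simp only [Finset.sum_empty]
    exact ⟨zero_mem M, sg_zero M n C f hf a ha i hi⟩
  | insert j t hj ih =>
    rw [Finset.sum_insert hj, Finset.sum_insert hj]
    refine ⟨?_, ?_⟩
    · apply add_mem _ ih.1
      rcases hε j with h | h
      · rw [h, one_smul]; exact hx j
      · rw [h, neg_one_smul]; exact neg_mem (hx j)
    · rw [hf.lin a ha i hi _ _ (hx j) ih.1, ih.2]

theorem sg_mix_update (r : ℕ) (w b : ℕ → (H →L[ℂ] H)) (x : H →L[ℂ] H) :
    mix r w (Function.update b r x) = Function.update (mix r w b) r x := by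
  funext l
  unfold mix
  by_cases h : l < r
  · rw [if_pos h, Function.update_of_ne h.ne, if_pos h]
  · by_cases h2 : l = r
    · subst h2
      rw [if_neg h, Function.update_self, Function.update_self]
    · rw [if_neg h, Function.update_of_ne h2, Function.update_of_ne h2, if_neg h]

theorem sg_mix_succ (r : ℕ) (w b : ℕ → (H →L[ℂ] H)) :
    mix r w (Function.update b r (w r)) = mix (r + 1) w b := by
  funext l
  unfold mix
  by_cases h : l < r
  · rw [if_pos h, if_pos (by omega)]
  · by_cases h2 : l = r
    · subst h2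
      rw [if_neg h, Function.update_self, if_pos (by omega)]
    · rw [if_neg h, Function.update_of_ne h2, if_neg (by omega)]

theorem sg_mix_upd2 (r : ℕ) (W b : ℕ → (H →L[ℂ] H)) (x : H →L[ℂ] H) :
    mix (r + 1) (Function.update W r x) b = mix r W (Function.update b r x) := by
  funext l
  unfold mix
  by_cases h : l < r
  · rw [if_pos (by omega), if_pos h, Function.update_of_ne h.ne]
  · by_cases h2 : l = r
    · subst h2
      rw [if_pos (by omega), if_neg h, Function.update_self, Function.update_self]
    · rw [if_neg (by omega), if_neg h, Function.update_of_ne h2]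

theorem sg_norm_proj (d : H →L[ℂ] H) (h1 : star d = d) (h2 : d * d = d) : ‖d‖ ≤ 1 := by
  have h3 : ‖star d * d‖ = ‖d‖ * ‖d‖ := CStarRing.norm_star_mul_self
  rw [h1, h2] at h3
  rcases (norm_nonneg d).eq_or_lt with h | h
  · rw [← h]; norm_num
  · have : ‖d‖ * 1 = ‖d‖ * ‖d‖ := by rw [mul_one]; exact h3
    exact (mul_left_cancel₀ h.ne' this).ge

theorem sg_mem_mix (M : VonNeumannAlgebra H) (r : ℕ) (w b : ℕ → (H →L[ℂ] H)) (hw : ∀ l, w l ∈ M)
    (hb : InM M b) : InM M (mix r w b) := by
  intro l
  unfold mix
  split_ifs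
  · exact hw l
  · exact hb l



theorem signs (M : VonNeumannAlgebra H) (n : ℕ) (C : ℝ)
    (f : (ℕ → (H →L[ℂ] H)) → (H →L[ℂ] H)) (hf : IsC M n C f)
    {J : Type} (v d : J → (H →L[ℂ] H)) (hv : ∀ j, v j ∈ M) (hd : ∀ j, CP M (d j))
    (hvd : ∀ j, star (v j) * v j = d j) (hvr : ∀ j, v j * d j = v j)
    (hdo : ∀ i j, i ≠ j → d i * d j = 0) (t : Finset J) (r : ℕ) (hr : r ≤ n)
    (w : J → ℕ → (H →L[ℂ] H)) (hw : ∀ j l, w j l ∈ M) (hwd : ∀ j l, d j * w j l = w j l)
    (c : ℕ → ℝ) (hc0 : ∀ l, 0 ≤ c l) (hc : ∀ j l, ‖w j l‖ ≤ c l)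
    (b : ℕ → (H →L[ℂ] H)) (hb : InM M b) :
    ∃ W : ℕ → (H →L[ℂ] H), (∀ l, W l ∈ M) ∧ (∀ l, (∑ j ∈ t, d j) * W l = W l) ∧
      (∀ l, ‖W l‖ ≤ c l) ∧
      ‖∑ j ∈ t, star (v j) * f (mix r (w j) b)‖ ≤ ‖(∑ j ∈ t, d j) * f (mix r W b)‖ := by
  classical
  induction r generalizing v b with
  | zero =>
    refine ⟨fun _ => 0, fun _ => zero_mem M, fun _ => mul_zero _, fun l => ?_, ?_⟩
    · rw [norm_zero]; exact hc0 l
    · have hm : ∀ w' : ℕ → (H →L[ℂ] H), mix 0 w' b = b := by
        intro w'
        funext l
        unfold mix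
        rw [if_neg (Nat.not_lt_zero l)]
      simp only [hm]
      have hsv : ∀ j, star (v j) * d j = star (v j) := by
        intro j
        rw [← (hd j).cent _ (star_mem (hv j))]
        have h1 : star (v j * d j) = star (v j) := by rw [hvr]
        rw [star_mul, (hd j).sa] at h1
        exact h1
      have hdsv : ∀ j, d j * star (v j) = star (v j) := by
        intro j
        have h1 : star (v j * d j) = star (v j) := by rw [hvr]
        rw [star_mul, (hd j).sa] at h1
        exact h1
      have hcross : ∀ i ∈ t, star (v i) * (∑ j ∈ t, d j) = star (v i) := by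
        intro i hi
        rw [Finset.mul_sum, Finset.sum_eq_single i]
        · exact hsv i
        · intro j _ hji
          rw [← hsv i, mul_assoc, hdo i j (Ne.symm hji), mul_zero]
        · intro h; exact absurd hi h
      have h1 : ∑ j ∈ t, star (v j) * f b = (∑ j ∈ t, star (v j)) * ((∑ j ∈ t, d j) * f b) := by
        rw [Finset.sum_mul]
        apply Finset.sum_congr rfl
        intro i hi
        rw [← mul_assoc, hcross i hi]
      rw [h1]
      have hn : ‖∑ j ∈ t, star (v j)‖ ≤ 1 := by
        apply blk_fin d (fun j => (hd j).sa) (fun j => (hd j).idem) hdo (fun j => star (v j)) hdsv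
          hsv 1 (by norm_num)
        intro j
        rw [norm_star]
        have h2 : ‖star (v j) * v j‖ = ‖v j‖ * ‖v j‖ := CStarRing.norm_star_mul_self
        rw [hvd] at h2
        have h3 := sg_norm_proj (d j) (hd j).sa (hd j).idem
        nlinarith [norm_nonneg (v j)]
      calc ‖(∑ j ∈ t, star (v j)) * ((∑ j ∈ t, d j) * f b)‖
          ≤ ‖∑ j ∈ t, star (v j)‖ * ‖(∑ j ∈ t, d j) * f b‖ := norm_mul_le _ _
        _ ≤ 1 * ‖(∑ j ∈ t, d j) * f b‖ := mul_le_mul_of_nonneg_right hn (norm_nonneg _)
        _ = _ := one_mul _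
  | succ r ih =>
    have hrn : r < n := hr
    obtain ⟨ε, hε, hle⟩ := avg_two
      (fun j j' => star (v j) * f (mix r (w j) (Function.update b r (w j' r)))) t
    set Wr := ∑ j ∈ t, ε j • w j r with hWr
    have hWrM : Wr ∈ M := (sg_sum M n C f hf b hb r hrn t ε hε (fun j => w j r) (fun j => hw j r)).1
    have hb' : InM M (Function.update b r Wr) := by
      intro l
      by_cases h : l = r
      · subst h; rw [Function.update_self]; exact hWrM
      · rw [Function.update_of_ne h]; exact hb l
    have hε2 : ∀ j, ε j * ε j = 1 := by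
      intro j
      rcases hε j with h | h <;> rw [h] <;> norm_num
    have hεs : ∀ j, star (ε j) = ε j := by
      intro j
      rcases hε j with h | h <;> rw [h] <;> simp
    have hεM : ∀ (j : J) (x : H →L[ℂ] H), x ∈ M → ε j • x ∈ M := by
      intro j x hx
      rcases hε j with h | h
      · rw [h, one_smul]; exact hx
      · rw [h, neg_one_smul]; exact neg_mem hx
    have hεn : ∀ j, ‖ε j‖ = 1 := by
      intro j
      rcases hε j with h | h <;> rw [h] <;> simp
    obtain ⟨W', hW1, hW2, hW3, hW4⟩ := ih (fun j => ε j • v j) (fun j => hεM j _ (hv j))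
      (fun j => by
        show star (ε j • v j) * (ε j • v j) = d j
        rw [star_smul, hεs, smul_mul_smul_comm, hε2, one_smul, hvd])
      (fun j => by
        show (ε j • v j) * d j = ε j • v j
        rw [smul_mul_assoc, hvr]) (by omega) (Function.update b r Wr) hb'
    refine ⟨Function.update W' r Wr, ?_, ?_, ?_, ?_⟩
    · intro l
      by_cases h : l = r
      · subst h; rw [Function.update_self]; exact hWrM
      · rw [Function.update_of_ne h]; exact hW1 l
    · intro l
      by_cases h : l = r
      · subst h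
        rw [Function.update_self, hWr, Finset.mul_sum]
        apply Finset.sum_congr rfl
        intro j hj
        rw [mul_smul_comm]
        congr 1
        rw [Finset.sum_mul, Finset.sum_eq_single j]
        · exact hwd j l
        · intro i _ hij
          rw [← hwd j l, ← mul_assoc, hdo i j hij, zero_mul]
        · intro h; exact absurd hj h
      · rw [Function.update_of_ne h]; exact hW2 l
    · intro l
      by_cases h : l = r
      · subst h
        rw [Function.update_self, hWr]
        apply blk_fin d (fun j => (hd j).sa) (fun j => (hd j).idem) hdo (fun j => ε j • w j l)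
          (fun j => by
            show d j * (ε j • w j l) = ε j • w j l
            rw [mul_smul_comm, hwd])
          (fun j => by
            show (ε j • w j l) * d j = ε j • w j l
            rw [smul_mul_assoc, ← (hd j).cent _ (hw j l), hwd]) (c l) (hc0 l)
          (fun j => by
            show ‖ε j • w j l‖ ≤ c l
            rw [norm_smul, hεn, one_mul]
            exact hc j l)
      · rw [Function.update_of_ne h]; exact hW3 l
    · rw [sg_mix_upd2]
      refine le_trans ?_ hW4
      have e1 : ∑ j ∈ t, star (v j) * f (mix (r + 1) (w j) b) =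
          ∑ j ∈ t, star (v j) * f (mix r (w j) (Function.update b r (w j r))) := by
        apply Finset.sum_congr rfl
        intro j _
        rw [sg_mix_succ]
      have e2 : ∑ j ∈ t, star (ε j • v j) * f (mix r (w j) (Function.update b r Wr)) =
          ∑ i ∈ t, ∑ j ∈ t, (ε i * ε j) •
            (star (v i) * f (mix r (w i) (Function.update b r (w j r)))) := by
        apply Finset.sum_congr rfl
        intro i _
        have hm := sg_mem_mix M r (w i) b (hw i) hb
        rw [sg_mix_update, hWr, (sg_sum M n C f hf _ hm r hrn t ε hε (fun j => w j r)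
          (fun j => hw j r)).2, star_smul, hεs, smul_mul_assoc, Finset.mul_sum, Finset.smul_sum]
        apply Finset.sum_congr rfl
        intro j _
        rw [sg_mix_update, mul_smul_comm, smul_smul]
      rw [e1, e2]
      exact hle

end Pool.Agent.Helper5.CI
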