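import Mathlib
import Pool.Agent.Helper5.Ci.Defs
import Pool.Agent.Helper5.Ci.Gl
import Pool.Agent.Helper5.Ci.Signs
import Pool.Agent.Helper5.Ci.BlkFin

set_option autoImplicit false
open Filter Topology

namespace Pool.Agent.Helper5.CI

variable {H : Type} [NormedAddCommGroup H] [InnerProductSpace ℂ H] [CompleteSpace H]

theorem summ_norm_d {d : H →L[ℂ] H} (hs : star d = d) (hi : d * d = d) : ‖d‖ ≤ 1 := by
  have h : ‖star d * d‖ = ‖d‖ * ‖d‖ := CStarRing.norm_star_mul_self
  rw [hs, hi] at h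
  by_contra hcon
  push Not at hcon
  have : ‖d‖ < ‖d‖ * ‖d‖ := by nlinarith
  linarith

theorem summ_inM (M : VonNeumannAlgebra H) (r : ℕ) (w b : ℕ → (H →L[ℂ] H))
    (hw : ∀ l, w l ∈ M) (hb : InM M b) : InM M (mix r w b) := by
  intro i
  unfold mix
  split_ifs
  · exact hw i
  · exact hb i

theorem summ_sum_sa {J : Type} (M : VonNeumannAlgebra H) (d : J → (H →L[ℂ] H))
    (hd : ∀ j, CP M (d j)) (t : Finset J) : star (∑ j ∈ t, d j) = ∑ j ∈ t, d j := by
  rw [star_sum]
  exact Finset.sum_congr rfl (fun j _ => (hd j).sa)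

theorem summ_sum_idem {J : Type} (M : VonNeumannAlgebra H) (d : J → (H →L[ℂ] H))
    (hd : ∀ j, CP M (d j)) (hdo : ∀ i j, i ≠ j → d i * d j = 0) (t : Finset J) :
    (∑ j ∈ t, d j) * (∑ j ∈ t, d j) = ∑ j ∈ t, d j := by
  classical
  rw [Finset.sum_mul]
  refine Finset.sum_congr rfl (fun i hi => ?_)
  rw [Finset.mul_sum, Finset.sum_eq_single i]
  · exact (hd i).idem
  · intro j _ hj
    exact hdo i j (Ne.symm hj)
  · intro h
    exact absurd hi h

theorem summ_sum_orth {J : Type} (d : J → (H →L[ℂ] H))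
    (hdo : ∀ i j, i ≠ j → d i * d j = 0) (s t : Finset J) (hst : Disjoint s t) :
    (∑ j ∈ s, d j) * (∑ j ∈ t, d j) = 0 := by
  classical
  rw [Finset.sum_mul]
  refine Finset.sum_eq_zero (fun i hi => ?_)
  rw [Finset.mul_sum]
  refine Finset.sum_eq_zero (fun j hj => ?_)
  refine hdo i j ?_
  intro h
  subst h
  exact (Finset.disjoint_left.mp hst) hi hj

theorem summ_sum_cent {J : Type} (M : VonNeumannAlgebra H) (d : J → (H →L[ℂ] H))
    (hd : ∀ j, CP M (d j)) (t : Finset J) (x : H →L[ℂ] H) (hx : x ∈ M) :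
    (∑ j ∈ t, d j) * x = x * (∑ j ∈ t, d j) := by
  rw [Finset.sum_mul, Finset.mul_sum]
  exact Finset.sum_congr rfl (fun j _ => (hd j).cent x hx)

theorem summ_fin (M : VonNeumannAlgebra H) (n : ℕ) (C : ℝ)
    (f : (ℕ → (H →L[ℂ] H)) → (H →L[ℂ] H)) (hf : IsC M n C f) (hC : 0 ≤ C)
    {J : Type} (v d : J → (H →L[ℂ] H)) (hv : ∀ j, v j ∈ M) (hd : ∀ j, CP M (d j))
    (hvd : ∀ j, star (v j) * v j = d j) (hvr : ∀ j, v j * d j = v j)
    (hdo : ∀ i j, i ≠ j → d i * d j = 0) (r : ℕ) (hr : r ≤ n)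
    (w : J → ℕ → (H →L[ℂ] H)) (hw : ∀ j l, w j l ∈ M) (hwd : ∀ j l, d j * w j l = w j l)
    (c : ℕ → ℝ) (hc0 : ∀ l, 0 ≤ c l) (hc : ∀ j l, ‖w j l‖ ≤ c l)
    (b : ℕ → (H →L[ℂ] H)) (hb : InM M b) (t : Finset J) :
    ‖∑ j ∈ t, star (v j) * f (mix r (w j) b)‖ ≤
        C * ∏ l ∈ Finset.range n, (if l < r then c l else ‖b l‖) := by
  obtain ⟨W, hW1, hW2, hW3, hW4⟩ := signs M n C f hf v d hv hd hvd hvr hdo t r hr w hw hwd c hc0
    hc b hb
  have hE : ‖∑ j ∈ t, d j‖ ≤ 1 := by
    refine blk_fin d (fun j => (hd j).sa) (fun j => (hd j).idem) hdo d (fun j => (hd j).idem)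
      (fun j => (hd j).idem) 1 zero_le_one (fun j => summ_norm_d (hd j).sa (hd j).idem) t
  have hB := hf.bd (mix r W b) (summ_inM M r W b hW1 hb)
  have hP : ∏ i ∈ Finset.range n, ‖mix r W b i‖ ≤
      ∏ l ∈ Finset.range n, (if l < r then c l else ‖b l‖) := by
    refine Finset.prod_le_prod (fun i _ => norm_nonneg _) (fun i _ => ?_)
    unfold mix
    split_ifs
    · exact hW3 i
    · exact le_refl _
  calc ‖∑ j ∈ t, star (v j) * f (mix r (w j) b)‖ ≤ ‖(∑ j ∈ t, d j) * f (mix r W b)‖ := hW4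
    _ ≤ ‖∑ j ∈ t, d j‖ * ‖f (mix r W b)‖ := norm_mul_le _ _
    _ ≤ 1 * ‖f (mix r W b)‖ := mul_le_mul_of_nonneg_right hE (norm_nonneg _)
    _ = ‖f (mix r W b)‖ := one_mul _
    _ ≤ C * ∏ i ∈ Finset.range n, ‖mix r W b i‖ := hB
    _ ≤ _ := mul_le_mul_of_nonneg_left hP hC



theorem summ (M : VonNeumannAlgebra H) (n : ℕ) (C : ℝ)
    (f : (ℕ → (H →L[ℂ] H)) → (H →L[ℂ] H)) (hf : IsC M n C f) (hC : 0 ≤ C)
    {J : Type} (v d : J → (H →L[ℂ] H)) (hv : ∀ j, v j ∈ M) (hd : ∀ j, CP M (d j))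
    (hvd : ∀ j, star (v j) * v j = d j) (hvr : ∀ j, v j * d j = v j)
    (hdo : ∀ i j, i ≠ j → d i * d j = 0) (r : ℕ) (hr : r ≤ n)
    (w : J → ℕ → (H →L[ℂ] H)) (hw : ∀ j l, w j l ∈ M) (hwd : ∀ j l, d j * w j l = w j l)
    (c : ℕ → ℝ) (hc0 : ∀ l, 0 ≤ c l) (hc : ∀ j l, ‖w j l‖ ≤ c l)
    (b : ℕ → (H →L[ℂ] H)) (hb : InM M b) :
    Summable (fun j => star (v j) * f (mix r (w j) b)) ∧
      ‖∑' j, star (v j) * f (mix r (w j) b)‖ ≤
        C * ∏ l ∈ Finset.range n, (if l < r then c l else ‖b l‖) := by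
  classical
  have hfin := summ_fin M n C f hf hC v d hv hd hvd hvr hdo r hr w hw hwd c hc0 hc b hb
  have hS : Summable (fun j => star (v j) * f (mix r (w j) b)) := by
    rw [summable_iff_vanishing_norm]
    by_contra hcon
    push Not at hcon
    obtain ⟨ε, hε, hT⟩ := hcon
    choose T hT1 hT2 using hT
    let acc : ℕ → Finset J := fun k => Nat.rec ∅ (fun _ s => s ∪ T s) k
    have hacc : ∀ k, acc (k + 1) = acc k ∪ T (acc k) := fun k => rfl
    have hmono : ∀ k l, k ≤ l → acc k ⊆ acc l := by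
      intro k l hkl
      induction l, hkl using Nat.le_induction with
      | base => exact subset_rfl
      | succ m _ ih =>
        rw [hacc m]
        exact ih.trans Finset.subset_union_left
    have hsub : ∀ k l, k < l → T (acc k) ⊆ acc l := by
      intro k l hkl
      have h1 : T (acc k) ⊆ acc (k + 1) := by
        rw [hacc k]
        exact Finset.subset_union_right
      exact h1.trans (hmono _ _ hkl)
    have hdisj : ∀ k l, k ≠ l → Disjoint (T (acc k)) (T (acc l)) := by
      intro k l hkl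
      rcases lt_or_gt_of_ne hkl with h | h
      · exact (Finset.disjoint_of_subset_right (hsub k l h) (hT1 (acc l))).symm
      · exact Finset.disjoint_of_subset_right (hsub l k h) (hT1 (acc k))
    have hsg := fun k => signs M n C f hf v d hv hd hvd hvr hdo (T (acc k)) r hr w hw hwd c hc0
      hc b hb
    choose W hW1 hW2 hW3 hW4 using hsg
    let W' : ℕ → ℕ → (H →L[ℂ] H) := fun k l => if l < r then W k l else 0
    have hmix : ∀ k, mix r (W' k) b = mix r (W k) b := by
      intro k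
      funext l
      unfold mix
      by_cases hl : l < r
      · simp [W', hl]
      · simp [hl]
    have hlim := gl M n C f hf (fun k => ∑ j ∈ T (acc k), d j)
      (fun k => summ_sum_sa M d hd _) (fun k => summ_sum_idem M d hd hdo _)
      (fun k l hkl => summ_sum_orth d hdo _ _ (hdisj k l hkl)) W'
      (by
        intro k l
        by_cases hl : l < r
        · simpa [W', hl] using hW1 k l
        · simpa [W', hl] using zero_mem M)
      (by
        intro k l
        by_cases hl : l < r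
        · simpa [W', hl] using hW2 k l
        · simp [W', hl])
      (by
        intro k l
        by_cases hl : l < r
        · have h := summ_sum_cent M d hd (T (acc k)) (W k l) (hW1 k l)
          have h2 := hW2 k l
          rw [h] at h2
          simpa [W', hl] using h2
        · simp [W', hl])
      (∑ l ∈ Finset.range r, c l)
      (by
        intro k l
        by_cases hl : l < r
        · have h1 : c l ≤ ∑ l ∈ Finset.range r, c l :=
            Finset.single_le_sum (fun i _ => hc0 i) (Finset.mem_range.mpr hl)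
          have h2 : ‖W' k l‖ = ‖W k l‖ := by simp [W', hl]
          rw [h2]
          exact (hW3 k l).trans h1
        · have h2 : ‖W' k l‖ = 0 := by simp [W', hl]
          rw [h2]
          exact Finset.sum_nonneg (fun i _ => hc0 i))
      b hb r hr
    have hge : ∀ k, ε ≤ ‖(∑ j ∈ T (acc k), d j) * f (mix r (W' k) b)‖ := by
      intro k
      rw [hmix k]
      exact (hT2 (acc k)).trans (hW4 k)
    have := ge_of_tendsto hlim (Filter.Eventually.of_forall hge)
    linarith
  refine ⟨hS, ?_⟩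
  have h1 : Tendsto (fun s : Finset J => ∑ j ∈ s, star (v j) * f (mix r (w j) b)) atTop
      (𝓝 (∑' j, star (v j) * f (mix r (w j) b))) := by
    simpa [HasSum] using hS.hasSum
  exact le_of_tendsto h1.norm (Filter.Eventually.of_forall hfin)

end Pool.Agent.Helper5.CI
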