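import Mathlib
import Pool.Agent.Helper5.Ci.Defs
import Pool.Agent.Helper5.Ci.Hom
import Pool.Agent.Helper5.Ci.Summ

set_option autoImplicit false
open Filter Topology

namespace Pool.Agent.Helper5.CI

variable {H : Type} [NormedAddCommGroup H] [InnerProductSpace ℂ H] [CompleteSpace H]

theorem fam_norm_d {M : VonNeumannAlgebra H} {d : H →L[ℂ] H} (hd : CP M d) : ‖d‖ ≤ 1 := by
  have h : ‖star d * d‖ = ‖d‖ * ‖d‖ := CStarRing.norm_star_mul_self
  rw [hd.sa, hd.idem] at h
  by_contra hcon
  push Not at hcon
  nlinarith

theorem fam_norm_v {M : VonNeumannAlgebra H} {v d : H →L[ℂ] H} (hd : CP M d)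
    (hvd : star v * v = d) : ‖v‖ ≤ 1 := by
  have h : ‖star v * v‖ = ‖v‖ * ‖v‖ := CStarRing.norm_star_mul_self
  rw [hvd] at h
  have h2 := fam_norm_d hd
  by_contra hcon
  push Not at hcon
  nlinarith

theorem fam_prod (u : ℕ → ℝ) (m i : ℕ) (hi : i ≤ m) :
    ∏ l ∈ Finset.range (m + 1), (if l < i + 1 then (if l < i then u l else 1) else u (l - 1)) =
      ∏ l ∈ Finset.range m, u l := by
  induction m with
  | zero =>
    have : i = 0 := by omega
    subst this
    simp
  | succ m ih =>
    rcases Nat.lt_or_ge i (m + 1) with h | h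
    · rw [Finset.prod_range_succ, ih (by omega), Finset.prod_range_succ _ m]
      congr 1
      rw [if_neg (by omega)]
      rfl
    · have hi' : i = m + 1 := by omega
      subst hi'
      rw [Finset.prod_range_succ, if_pos (by omega), if_neg (by omega), mul_one]
      refine Finset.prod_congr rfl fun l hl => ?_
      rw [Finset.mem_range] at hl
      rw [if_pos (by omega), if_pos (by omega)]

theorem fam_ins (M : VonNeumannAlgebra H) (m : ℕ) (C : ℝ)
    (f : (ℕ → (H →L[ℂ] H)) → (H →L[ℂ] H)) (hC : 0 ≤ C) (hf : IsC M (m + 1) C f)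
    {J : Type} (v d : J → (H →L[ℂ] H)) (hv : ∀ j, v j ∈ M) (hd : ∀ j, CP M (d j))
    (hvd : ∀ j, star (v j) * v j = d j) (hvr : ∀ j, v j * d j = v j)
    (hdo : ∀ i j, i ≠ j → d i * d j = 0) (i : ℕ) (hi : i ≤ m) (b : ℕ → (H →L[ℂ] H))
    (hb : InM M b) :
    Summable (fun j => star (v j) * f (ins i (v j) b)) ∧
      ‖∑' j, star (v j) * f (ins i (v j) b)‖ ≤ C * ∏ l ∈ Finset.range m, ‖b l‖ := by
  have hmix : ∀ j, ins i (v j) b = mix (i + 1)
      (fun l => if l < i then v j * b l * star (v j) else if l = i then v j else 0)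
      (fun l => b (l - 1)) := by
    intro j
    funext l
    unfold ins mix
    by_cases h1 : l < i
    · rw [if_pos h1, if_pos (by omega)]
      exact (if_pos h1).symm
    · by_cases h2 : l = i
      · rw [if_neg h1, if_pos h2, if_pos (by omega)]
        show v j = (if l < i then v j * b l * star (v j) else if l = i then v j else 0)
        rw [if_neg h1, if_pos h2]
      · rw [if_neg h1, if_neg h2, if_neg (by omega)]
  have hdv : ∀ j, d j * v j = v j := fun j => by rw [(hd j).cent _ (hv j), hvr j]
  have hnv : ∀ j, ‖v j‖ ≤ 1 := fun j => fam_norm_v (hd j) (hvd j)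
  have h := summ M (m + 1) C f hf hC v d hv hd hvd hvr hdo (i + 1) (by omega)
    (fun j l => if l < i then v j * b l * star (v j) else if l = i then v j else 0)
    (by
      intro j l
      show (if l < i then v j * b l * star (v j) else if l = i then v j else 0) ∈ M
      split_ifs
      · exact mul_mem (mul_mem (hv j) (hb l)) (star_mem (hv j))
      · exact hv j
      · exact zero_mem M)
    (by
      intro j l
      show d j * (if l < i then v j * b l * star (v j) else if l = i then v j else 0) =
        (if l < i then v j * b l * star (v j) else if l = i then v j else 0)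
      split_ifs
      · rw [← mul_assoc, ← mul_assoc, hdv]
      · exact hdv j
      · exact mul_zero _)
    (fun l => if l < i then ‖b l‖ else 1)
    (by
      intro l
      show 0 ≤ (if l < i then ‖b l‖ else 1)
      split_ifs
      · exact norm_nonneg _
      · exact zero_le_one)
    (by
      intro j l
      show ‖(if l < i then v j * b l * star (v j) else if l = i then v j else 0)‖ ≤
        (if l < i then ‖b l‖ else 1)
      split_ifs
      · calc ‖v j * b l * star (v j)‖ ≤ ‖v j * b l‖ * ‖star (v j)‖ := norm_mul_le _ _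
          _ ≤ (‖v j‖ * ‖b l‖) * ‖star (v j)‖ := by gcongr; exact norm_mul_le _ _
          _ ≤ (1 * ‖b l‖) * 1 := by
            rw [norm_star]
            have := hnv j
            gcongr
          _ = ‖b l‖ := by ring
      · exact hnv j
      · rw [norm_zero]; exact zero_le_one)
    (fun l => b (l - 1)) (fun l => hb _)
  simp only [← hmix] at h
  refine ⟨h.1, h.2.trans (le_of_eq ?_)⟩
  congr 1
  exact fam_prod (fun l => ‖b l‖) m i hi

theorem fam_update (m : ℕ) (i k : ℕ) (v z : H →L[ℂ] H) (a : ℕ → (H →L[ℂ] H)) :
    ins i v (Function.update a k z) = Function.update (ins i v a) (if k < i then k else k + 1)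
      (if k < i then v * z * star v else z) := by
  funext l
  by_cases hk : k < i
  · rw [if_pos hk, if_pos hk]
    by_cases hl : l = k
    · subst hl
      rw [Function.update_self]
      unfold ins
      rw [if_pos hk, Function.update_self]
    · rw [Function.update_of_ne hl]
      unfold ins
      rw [Function.update_of_ne hl]
      split_ifs with h1 h2
      · rfl
      · rfl
      · rw [Function.update_of_ne (by omega)]
  · rw [if_neg hk, if_neg hk]
    by_cases hl : l = k + 1
    · subst hl
      rw [Function.update_self]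
      unfold ins
      rw [if_neg (by omega), if_neg (by omega), Nat.add_sub_cancel, Function.update_self]
    · rw [Function.update_of_ne hl]
      unfold ins
      split_ifs with h1 h2
      · rw [Function.update_of_ne (by omega)]
      · rfl
      · rw [Function.update_of_ne (by omega)]

theorem ins_inM {M : VonNeumannAlgebra H} {v : H →L[ℂ] H} (hv : v ∈ M) (i : ℕ)
    {a : ℕ → (H →L[ℂ] H)} (ha : InM M a) : InM M (ins i v a) := by
  intro l
  unfold ins
  split_ifs
  · exact mul_mem (mul_mem hv (ha l)) (star_mem hv)
  · exact hv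
  · exact ha _

theorem upd_inM {M : VonNeumannAlgebra H} {x : H →L[ℂ] H} (hx : x ∈ M) (i : ℕ)
    {a : ℕ → (H →L[ℂ] H)} (ha : InM M a) : InM M (Function.update a i x) := by
  intro l
  by_cases hl : l = i
  · subst hl; rw [Function.update_self]; exact hx
  · rw [Function.update_of_ne hl]; exact ha l

theorem fam_lin1 (M : VonNeumannAlgebra H) (m : ℕ) (C : ℝ)
    (f : (ℕ → (H →L[ℂ] H)) → (H →L[ℂ] H)) (hf : IsC M (m + 1) C f)
    (v : H →L[ℂ] H) (hv : v ∈ M) (i : ℕ) (a : ℕ → (H →L[ℂ] H)) (ha : InM M a) (k : ℕ)
    (hk : k < m) (x y : H →L[ℂ] H) (hx : x ∈ M) (hy : y ∈ M) (c : ℂ) :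
    star v * f (ins i v (Function.update a k (c • x + y))) =
      c • (star v * f (ins i v (Function.update a k x))) +
        star v * f (ins i v (Function.update a k y)) := by
  rw [fam_update m, fam_update m, fam_update m]
  have hlt : (if k < i then k else k + 1) < m + 1 := by split_ifs <;> omega
  have e : (if k < i then v * (c • x + y) * star v else c • x + y) =
      c • (if k < i then v * x * star v else x) + (if k < i then v * y * star v else y) := by
    split_ifs
    · rw [mul_add, add_mul, mul_smul_comm, smul_mul_assoc]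
    · rfl
  rw [e, hf.lin _ (ins_inM hv i ha) _ hlt _ _ ?_ ?_ c, mul_add, mul_smul_comm]
  · split_ifs
    · exact mul_mem (mul_mem hv hx) (star_mem hv)
    · exact hx
  · split_ifs
    · exact mul_mem (mul_mem hv hy) (star_mem hv)
    · exact hy

theorem fam (M : VonNeumannAlgebra H) (m : ℕ) (C : ℝ)
    (f : (ℕ → (H →L[ℂ] H)) → (H →L[ℂ] H)) (hC : 0 ≤ C) (hf : IsC M (m + 1) C f)
    (hz : IsZ M (m + 1) f)
    {J : Type} (v d : J → (H →L[ℂ] H)) (hv : ∀ j, v j ∈ M) (hd : ∀ j, CP M (d j))
    (hvd : ∀ j, star (v j) * v j = d j) (hvr : ∀ j, v j * d j = v j)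
    (hdo : ∀ i j, i ≠ j → d i * d j = 0) (hsum : ∀ ξ : H, HasSum (fun j => d j ξ) ξ) :
    ∃ g : (ℕ → (H →L[ℂ] H)) → (H →L[ℂ] H), IsC M m ((m + 1) * C) g ∧
      ∀ a, InM M a →
        HasSum (fun j => star (v j) * f (conj (v j) a) * v j) (f a - dd m g a) := by
  have hins := fam_ins M m C f hC hf v d hv hd hvd hvr hdo
  set S : ℕ → (ℕ → (H →L[ℂ] H)) → (H →L[ℂ] H) := fun i b =>
    ∑' j, star (v j) * f (ins i (v j) b) with hS
  set g : (ℕ → (H →L[ℂ] H)) → (H →L[ℂ] H) := fun b =>
    ∑ i ∈ Finset.range (m + 1), ((-1 : ℂ) ^ i) • S i b with hg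
  refine ⟨g, ⟨?_, ?_, ?_, ?_⟩, ?_⟩
  · -- dep
    intro a b hab
    have h1 : ∀ i ∈ Finset.range (m + 1), ((-1 : ℂ) ^ i) • S i a = ((-1 : ℂ) ^ i) • S i b := by
      intro i hi
      rw [Finset.mem_range] at hi
      have h2 : S i a = S i b := by
        rw [hS]
        refine tsum_congr fun j => ?_
        congr 1
        refine hf.dep _ _ fun l hl => ?_
        unfold ins
        split_ifs with h3 h4
        · rw [hab l (by omega)]
        · rfl
        · rw [hab (l - 1) (by omega)]
      rw [h2]
    exact Finset.sum_congr rfl h1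
  · -- lin
    intro a ha k hk x y hx hy c
    have h1 : ∀ i ∈ Finset.range (m + 1),
        ((-1 : ℂ) ^ i) • S i (Function.update a k (c • x + y)) =
          c • (((-1 : ℂ) ^ i) • S i (Function.update a k x)) +
            ((-1 : ℂ) ^ i) • S i (Function.update a k y) := by
      intro i hi
      rw [Finset.mem_range] at hi
      have hsx := (hins i (by omega) _ (upd_inM hx k ha)).1
      have hsy := (hins i (by omega) _ (upd_inM hy k ha)).1
      have h2 : S i (Function.update a k (c • x + y)) =
          c • S i (Function.update a k x) + S i (Function.update a k y) := by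
        have h3 := ((hsx.hasSum.const_smul c).add hsy.hasSum).tsum_eq
        rw [hS]
        refine Eq.trans (tsum_congr fun j => ?_) h3
        exact fam_lin1 M m C f hf (v j) (hv j) i a ha k hk x y hx hy c
      rw [h2, smul_add, smul_comm]
    show ∑ i ∈ Finset.range (m + 1), ((-1 : ℂ) ^ i) • S i (Function.update a k (c • x + y)) =
      c • (∑ i ∈ Finset.range (m + 1), ((-1 : ℂ) ^ i) • S i (Function.update a k x)) +
        ∑ i ∈ Finset.range (m + 1), ((-1 : ℂ) ^ i) • S i (Function.update a k y)
    rw [Finset.sum_congr rfl h1, Finset.sum_add_distrib, Finset.smul_sum]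
  · -- bd
    intro a ha
    calc ‖g a‖ ≤ ∑ i ∈ Finset.range (m + 1), ‖((-1 : ℂ) ^ i) • S i a‖ := norm_sum_le _ _
      _ ≤ ∑ _i ∈ Finset.range (m + 1), C * ∏ l ∈ Finset.range m, ‖a l‖ := by
        refine Finset.sum_le_sum fun i hi => ?_
        rw [Finset.mem_range] at hi
        rw [norm_smul, norm_pow, norm_neg, norm_one, one_pow, one_mul]
        exact (hins i (by omega) a ha).2
      _ = (m + 1) * C * ∏ l ∈ Finset.range m, ‖a l‖ := by
        rw [Finset.sum_const, Finset.card_range, nsmul_eq_mul]
        push_cast
        ring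
  · -- cpt
    intro a ha
    have h1 : ∀ i ∈ Finset.range (m + 1),
        ((-1 : ℂ) ^ i) • S i a ∈ compactOperator (RingHom.id ℂ) H H := by
      intro i hi
      rw [Finset.mem_range] at hi
      refine Submodule.smul_mem _ _ ?_
      have hs := (hins i (by omega) a ha).1.hasSum
      refine isCompactOperator_of_tendsto hs (Filter.Eventually.of_forall fun s => ?_)
      refine Submodule.sum_mem (compactOperator (RingHom.id ℂ) H H) fun j _ => ?_
      exact (hf.cpt _ (ins_inM (hv j) i ha)).clm_comp (star (v j))
    exact Submodule.sum_mem (compactOperator (RingHom.id ℂ) H H) h1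
  · -- the sum
    intro a ha
    set gj : J → (ℕ → (H →L[ℂ] H)) → (H →L[ℂ] H) := fun j b =>
      ∑ i ∈ Finset.range (m + 1), ((-1 : ℂ) ^ i) • (star (v j) * f (ins i (v j) b)) with hgj
    have hhom : ∀ j, star (v j) * f (conj (v j) a) * v j = d j * f a - dd m (gj j) a := by
      intro j
      have h := hom m M f hf.dep hz (v j) (hv j) (by rw [hvd, hvr])
        (fun x hx => by rw [hvd]; exact (hd j).cent x hx) a ha
      rw [hvd] at h
      exact eq_sub_of_add_eq h.symm
    have hgs : ∀ b, InM M b → HasSum (fun j => gj j b) (g b) := by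
      intro b hb
      refine hasSum_sum fun i hi => ?_
      rw [Finset.mem_range] at hi
      exact (hins i (by omega) b hb).1.hasSum.const_smul _
    have hdf : HasSum (fun j => d j * f a) (f a) := by
      have h := (summ M (m + 1) C f hf hC d d (fun j => (hd j).mem) hd
        (fun j => by rw [(hd j).sa, (hd j).idem]) (fun j => (hd j).idem) hdo 0 (by omega)
        (fun _ _ => 0) (fun _ _ => zero_mem M) (fun _ _ => mul_zero _) (fun _ => 0)
        (fun _ => le_rfl) (fun _ _ => by rw [norm_zero]) a ha).1
      have e1 : mix 0 (fun _ => (0 : H →L[ℂ] H)) a = a := by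
        funext l
        unfold mix
        rw [if_neg (by omega)]
      have h2 : Summable (fun j => d j * f a) := by
        refine h.congr fun j => ?_
        rw [e1, (hd j).sa]
      have h3 : ∑' j, d j * f a = f a := by
        ext ξ
        have h4 := h2.hasSum.mapL ((ContinuousLinearMap.apply ℂ H ξ))
        exact h4.unique (hsum (f a ξ))
      have h5 := h2.hasSum
      rw [h3] at h5
      exact h5
    have hshift : InM M (fun k => a (k + 1)) := fun k => ha _
    have hmul : ∀ i, InM M (mulAt i a) := by
      intro i l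
      unfold mulAt
      split_ifs
      · exact ha _
      · exact mul_mem (ha _) (ha _)
      · exact ha _
    have hdd : HasSum (fun j => dd m (gj j) a) (dd m g a) := by
      unfold dd
      refine HasSum.add (HasSum.add ((hgs _ hshift).mul_left (a 0)) (hasSum_sum fun i _ => ?_)) ?_
      · exact (hgs _ (hmul i)).const_smul _
      · exact ((hgs _ ha).mul_right (a m)).const_smul _
    have hfin := hdf.sub hdd
    have e : (fun j => star (v j) * f (conj (v j) a) * v j) =
        fun j => d j * f a - dd m (gj j) a := funext hhom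
    rw [e]
    exact hfin

end Pool.Agent.Helper5.CI
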