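import Mathlib
import Pool.Agent.Helper5.Ci.Defs
import Pool.Agent.Helper5.Ci.SmallOfSeq

set_option autoImplicit false
open Filter Topology

namespace Pool.Agent.Helper5.CI

variable {H : Type} [NormedAddCommGroup H] [InnerProductSpace ℂ H] [CompleteSpace H]

theorem finite_big (M : VonNeumannAlgebra H) (n : ℕ) (C c : ℝ)
    (f : (ℕ → (H →L[ℂ] H)) → (H →L[ℂ] H)) (hf : IsC M n C f) (hc0 : 0 < c)
    {J : Type} (d : J → (H →L[ℂ] H)) (hd : ∀ j, CP M (d j))
    (hdo : ∀ i j, i ≠ j → d i * d j = 0) :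
    {j | ¬ Small M n f c (d j)}.Finite := by
  by_contra hinf
  have hinf' : {j | ¬ Small M n f c (d j)}.Infinite := hinf
  let e := hinf'.natEmbedding
  obtain ⟨k, hk⟩ := small_of_seq M n C c f hf hc0 (fun k => d (e k)) (fun k => (hd _).mem)
    (fun k => by rw [(hd (e k)).sa, (hd (e k)).idem, (hd (e k)).idem])
    (fun k l hkl => by
      rw [(hd (e k)).sa]
      refine hdo _ _ fun h => hkl ?_
      exact e.injective (Subtype.ext h))
  exact (e k).2 hk

end Pool.Agent.Helper5.CI
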