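import Mathlib
import Pool.Agent.Helper5.Ci.Defs

set_option autoImplicit false
open Filter Topology

namespace Pool.Agent.Helper5.CI

variable {H : Type} [NormedAddCommGroup H] [InnerProductSpace ℂ H] [CompleteSpace H]

theorem iter_summable (M : VonNeumannAlgebra H) (m : ℕ) (K C : ℝ)
    (gs : ℕ → (ℕ → (H →L[ℂ] H)) → (H →L[ℂ] H))
    (hg : ∀ k, IsC M m (K * (C / 2 ^ k)) (gs k)) (a : ℕ → (H →L[ℂ] H)) (ha : InM M a) :
    Summable (fun k => gs k a) ∧
      ‖∑' k, gs k a‖ ≤ 2 * K * C * ∏ i ∈ Finset.range m, ‖a i‖ := by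
  have h1 : HasSum (fun k : ℕ => K * (C / 2 ^ k) * ∏ i ∈ Finset.range m, ‖a i‖)
      (2 * K * C * ∏ i ∈ Finset.range m, ‖a i‖) := by
    have h2 := (hasSum_geometric_two).mul_left (K * C * ∏ i ∈ Finset.range m, ‖a i‖)
    have e1 : (fun k : ℕ => K * (C / 2 ^ k) * ∏ i ∈ Finset.range m, ‖a i‖) =
        fun k : ℕ => (K * C * ∏ i ∈ Finset.range m, ‖a i‖) * (1 / 2) ^ k := by
      funext k
      rw [div_pow, one_pow]
      ring
    have e2 : 2 * K * C * ∏ i ∈ Finset.range m, ‖a i‖ =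
        (K * C * ∏ i ∈ Finset.range m, ‖a i‖) * 2 := by ring
    rw [e1, e2]
    exact h2
  exact ⟨Summable.of_norm_bounded h1.summable fun k => (hg k).bd a ha,
    tsum_of_norm_bounded h1 fun k => (hg k).bd a ha⟩

theorem iter_compact (s : ℕ → (H →L[ℂ] H)) (h : ∀ k, IsCompactOperator (s k)) (n : ℕ) :
    IsCompactOperator (∑ k ∈ Finset.range n, s k : H →L[ℂ] H) := by
  induction n with
  | zero =>
    rw [Finset.sum_range_zero]
    exact isCompactOperator_zero
  | succ n ih =>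
    rw [Finset.sum_range_succ]
    exact ih.add (h n)

theorem iter_update (M : VonNeumannAlgebra H) (a : ℕ → (H →L[ℂ] H)) (ha : InM M a) (i : ℕ)
    (x : H →L[ℂ] H) (hx : x ∈ M) : InM M (Function.update a i x) := by
  intro j
  by_cases h : j = i
  · subst h
    rw [Function.update_self]
    exact hx
  · rw [Function.update_of_ne h]
    exact ha j

theorem iter_mulAt (M : VonNeumannAlgebra H) (a : ℕ → (H →L[ℂ] H)) (ha : InM M a) (i : ℕ) :
    InM M (mulAt i a) := by
  intro k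
  unfold mulAt
  split_ifs
  · exact ha k
  · exact mul_mem (ha i) (ha (i + 1))
  · exact ha (k + 1)

theorem iter (M : VonNeumannAlgebra H) (m : ℕ) (K : ℝ) (hK : 0 ≤ K)
    (hstep : ∀ (C : ℝ), 0 < C → ∀ f : (ℕ → (H →L[ℂ] H)) → (H →L[ℂ] H),
      IsC M (m + 1) C f → IsZ M (m + 1) f →
      ∃ f' g : (ℕ → (H →L[ℂ] H)) → (H →L[ℂ] H), IsC M (m + 1) (C / 2) f' ∧ IsZ M (m + 1) f' ∧
        IsC M m (K * C) g ∧ ∀ a, InM M a → f a = f' a + dd m g a)
    (C : ℝ) (hC : 0 < C) (f : (ℕ → (H →L[ℂ] H)) → (H →L[ℂ] H)) (hf : IsC M (m + 1) C f)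
    (hz : IsZ M (m + 1) f) :
    ∃ ψ : (ℕ → (H →L[ℂ] H)) → (H →L[ℂ] H), IsC M m (2 * K * C) ψ ∧
      ∀ a, InM M a → dd m ψ a = f a := by
  have hnext : ∀ (C : ℝ) (f : (ℕ → (H →L[ℂ] H)) → (H →L[ℂ] H)),
      ∃ p : ((ℕ → (H →L[ℂ] H)) → (H →L[ℂ] H)) × ((ℕ → (H →L[ℂ] H)) → (H →L[ℂ] H)),
      0 < C → IsC M (m + 1) C f → IsZ M (m + 1) f →
      IsC M (m + 1) (C / 2) p.1 ∧ IsZ M (m + 1) p.1 ∧
        IsC M m (K * C) p.2 ∧ ∀ a, InM M a → f a = p.1 a + dd m p.2 a := by
    intro C f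
    by_cases h : 0 < C ∧ IsC M (m + 1) C f ∧ IsZ M (m + 1) f
    · obtain ⟨f', g, h1⟩ := hstep C h.1 f h.2.1 h.2.2
      exact ⟨(f', g), fun _ _ _ => h1⟩
    · exact ⟨(f, f), fun h1 h2 h3 => absurd ⟨h1, h2, h3⟩ h⟩
  choose next hnext using hnext
  obtain ⟨fs, hfs0, hfs1⟩ : ∃ fs : ℕ → ((ℕ → (H →L[ℂ] H)) → (H →L[ℂ] H)), fs 0 = f ∧
      ∀ k, fs (k + 1) = (next (C / 2 ^ k) (fs k)).1 :=
    ⟨fun k => Nat.rec f (fun k fk => (next (C / 2 ^ k) fk).1) k, rfl, fun k => rfl⟩
  have hCk : ∀ k : ℕ, 0 < C / 2 ^ k := fun k => by positivity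
  have hfs : ∀ k, IsC M (m + 1) (C / 2 ^ k) (fs k) ∧ IsZ M (m + 1) (fs k) := by
    intro k
    induction k with
    | zero =>
      rw [hfs0, pow_zero, div_one]
      exact ⟨hf, hz⟩
    | succ k ih =>
      have h1 := hnext (C / 2 ^ k) (fs k) (hCk k) ih.1 ih.2
      have e : C / 2 ^ (k + 1) = C / 2 ^ k / 2 := by
        rw [pow_succ]
        field_simp
      rw [hfs1, e]
      exact ⟨h1.1, h1.2.1⟩
  set gs : ℕ → ((ℕ → (H →L[ℂ] H)) → (H →L[ℂ] H)) := fun k => (next (C / 2 ^ k) (fs k)).2 with hgsdef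
  have hg : ∀ k, IsC M m (K * (C / 2 ^ k)) (gs k) := fun k =>
    (hnext (C / 2 ^ k) (fs k) (hCk k) (hfs k).1 (hfs k).2).2.2.1
  have hrec : ∀ k a, InM M a → fs k a = fs (k + 1) a + dd m (gs k) a := by
    intro k a ha
    rw [hfs1]
    exact (hnext (C / 2 ^ k) (fs k) (hCk k) (hfs k).1 (hfs k).2).2.2.2 a ha
  refine ⟨fun a => ∑' k, gs k a, ⟨?_, ?_, ?_, ?_⟩, ?_⟩
  · intro a b hab
    exact tsum_congr fun k => (hg k).dep a b hab
  · intro a ha i hi x y hx hy c
    have hsx := (iter_summable M m K C gs hg _ (iter_update M a ha i x hx)).1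
    have hsy := (iter_summable M m K C gs hg _ (iter_update M a ha i y hy)).1
    show ∑' k, gs k (Function.update a i (c • x + y)) = c • ∑' k, gs k (Function.update a i x) +
      ∑' k, gs k (Function.update a i y)
    have h1 : HasSum (fun k => c • gs k (Function.update a i x) + gs k (Function.update a i y))
        (c • ∑' k, gs k (Function.update a i x) + ∑' k, gs k (Function.update a i y)) :=
      (hsx.hasSum.const_smul c).add hsy.hasSum
    rw [← h1.tsum_eq]
    exact tsum_congr fun k => (hg k).lin a ha i hi x y hx hy c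
  · intro a ha
    exact (iter_summable M m K C gs hg a ha).2
  · intro a ha
    have h1 := (iter_summable M m K C gs hg a ha).1.hasSum.tendsto_sum_nat
    exact isCompactOperator_of_tendsto h1
      (Eventually.of_forall fun n => iter_compact _ (fun k => (hg k).cpt a ha) n)
  · intro a ha
    have hsum : ∀ b, InM M b → HasSum (fun k => gs k b) (∑' k, gs k b) := fun b hb =>
      (iter_summable M m K C gs hg b hb).1.hasSum
    have hD : HasSum (fun k => dd m (gs k) a) (dd m (fun a => ∑' k, gs k a) a) := by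
      unfold dd
      refine HasSum.add (HasSum.add ?_ ?_) ?_
      · exact (hsum _ (fun k => ha (k + 1))).mul_left (a 0)
      · exact hasSum_sum fun i _ => (hsum _ (iter_mulAt M a ha i)).const_smul _
      · exact ((hsum a ha).mul_right (a m)).const_smul _
    have hpart : ∀ n, ∑ k ∈ Finset.range n, dd m (gs k) a = f a - fs n a := by
      intro n
      induction n with
      | zero => rw [Finset.sum_range_zero, hfs0, sub_self]
      | succ n ih =>
        rw [Finset.sum_range_succ, ih, hrec n a ha]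
        abel
    have h1 : Tendsto (fun n => fs n a) atTop (𝓝 0) := by
      have h2 : Tendsto (fun n : ℕ => C / 2 ^ n * ∏ i ∈ Finset.range (m + 1), ‖a i‖) atTop (𝓝 0) := by
        have h3 : Tendsto (fun n : ℕ => (1 / 2 : ℝ) ^ n) atTop (𝓝 0) :=
          tendsto_pow_atTop_nhds_zero_of_lt_one (by norm_num) (by norm_num)
        have h4 := (h3.const_mul C).mul_const (∏ i ∈ Finset.range (m + 1), ‖a i‖)
        rw [mul_zero, zero_mul] at h4
        refine h4.congr fun n => ?_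
        rw [div_pow, one_pow]
        ring
      exact squeeze_zero_norm (fun n => (hfs n).1.bd a ha) h2
    have h2 : Tendsto (fun n => f a - fs n a) atTop (𝓝 (f a)) := by
      have := h1.const_sub (f a)
      rwa [sub_zero] at this
    have h3 := hD.tendsto_sum_nat
    rw [show (fun n => ∑ k ∈ Finset.range n, dd m (gs k) a) = fun n => f a - fs n a from
      funext hpart] at h3
    exact tendsto_nhds_unique h3 h2

end Pool.Agent.Helper5.CI
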