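import Mathlib
import Pool.Agent.Helper5.Ci.Defs

set_option autoImplicit false
open Filter Topology

namespace Pool.Agent.Helper5.CI

variable {H : Type} [NormedAddCommGroup H] [InnerProductSpace ℂ H] [CompleteSpace H]

theorem smul_memM (M : VonNeumannAlgebra H) (c : ℂ) {x : H →L[ℂ] H} (hx : x ∈ M) : c • x ∈ M :=
  M.toStarSubalgebra.smul_mem hx c

/-- linear on `M` -/
def LinOn (M : VonNeumannAlgebra H) (T : (H →L[ℂ] H) → (H →L[ℂ] H)) : Prop :=
  ∀ x y : H →L[ℂ] H, x ∈ M → y ∈ M → ∀ c : ℂ, T (c • x + y) = c • T x + T y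

theorem LinOn.zero {M : VonNeumannAlgebra H} {T : (H →L[ℂ] H) → (H →L[ℂ] H)} (hT : LinOn M T) :
    T 0 = 0 := by
  have h := hT 0 0 (zero_mem M) (zero_mem M) 1
  rw [smul_zero, add_zero, one_smul] at h
  simpa using h

theorem LinOn.sum {M : VonNeumannAlgebra H} {T : (H →L[ℂ] H) → (H →L[ℂ] H)} (hT : LinOn M T)
    {ι : Type} (s : Finset ι) (c : ι → ℂ) (x : ι → (H →L[ℂ] H)) (hx : ∀ i ∈ s, x i ∈ M) :
    T (∑ i ∈ s, c i • x i) = ∑ i ∈ s, c i • T (x i) := by
  classical
  induction s using Finset.induction_on with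
  | empty => simpa using hT.zero
  | insert i s hi ih =>
    rw [Finset.sum_insert hi, Finset.sum_insert hi, hT _ _ (hx i (Finset.mem_insert_self _ _))
      (sum_mem fun j hj => smul_memM M (c j) (hx j (Finset.mem_insert_of_mem hj))),
      ih fun j hj => hx j (Finset.mem_insert_of_mem hj)]

theorem sgn_sum {k : ℕ} (i j : Fin k) :
    ∑ ε : Fin k → ℤˣ, ((((ε i : ℤˣ) : ℤ) : ℂ) * (((ε j : ℤˣ) : ℤ) : ℂ)) =
      if i = j then (2 : ℂ) ^ k else 0 := by
  split_ifs with h
  · subst h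
    have h1 : ∀ ε : Fin k → ℤˣ, ((((ε i : ℤˣ) : ℤ) : ℂ) * (((ε i : ℤˣ) : ℤ) : ℂ)) = 1 := by
      intro ε
      rcases Int.units_eq_one_or (ε i) with h | h <;> simp [h]
    rw [Finset.sum_congr rfl (fun ε _ => h1 ε), Finset.sum_const, Finset.card_univ, Fintype.card_fun,
      Fintype.card_units_int, Fintype.card_fin]
    simp
  · have key := Equiv.sum_comp (Equiv.mulLeft (Pi.mulSingle i (-1 : ℤˣ) : Fin k → ℤˣ))
      (fun ε : Fin k → ℤˣ => ((((ε i : ℤˣ) : ℤ) : ℂ) * (((ε j : ℤˣ) : ℤ) : ℂ)))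
    have h2 : ∀ ε : Fin k → ℤˣ,
        (fun ε : Fin k → ℤˣ => ((((ε i : ℤˣ) : ℤ) : ℂ) * (((ε j : ℤˣ) : ℤ) : ℂ)))
          ((Equiv.mulLeft (Pi.mulSingle i (-1 : ℤˣ) : Fin k → ℤˣ)) ε) =
        -((((ε i : ℤˣ) : ℤ) : ℂ) * (((ε j : ℤˣ) : ℤ) : ℂ)) := by
      intro ε
      have hij : j ≠ i := fun h' => h h'.symm
      simp [Pi.mulSingle_eq_of_ne hij]
    rw [Finset.sum_congr rfl (fun ε _ => h2 ε), Finset.sum_neg_distrib] at key
    exact self_eq_neg.1 key.symm

theorem avg_sgn {k : ℕ} (A B : Fin k → (H →L[ℂ] H)) :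
    ∑ ε : Fin k → ℤˣ, (∑ i, (((ε i : ℤˣ) : ℤ) : ℂ) • A i) * (∑ j, (((ε j : ℤˣ) : ℤ) : ℂ) • B j) =
      ((2 : ℂ) ^ k) • ∑ i, A i * B i := by
  have h1 : ∀ ε : Fin k → ℤˣ,
      (∑ i, (((ε i : ℤˣ) : ℤ) : ℂ) • A i) * (∑ j, (((ε j : ℤˣ) : ℤ) : ℂ) • B j) =
      ∑ i, ∑ j, ((((ε i : ℤˣ) : ℤ) : ℂ) * (((ε j : ℤˣ) : ℤ) : ℂ)) • (A i * B j) := by
    intro ε
    rw [Finset.sum_mul_sum]
    refine Finset.sum_congr rfl fun i _ => Finset.sum_congr rfl fun j _ => ?_
    rw [smul_mul_smul_comm]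
  rw [Finset.sum_congr rfl (fun ε _ => h1 ε), Finset.sum_comm, Finset.smul_sum]
  refine Finset.sum_congr rfl fun i _ => ?_
  rw [Finset.sum_comm]
  have h2 : ∀ j, ∑ ε : Fin k → ℤˣ,
      ((((ε i : ℤˣ) : ℤ) : ℂ) * (((ε j : ℤˣ) : ℤ) : ℂ)) • (A i * B j) =
      if i = j then ((2 : ℂ) ^ k) • (A i * B j) else 0 := by
    intro j
    rw [← Finset.sum_smul, sgn_sum]
    split_ifs <;> simp
  rw [Finset.sum_congr rfl (fun j _ => h2 j)]
  simp

theorem norm_proj {z : H →L[ℂ] H} (hs : star z = z) (hi : z * z = z) : ‖z‖ ≤ 1 := by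
  have h := CStarRing.norm_star_mul_self (x := z)
  rw [hs, hi] at h
  by_contra hc
  push Not at hc
  nlinarith

/-- matrix units -/
structure MUs (M : VonNeumannAlgebra H) (z : H →L[ℂ] H) (k : ℕ)
    (e : Fin k → Fin k → (H →L[ℂ] H)) : Prop where
  mem : ∀ i j, e i j ∈ M
  st : ∀ i j, star (e i j) = e j i
  mul : ∀ i j p q, e i j * e p q = if j = p then e i q else 0
  sum : ∑ i, e i i = z
  span : ∀ x ∈ M, ∃ c : Fin k → Fin k → ℂ, z * x = ∑ i, ∑ j, c i j • e i j

theorem MUs.z_mul {M : VonNeumannAlgebra H} {z : H →L[ℂ] H} {k : ℕ}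
    {e : Fin k → Fin k → (H →L[ℂ] H)} (he : MUs M z k e) (p q : Fin k) : z * e p q = e p q := by
  rw [← he.sum, Finset.sum_mul]
  simp [he.mul]

theorem bd_T {M : VonNeumannAlgebra H} {z : H →L[ℂ] H} {k : ℕ}
    {e : Fin k → Fin k → (H →L[ℂ] H)} (he : MUs M z k e) (hz1 : ‖z‖ ≤ 1)
    {T : (H →L[ℂ] H) → (H →L[ℂ] H)} (hT : LinOn M T) (B : ℝ) (hB : 0 ≤ B)
    (hTB : ∀ x ∈ M, ‖T x‖ ≤ B * ‖x‖) : ‖∑ p, ∑ q, e p q * T (e q p)‖ ≤ k * B := by
  rcases k with _ | n
  · simp
  have h1 : ∑ p, ∑ q, e p q * T (e q p) = ∑ s : Fin (n + 1), ∑ q, e (q + s) q * T (e q (q + s)) := by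
    rw [Finset.sum_comm, Finset.sum_comm (f := fun s q => e (q + s) q * T (e q (q + s)))]
    refine Finset.sum_congr rfl fun q _ => ?_
    exact (Equiv.sum_comp (Equiv.addLeft q) (fun p => e p q * T (e q p))).symm
  rw [h1]
  have h2 : ∀ s : Fin (n + 1), ‖∑ q, e (q + s) q * T (e q (q + s))‖ ≤ B := by
    intro s
    have h3 := avg_sgn (fun q => e (q + s) q) (fun q => T (e q (q + s)))
    have hU : ∀ ε : Fin (n + 1) → ℤˣ, ‖∑ i, (((ε i : ℤˣ) : ℤ) : ℂ) • e i (i + s)‖ ≤ 1 := by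
      intro ε
      have hst : star (∑ i, (((ε i : ℤˣ) : ℤ) : ℂ) • e i (i + s)) =
          ∑ i, (((ε i : ℤˣ) : ℤ) : ℂ) • e (i + s) i := by
        rw [star_sum]
        refine Finset.sum_congr rfl fun i _ => ?_
        rw [star_smul, he.st]
        congr 1
        simp
      have hUU : star (∑ i, (((ε i : ℤˣ) : ℤ) : ℂ) • e i (i + s)) *
          (∑ i, (((ε i : ℤˣ) : ℤ) : ℂ) • e i (i + s)) = z := by
        rw [hst, Finset.sum_mul_sum]
        have h4 : ∀ i j, ((((ε i : ℤˣ) : ℤ) : ℂ) • e (i + s) i) *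
            ((((ε j : ℤˣ) : ℤ) : ℂ) • e j (j + s)) = if i = j then e (i + s) (i + s) else 0 := by
          intro i j
          rw [smul_mul_smul_comm, he.mul]
          split_ifs with hij
          · subst hij
            rcases Int.units_eq_one_or (ε i) with h | h <;> simp [h]
          · simp
        simp only [h4]
        rw [← he.sum]
        simp only [Finset.sum_ite_eq, Finset.mem_univ, if_true]
        exact Equiv.sum_comp (Equiv.addRight s) (fun i => e i i)
      have h5 := CStarRing.norm_star_mul_self (x := ∑ i, (((ε i : ℤˣ) : ℤ) : ℂ) • e i (i + s))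
      rw [hUU] at h5
      by_contra hc
      push Not at hc
      nlinarith
    have hst : ∀ ε : Fin (n + 1) → ℤˣ, ‖∑ i, (((ε i : ℤˣ) : ℤ) : ℂ) • e (i + s) i‖ ≤ 1 := by
      intro ε
      have hst : star (∑ i, (((ε i : ℤˣ) : ℤ) : ℂ) • e i (i + s)) =
          ∑ i, (((ε i : ℤˣ) : ℤ) : ℂ) • e (i + s) i := by
        rw [star_sum]
        refine Finset.sum_congr rfl fun i _ => ?_
        rw [star_smul, he.st]
        congr 1
        simp
      rw [← hst, norm_star]
      exact hU ε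
    have hterm : ∀ ε : Fin (n + 1) → ℤˣ,
        ‖(∑ i, (((ε i : ℤˣ) : ℤ) : ℂ) • e (i + s) i) *
          (∑ j, (((ε j : ℤˣ) : ℤ) : ℂ) • T (e j (j + s)))‖ ≤ B := by
      intro ε
      rw [← hT.sum Finset.univ (fun j => (((ε j : ℤˣ) : ℤ) : ℂ)) (fun j => e j (j + s))
        (fun j _ => he.mem _ _)]
      have hm : (∑ i, (((ε i : ℤˣ) : ℤ) : ℂ) • e i (i + s)) ∈ M :=
        sum_mem fun i _ => smul_memM M _ (he.mem _ _)
      calc _ ≤ ‖∑ i, (((ε i : ℤˣ) : ℤ) : ℂ) • e (i + s) i‖ *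
            ‖T (∑ i, (((ε i : ℤˣ) : ℤ) : ℂ) • e i (i + s))‖ := norm_mul_le _ _
        _ ≤ 1 * (B * 1) := by
            apply mul_le_mul (hst ε) _ (norm_nonneg _) zero_le_one
            exact (hTB _ hm).trans (mul_le_mul_of_nonneg_left (hU ε) hB)
        _ = B := by ring
    have h6 : ‖((2 : ℂ) ^ (n + 1)) • ∑ i, e (i + s) i * T (e i (i + s))‖ ≤ 2 ^ (n + 1) * B := by
      rw [← h3]
      refine (norm_sum_le _ _).trans ?_
      refine (Finset.sum_le_sum fun ε _ => hterm ε).trans ?_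
      rw [Finset.sum_const, Finset.card_univ, Fintype.card_fun, Fintype.card_units_int,
        Fintype.card_fin]
      simp
    rw [norm_smul, norm_pow, Complex.norm_ofNat] at h6
    exact le_of_mul_le_mul_left h6 (by positivity)
  refine (norm_sum_le _ _).trans ((Finset.sum_le_sum fun s _ => h2 s).trans ?_)
  simp

/-- the key identity -/
theorem key_T {M : VonNeumannAlgebra H} {z : H →L[ℂ] H} (hzc : CP M z) {k : ℕ}
    {e : Fin k → Fin k → (H →L[ℂ] H)} (he : MUs M z k e)
    {T : (H →L[ℂ] H) → (H →L[ℂ] H)} (hT : LinOn M T) (hTz : ∀ x ∈ M, T (z * x) = T x)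
    {x : H →L[ℂ] H} (hx : x ∈ M) :
    ∑ p, ∑ q, e p q * T (e q p * x) = x * ∑ p, ∑ q, e p q * T (e q p) := by
  obtain ⟨c, hc⟩ := he.span x hx
  have h1 : ∀ p q, T (e q p * x) = ∑ j, c p j • T (e q j) := by
    intro p q
    rw [← hTz _ (mul_mem (he.mem _ _) hx), ← mul_assoc, hzc.cent _ (he.mem _ _), mul_assoc, hc,
      ← hT.sum Finset.univ (fun j => c p j) (fun j => e q j) (fun j _ => he.mem _ _)]
    congr 1
    rw [Finset.mul_sum]
    simp only [Finset.mul_sum, mul_smul_comm, he.mul, smul_ite, smul_zero]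
    rw [Finset.sum_comm]
    simp
  have h2 : ∀ p q, x * e p q = ∑ i, c i p • e i q := by
    intro p q
    rw [← he.z_mul p q, ← mul_assoc, ← hzc.cent x hx, hc]
    simp only [Finset.sum_mul, smul_mul_assoc, he.mul, smul_ite, smul_zero]
    simp
  simp only [h1, Finset.mul_sum, ← mul_assoc, h2, Finset.sum_mul, mul_smul_comm, smul_mul_assoc]
  -- LHS: ∑ p q j, c p j • (e p q * T (e q j)); RHS: ∑ p q i, c i p • (e i q * T (e q p))
  calc ∑ p, ∑ q, ∑ j, c p j • (e p q * T (e q j))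
      = ∑ p, ∑ j, ∑ q, c p j • (e p q * T (e q j)) :=
        Finset.sum_congr rfl fun p _ => Finset.sum_comm
    _ = ∑ j, ∑ p, ∑ q, c p j • (e p q * T (e q j)) := Finset.sum_comm
    _ = ∑ j, ∑ q, ∑ p, c p j • (e p q * T (e q j)) :=
        Finset.sum_congr rfl fun p _ => Finset.sum_comm

/-- put an entry in front -/
noncomputable def cs (x : H →L[ℂ] H) (a : ℕ → (H →L[ℂ] H)) : ℕ → (H →L[ℂ] H) :=
  fun l => if l = 0 then x else a (l - 1)

theorem cs_inM {M : VonNeumannAlgebra H} {x : H →L[ℂ] H} (hx : x ∈ M) {a : ℕ → (H →L[ℂ] H)}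
    (ha : InM M a) : InM M (cs x a) := by
  intro l
  unfold cs
  split_ifs
  · exact hx
  · exact ha _

theorem cs_update0 (x y : H →L[ℂ] H) (a : ℕ → (H →L[ℂ] H)) :
    Function.update (cs x a) 0 y = cs y a := by
  funext l
  by_cases hl : l = 0
  · subst hl; simp [cs]
  · simp [cs, hl]

theorem cs_update (x y : H →L[ℂ] H) (a : ℕ → (H →L[ℂ] H)) (i : ℕ) :
    cs x (Function.update a i y) = Function.update (cs x a) (i + 1) y := by
  funext l
  rcases l with _ | l
  · simp [cs]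
  · by_cases hl : l = i
    · subst hl; simp [cs]
    · simp [cs, hl]

theorem cs_mulAt0 (x : H →L[ℂ] H) (a : ℕ → (H →L[ℂ] H)) :
    mulAt 0 (cs x a) = cs (x * a 0) (fun k => a (k + 1)) := by
  funext l
  rcases l with _ | l
  · simp [cs, mulAt]
  · simp [cs, mulAt]

theorem cs_mulAt (x : H →L[ℂ] H) (a : ℕ → (H →L[ℂ] H)) (i : ℕ) :
    mulAt (i + 1) (cs x a) = cs x (mulAt i a) := by
  funext l
  rcases l with _ | l
  · simp [cs, mulAt]
  · rcases lt_trichotomy l i with h | h | h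
    · simp [cs, mulAt, h]
    · subst h; simp [cs, mulAt]
    · have h1 : ¬ l < i := by omega
      have h2 : ¬ l = i := by omega
      simp [cs, mulAt, h1, h2]

theorem mulAt_inM {M : VonNeumannAlgebra H} (i : ℕ) {a : ℕ → (H →L[ℂ] H)}
    (ha : InM M a) : InM M (mulAt i a) := by
  intro l
  unfold mulAt
  split_ifs
  · exact ha _
  · exact mul_mem (ha _) (ha _)
  · exact ha _

/-- the compressed cochain -/
noncomputable def FF (z : H →L[ℂ] H) (f : (ℕ → (H →L[ℂ] H)) → (H →L[ℂ] H))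
    (b : ℕ → (H →L[ℂ] H)) : H →L[ℂ] H := z * f (fun l => z * b l) * z

theorem FF_eq {M : VonNeumannAlgebra H} {z : H →L[ℂ] H} (hzc : CP M z)
    (f : (ℕ → (H →L[ℂ] H)) → (H →L[ℂ] H)) {a : ℕ → (H →L[ℂ] H)} (ha : InM M a) :
    star z * f (conj z a) * z = FF z f a := by
  unfold FF
  rw [hzc.sa]
  have : conj z a = fun l => z * a l := by
    funext l
    unfold conj
    rw [hzc.sa, mul_assoc, ← hzc.cent _ (ha l), ← mul_assoc, hzc.idem]
  rw [this]

theorem FF_isC {M : VonNeumannAlgebra H} {z : H →L[ℂ] H} (hzc : CP M z) {n : ℕ} {C : ℝ} (hC : 0 ≤ C)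
    {f : (ℕ → (H →L[ℂ] H)) → (H →L[ℂ] H)} (hf : IsC M n C f) : IsC M n C (FF z f) := by
  have hz1 := norm_proj hzc.sa hzc.idem
  refine ⟨?_, ?_, ?_, ?_⟩
  · intro a b hab
    unfold FF
    rw [hf.dep _ _ (fun i hi => by rw [hab i hi])]
  · intro a ha i hi x y hx hy c
    have hu : ∀ w, (fun l => z * Function.update a i w l) =
        Function.update (fun l => z * a l) i (z * w) := by
      intro w
      funext l
      by_cases hl : l = i
      · subst hl; simp
      · simp [hl]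
    unfold FF
    rw [hu, hu, hu, mul_add, mul_smul_comm,
      hf.lin _ (fun l => mul_mem hzc.mem (ha l)) i hi _ _ (mul_mem hzc.mem hx) (mul_mem hzc.mem hy),
      mul_add, add_mul, mul_smul_comm, smul_mul_assoc]
  · intro a ha
    unfold FF
    have h1 : ‖f (fun l => z * a l)‖ ≤ C * ∏ i ∈ Finset.range n, ‖a i‖ := by
      refine (hf.bd _ (fun l => mul_mem hzc.mem (ha l))).trans ?_
      apply mul_le_mul_of_nonneg_left _ hC
      apply Finset.prod_le_prod (fun i _ => norm_nonneg _)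
      intro i _
      refine (norm_mul_le _ _).trans ?_
      calc ‖z‖ * ‖a i‖ ≤ 1 * ‖a i‖ := mul_le_mul_of_nonneg_right hz1 (norm_nonneg _)
        _ = ‖a i‖ := one_mul _
    have h0 := norm_nonneg (f (fun l => z * a l))
    calc ‖z * f (fun l => z * a l) * z‖ ≤ ‖z‖ * ‖f (fun l => z * a l)‖ * ‖z‖ :=
          (norm_mul_le _ _).trans (mul_le_mul_of_nonneg_right (norm_mul_le _ _) (norm_nonneg _))
      _ ≤ 1 * ‖f (fun l => z * a l)‖ * 1 := by
          apply mul_le_mul _ hz1 (norm_nonneg _) (by positivity)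
          exact mul_le_mul_of_nonneg_right hz1 h0
      _ = ‖f (fun l => z * a l)‖ := by ring
      _ ≤ _ := h1
  · intro a ha
    unfold FF
    have h1 := hf.cpt _ (fun l => mul_mem hzc.mem (ha l) : InM M (fun l => z * a l))
    exact (h1.clm_comp z).comp_clm z

theorem FF_coc {M : VonNeumannAlgebra H} {z : H →L[ℂ] H} (hzc : CP M z) {n : ℕ}
    {f : (ℕ → (H →L[ℂ] H)) → (H →L[ℂ] H)} (hf : IsZ M n f) : IsZ M n (FF z f) := by
  intro a ha
  have h := hf (fun l => z * a l) (fun l => mul_mem hzc.mem (ha l))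
  have h2 : dd n (FF z f) a = z * dd n f (fun l => z * a l) * z := by
    unfold dd
    rw [mul_add, mul_add, add_mul, add_mul]
    congr 1
    · congr 1
      · unfold FF
        rw [← mul_assoc, ← mul_assoc, ← hzc.cent _ (ha 0), ← mul_assoc z (z * a 0), ← mul_assoc z z,
          hzc.idem]
      · rw [Finset.mul_sum, Finset.sum_mul]
        refine Finset.sum_congr rfl fun i _ => ?_
        rw [mul_smul_comm, smul_mul_assoc]
        congr 1
        unfold FF
        congr 3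
        funext l
        unfold mulAt
        split_ifs
        · rfl
        · rw [mul_assoc z (a i), ← mul_assoc (a i) z, ← hzc.cent _ (ha i), ← mul_assoc z (z * a i),
            ← mul_assoc z z, hzc.idem, mul_assoc]
        · rfl
    · rw [mul_smul_comm, smul_mul_assoc]
      congr 1
      unfold FF
      rw [mul_assoc z (f (fun l => z * a l) * (z * a n)) z, mul_assoc (f fun l => z * a l) (z * a n) z,
        mul_assoc z (a n) z, ← hzc.cent _ (ha n), ← mul_assoc z z, hzc.idem, mul_assoc, mul_assoc]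
  rw [h2, h, mul_zero, zero_mul]



theorem solve_MU (M : VonNeumannAlgebra H) (m : ℕ) (C : ℝ) (hC : 0 ≤ C)
    (f : (ℕ → (H →L[ℂ] H)) → (H →L[ℂ] H)) (hf : IsC M (m + 1) C f) (hz : IsZ M (m + 1) f)
    (z : H →L[ℂ] H) (hzc : CP M z) (hMU : MU M z) :
    ∃ h : (ℕ → (H →L[ℂ] H)) → (H →L[ℂ] H), IsC M m C h ∧
      (∀ a, InM M a → z * h a = h a ∧ h a * z = h a) ∧
      ∀ a, InM M a → dd m h a = star z * f (conj z a) * z := by
  obtain ⟨k, e, he1, he2, he3, he4, he5⟩ := hMU
  have he : MUs M z k e := ⟨he1, he2, he3, he4, he5⟩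
  have hz1 := norm_proj hzc.sa hzc.idem
  have hF := FF_isC hzc hC hf
  have hFz := FF_coc hzc hz
  set F := FF z f with hFdef
  have hzF : ∀ a, z * F a = F a := by
    intro a
    rw [hFdef]
    unfold FF
    rw [← mul_assoc, ← mul_assoc, hzc.idem]
  have hFz' : ∀ a, F a * z = F a := by
    intro a
    rw [hFdef]
    unfold FF
    rw [mul_assoc, hzc.idem]
  -- the functional in the first entry
  have hT : ∀ a, InM M a → LinOn M (fun x => F (cs x a)) := by
    intro a ha x y hx hy c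
    have := hF.lin (cs 0 a) (cs_inM (zero_mem M) ha) 0 (Nat.succ_pos _) x y hx hy c
    rw [cs_update0, cs_update0, cs_update0] at this
    exact this
  have hTz : ∀ a, ∀ x, F (cs (z * x) a) = F (cs x a) := by
    intro a x
    rw [hFdef]
    unfold FF
    congr 3
    funext l
    unfold cs
    split_ifs
    · rw [← mul_assoc, hzc.idem]
    · rfl
  have hTb : ∀ a, InM M a → ∀ x ∈ M, ‖F (cs x a)‖ ≤ (C * ∏ i ∈ Finset.range m, ‖a i‖) * ‖x‖ := by
    intro a ha x hx
    refine (hF.bd (cs x a) (cs_inM hx ha)).trans (le_of_eq ?_)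
    rw [Finset.prod_range_succ']
    simp only [cs, if_true, Nat.succ_ne_zero, if_false, Nat.add_sub_cancel]
    ring
  refine ⟨fun a => ((k : ℂ)⁻¹) • ∑ p, ∑ q, e p q * F (cs (e q p) a), ⟨?_, ?_, ?_, ?_⟩, ?_, ?_⟩
  · -- dep
    intro a b hab
    have h1 : ∀ x, F (cs x a) = F (cs x b) := by
      intro x
      apply hF.dep
      intro i hi
      unfold cs
      split_ifs with h0
      · rfl
      · exact hab _ (by omega)
    simp only [h1]
  · -- lin
    intro a ha i hi x y hx hy c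
    have h1 : ∀ p q, F (cs (e q p) (Function.update a i (c • x + y))) =
        c • F (cs (e q p) (Function.update a i x)) + F (cs (e q p) (Function.update a i y)) := by
      intro p q
      rw [cs_update, cs_update, cs_update]
      exact hF.lin _ (cs_inM (he.mem _ _) ha) (i + 1) (by omega) x y hx hy c
    simp only [h1, mul_add, mul_smul_comm, Finset.sum_add_distrib, smul_add, ← Finset.smul_sum]
    rw [smul_comm]
  · -- bd
    intro a ha
    have h1 := bd_T he hz1 (hT a ha) (C * ∏ i ∈ Finset.range m, ‖a i‖)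
      (mul_nonneg hC (Finset.prod_nonneg fun i _ => norm_nonneg _)) (hTb a ha)
    rw [norm_smul, norm_inv, Complex.norm_natCast]
    have hB : 0 ≤ C * ∏ i ∈ Finset.range m, ‖a i‖ :=
      mul_nonneg hC (Finset.prod_nonneg fun i _ => norm_nonneg _)
    rcases Nat.eq_zero_or_pos k with hk | hk
    · subst hk
      simpa using hB
    · have hk' : (0 : ℝ) < k := Nat.cast_pos.2 hk
      rw [inv_mul_le_iff₀ hk']
      exact h1
  · -- cpt
    intro a ha
    have h1 : (((k : ℂ)⁻¹) • ∑ p, ∑ q, e p q * F (cs (e q p) a)) ∈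
        compactOperator (RingHom.id ℂ) H H := by
      refine Submodule.smul_mem _ _ (Submodule.sum_mem _ fun p _ => Submodule.sum_mem _ fun q _ => ?_)
      exact (hF.cpt (cs (e q p) a) (cs_inM (he.mem _ _) ha)).clm_comp (e p q)
    exact h1
  · -- z
    intro a _
    constructor
    · rw [mul_smul_comm]
      congr 1
      rw [Finset.mul_sum]
      refine Finset.sum_congr rfl fun p _ => ?_
      rw [Finset.mul_sum]
      refine Finset.sum_congr rfl fun q _ => ?_
      rw [← mul_assoc, he.z_mul]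
    · rw [smul_mul_assoc]
      congr 1
      rw [Finset.sum_mul]
      refine Finset.sum_congr rfl fun p _ => ?_
      rw [Finset.sum_mul]
      refine Finset.sum_congr rfl fun q _ => ?_
      rw [mul_assoc, hFz']
  · -- coboundary
    intro a ha
    rw [FF_eq hzc f ha, ← hFdef]
    have hsh : InM M (fun k => a (k + 1)) := fun l => ha _
    -- cocycle identity at `cs (e q p) a`
    have hco : ∀ p q, ∑ i ∈ Finset.range m, ((-1 : ℂ) ^ (i + 1)) • F (cs (e q p) (mulAt i a))
        + ((-1 : ℂ) ^ (m + 1)) • (F (cs (e q p) a) * a m) =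
        e q p * F a - F (cs (e q p * a 0) (fun k => a (k + 1))) := by
      intro p q
      have h := hFz (cs (e q p) a) (cs_inM (he.mem _ _) ha)
      unfold dd at h
      rw [Finset.sum_range_succ', cs_mulAt0] at h
      simp only [cs_mulAt] at h
      have e1 : (fun k => cs (e q p) a (k + 1)) = a := by funext k; simp [cs]
      have e2 : cs (e q p) a 0 = e q p := by simp [cs]
      have e3 : cs (e q p) a (m + 1) = a m := by simp [cs]
      rw [e1, e2, e3] at h
      have e4 : ∑ i ∈ Finset.range m, ((-1 : ℂ) ^ (i + 1 + 1)) • F (cs (e q p) (mulAt i a)) =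
          - ∑ i ∈ Finset.range m, ((-1 : ℂ) ^ (i + 1)) • F (cs (e q p) (mulAt i a)) := by
        rw [← Finset.sum_neg_distrib]
        refine Finset.sum_congr rfl fun i _ => ?_
        rw [pow_succ, mul_neg_one, neg_smul]
      have e5 : ((-1 : ℂ) ^ (m + 1 + 1)) • (F (cs (e q p) a) * a m) =
          - (((-1 : ℂ) ^ (m + 1)) • (F (cs (e q p) a) * a m)) := by
        rw [pow_succ, mul_neg_one, neg_smul]
      rw [e4, e5] at h
      simp only [zero_add, pow_one, neg_smul, one_smul] at h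
      have h' := sub_eq_zero.2 h
      rw [← sub_eq_zero]
      rw [← neg_eq_zero]
      rw [sub_zero] at h'
      rw [← h']
      abel
    unfold dd
    have k1 : a 0 * (((k : ℂ)⁻¹) • ∑ p, ∑ q, e p q * F (cs (e q p) (fun k => a (k + 1)))) =
        ((k : ℂ)⁻¹) • ∑ p, ∑ q, e p q * F (cs (e q p * a 0) (fun k => a (k + 1))) := by
      rw [mul_smul_comm]
      congr 1
      exact (key_T hzc he (hT _ hsh) (fun x _ => hTz _ x) (ha 0)).symm
    have k2 : ∑ i ∈ Finset.range m, ((-1 : ℂ) ^ (i + 1)) •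
          (((k : ℂ)⁻¹) • ∑ p, ∑ q, e p q * F (cs (e q p) (mulAt i a)))
        + ((-1 : ℂ) ^ (m + 1)) • ((((k : ℂ)⁻¹) • ∑ p, ∑ q, e p q * F (cs (e q p) a)) * a m) =
        ((k : ℂ)⁻¹) • ∑ p, ∑ q, e p q *
          (e q p * F a - F (cs (e q p * a 0) (fun k => a (k + 1)))) := by
      simp only [← hco]
      simp only [mul_add, Finset.mul_sum, mul_smul_comm, Finset.sum_add_distrib, smul_add,
        Finset.smul_sum, Finset.sum_mul, smul_mul_assoc, ← mul_assoc]
      congr 1
      · rw [Finset.sum_comm]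
        refine Finset.sum_congr rfl fun p _ => ?_
        rw [Finset.sum_comm]
        refine Finset.sum_congr rfl fun q _ => ?_
        refine Finset.sum_congr rfl fun i _ => ?_
        rw [smul_comm]
      · refine Finset.sum_congr rfl fun p _ => ?_
        refine Finset.sum_congr rfl fun q _ => ?_
        rw [smul_comm]
    rw [k1, add_assoc, k2, ← smul_add, ← Finset.sum_add_distrib]
    simp only [← Finset.sum_add_distrib, mul_sub, add_sub_cancel]
    have k3 : ∀ p q, e p q * (e q p * F a) = e p p * F a := by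
      intro p q
      rw [← mul_assoc, he.mul, if_pos rfl]
    simp only [k3, Finset.sum_const, Finset.card_univ, Fintype.card_fin, ← Finset.sum_mul,
      ← Finset.smul_sum]
    rcases Nat.eq_zero_or_pos k with hk | hk
    · subst hk
      have hz0 : z = 0 := by rw [← he.sum]; simp
      have : F a = 0 := by rw [← hzF a, hz0, zero_mul]
      rw [this]; simp
    · rw [he.sum, hzF, ← Nat.cast_smul_eq_nsmul ℂ, smul_smul, inv_mul_cancel₀, one_smul]
      exact Nat.cast_ne_zero.2 hk.ne'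

end Pool.Agent.Helper5.CI
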