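import Mathlib
import Pool.Agent.Helper5.Ci.Defs
import Pool.Agent.Helper5.Ci.Fam
import Pool.Agent.Helper5.Ci.BlockC
import Pool.Agent.Helper5.Ci.ExistsNice
import Pool.Agent.Helper5.Ci.ExistsFamily
import Pool.Agent.Helper5.Ci.FiniteBig
import Pool.Agent.Helper5.Ci.SolveMU
import Pool.Agent.Helper5.Ci.BlkFin

set_option autoImplicit false
open Filter Topology

namespace Pool.Agent.Helper5.CI

variable {H : Type} [NormedAddCommGroup H] [InnerProductSpace ℂ H] [CompleteSpace H]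

theorem isC_add_aux (M : VonNeumannAlgebra H) (n : ℕ) (C₁ C₂ : ℝ)
    (f g : (ℕ → (H →L[ℂ] H)) → (H →L[ℂ] H)) (hf : IsC M n C₁ f) (hg : IsC M n C₂ g) :
    IsC M n (C₁ + C₂) (fun a => f a + g a) := by
  refine ⟨?_, ?_, ?_, ?_⟩
  · intro a b hab
    change f a + g a = f b + g b
    rw [hf.dep a b hab, hg.dep a b hab]
  · intro a ha i hi x y hx hy c
    change f _ + g _ = c • (f _ + g _) + (f _ + g _)
    rw [hf.lin a ha i hi x y hx hy c, hg.lin a ha i hi x y hx hy c, smul_add]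
    abel
  · intro a ha
    change ‖f a + g a‖ ≤ _
    rw [add_mul]
    exact (norm_add_le _ _).trans (add_le_add (hf.bd a ha) (hg.bd a ha))
  · intro a ha
    have h := (hf.cpt a ha).add (hg.cpt a ha)
    exact h

theorem isC_sum_aux (M : VonNeumannAlgebra H) (n : ℕ) (C : ℝ) {J : Type} (T : Finset J)
    (h : J → (ℕ → (H →L[ℂ] H)) → (H →L[ℂ] H)) (hT : ∀ j ∈ T, IsC M n C (h j))
    (hb : ∀ a, InM M a → ‖∑ j ∈ T, h j a‖ ≤ C * ∏ i ∈ Finset.range n, ‖a i‖) :
    IsC M n C (fun a => ∑ j ∈ T, h j a) := by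
  refine ⟨?_, ?_, hb, ?_⟩
  · intro a b hab
    exact Finset.sum_congr rfl fun j hj => (hT j hj).dep a b hab
  · intro a ha i hi x y hx hy c
    change ∑ j ∈ T, h j _ = c • ∑ j ∈ T, h j _ + ∑ j ∈ T, h j _
    rw [Finset.smul_sum, ← Finset.sum_add_distrib]
    exact Finset.sum_congr rfl fun j hj => (hT j hj).lin a ha i hi x y hx hy c
  · intro a ha
    change IsCompactOperator ((∑ j ∈ T, h j a : H →L[ℂ] H) : H → H)
    clear hb
    classical
    induction T using Finset.induction_on with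
    | empty =>
      rw [Finset.sum_empty]
      exact isCompactOperator_zero
    | insert j T hj ih =>
      rw [Finset.sum_insert hj]
      have h1 := ((hT j (Finset.mem_insert_self j T)).cpt a ha).add
        (ih fun i hi => hT i (Finset.mem_insert_of_mem hi))
      exact h1

theorem dd_add_aux (n : ℕ) (f g : (ℕ → (H →L[ℂ] H)) → (H →L[ℂ] H)) (a : ℕ → (H →L[ℂ] H)) :
    dd n (fun a => f a + g a) a = dd n f a + dd n g a := by
  simp only [dd, mul_add, add_mul, smul_add, Finset.sum_add_distrib]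
  abel

theorem dd_zero_aux (n : ℕ) (a : ℕ → (H →L[ℂ] H)) :
    dd n (fun _ => (0 : H →L[ℂ] H)) a = 0 := by
  simp [dd]

theorem dd_sum_aux (n : ℕ) {J : Type} (T : Finset J)
    (h : J → (ℕ → (H →L[ℂ] H)) → (H →L[ℂ] H)) (a : ℕ → (H →L[ℂ] H)) :
    dd n (fun a => ∑ j ∈ T, h j a) a = ∑ j ∈ T, dd n (h j) a := by
  classical
  induction T using Finset.induction_on with
  | empty =>
    simp only [Finset.sum_empty]
    exact dd_zero_aux n a
  | insert j T hj ih =>
    rw [Finset.sum_insert hj, ← ih, ← dd_add_aux]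
    congr 1
    funext b
    rw [Finset.sum_insert hj]


theorem step (M : VonNeumannAlgebra H) (hM : Tame M) (m : ℕ) (C : ℝ) (hC : 0 < C)
    (f : (ℕ → (H →L[ℂ] H)) → (H →L[ℂ] H)) (hf : IsC M (m + 1) C f) (hz : IsZ M (m + 1) f) :
    ∃ f' g : (ℕ → (H →L[ℂ] H)) → (H →L[ℂ] H), IsC M (m + 1) (C / 2) f' ∧ IsZ M (m + 1) f' ∧
      IsC M m ((m + 2) * C) g ∧ ∀ a, InM M a → f a = f' a + dd m g a := by
  classical
  obtain ⟨S, hS1, hS2, hS3⟩ := exists_family M
    (fun z => ∃ v : H →L[ℂ] H, v ∈ M ∧ star v * v = z ∧ v * z = v ∧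
      (Small M (m + 1) f (C / 2) v ∨ (v = z ∧ MU M z))) (by
    intro r hr hr0
    obtain ⟨z, v, h1, h2, h3, h4, h5, h6, h7⟩ := exists_nice M hM (m + 1) C (C / 2) f hf
      (by positivity) r hr hr0
    exact ⟨z, h1, h2, h3, v, h4, h5, h6, h7⟩)
  have hch : ∀ j : S, ∃ v : H →L[ℂ] H, v ∈ M ∧ star v * v = j.1 ∧ v * j.1 = v ∧
      (Small M (m + 1) f (C / 2) v ∨ (v = j.1 ∧ MU M j.1)) := fun j => (hS1 j.1 j.2).2
  choose v hv hvd hvr hvc using hch
  have hd : ∀ j : S, CP M j.1 := fun j => (hS1 j.1 j.2).1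
  have hdo : ∀ i j : S, i ≠ j → i.1 * j.1 = 0 := fun i j hij =>
    hS2 i.1 i.2 j.1 j.2 (fun h => hij (Subtype.ext h))
  obtain ⟨g0, hg0, hg0s⟩ := fam M m C f hC.le hf hz v (fun j : S => j.1) hv hd hvd hvr hdo hS3
  have hfin := finite_big M (m + 1) C (C / 2) f hf (by positivity) (fun j : S => j.1) hd hdo
  have hfin2 : {j : S | ¬ Small M (m + 1) f (C / 2) (v j)}.Finite := by
    refine hfin.subset ?_
    intro j hj
    rcases hvc j with h | h
    · exact absurd h hj
    · intro h'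
      apply hj
      rw [h.1]
      exact h'
  set T : Finset S := hfin2.toFinset with hT
  have hmemT : ∀ j, j ∈ T ↔ ¬ Small M (m + 1) f (C / 2) (v j) := by
    intro j
    rw [hT, Set.Finite.mem_toFinset]
    rfl
  have hTv : ∀ j ∈ T, v j = j.1 ∧ MU M j.1 := by
    intro j hj
    rcases hvc j with h | h
    · exact absurd h ((hmemT j).1 hj)
    · exact h
  have hh : ∀ j : S, ∃ h : (ℕ → (H →L[ℂ] H)) → (H →L[ℂ] H), j ∈ T → (IsC M m C h ∧
      (∀ a, InM M a → j.1 * h a = h a ∧ h a * j.1 = h a) ∧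
      ∀ a, InM M a → dd m h a = star (v j) * f (conj (v j) a) * v j) := by
    intro j
    by_cases hj : j ∈ T
    · obtain ⟨h1, h2⟩ := hTv j hj
      obtain ⟨h, h3, h4, h5⟩ := solve_MU M m C hC.le f hf hz j.1 (hd j) h2
      refine ⟨h, fun _ => ⟨h3, h4, fun a ha => ?_⟩⟩
      rw [h1]
      exact h5 a ha
    · exact ⟨fun _ => 0, fun h => absurd h hj⟩
  choose h hh using hh
  have hGb : ∀ a, InM M a → ‖∑ j ∈ T, h j a‖ ≤ C * ∏ i ∈ Finset.range m, ‖a i‖ := by
    intro a ha
    have h1 : ∑ j ∈ T, h j a = ∑ j ∈ T, (if j ∈ T then h j a else 0) := by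
      apply Finset.sum_congr rfl
      intro j hj
      rw [if_pos hj]
    rw [h1]
    have hP : 0 ≤ C * ∏ i ∈ Finset.range m, ‖a i‖ :=
      mul_nonneg hC.le (Finset.prod_nonneg fun _ _ => norm_nonneg _)
    apply blk_fin (fun j : S => j.1) (fun j => (hd j).sa) (fun j => (hd j).idem) hdo
      (fun j => if j ∈ T then h j a else 0) _ _ _ hP
    · intro j
      by_cases hj : j ∈ T
      · simp only [if_pos hj]
        exact ((hh j hj).1).bd a ha
      · simp only [if_neg hj, norm_zero]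
        exact hP
    · intro j
      by_cases hj : j ∈ T
      · simp only [if_pos hj]
        exact ((hh j hj).2.1 a ha).1
      · simp only [if_neg hj, mul_zero]
    · intro j
      by_cases hj : j ∈ T
      · simp only [if_pos hj]
        exact ((hh j hj).2.1 a ha).2
      · simp only [if_neg hj, zero_mul]
  have hG : IsC M m C (fun a => ∑ j ∈ T, h j a) :=
    isC_sum_aux M m C T h (fun j hj => (hh j hj).1) hGb
  have hsumm : ∀ a, InM M a → Summable (fun j => star (v j) * f (conj (v j) a) * v j) :=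
    fun a ha => (hg0s a ha).summable
  obtain ⟨hf1, hf2⟩ := blockC M (m + 1) C (C / 2) f hf hz (by positivity)
    (J := {j : S // j ∉ T}) (fun j => v j.1) (fun j => j.1.1) (fun j => hv j.1) (fun j => hd j.1)
    (fun j => hvd j.1) (fun j => hvr j.1)
    (fun i j hij => hdo i.1 j.1 (fun h => hij (Subtype.ext h)))
    (fun j => by
      have := j.2
      rw [hmemT, not_not] at this
      exact this)
    (fun a ha => (hsumm a ha).subtype (fun j => j ∉ T))
  refine ⟨_, fun a => g0 a + ∑ j ∈ T, h j a, hf1, hf2, ?_, ?_⟩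
  · have := isC_add_aux M m _ _ _ _ hg0 hG
    have h2 : ((m : ℝ) + 2) * C = (m + 1) * C + C := by ring
    rw [h2]
    exact this
  · intro a ha
    change f a = (∑' j : {j : S // j ∉ T}, star (v j.1) * f (conj (v j.1) a) * v j.1) + _
    rw [dd_add_aux m g0 (fun a => ∑ j ∈ T, h j a) a, dd_sum_aux]
    have h1 : ∑ j ∈ T, dd m (h j) a = ∑ j ∈ T, star (v j) * f (conj (v j) a) * v j :=
      Finset.sum_congr rfl fun j hj => (hh j hj).2.2 a ha
    have h2 := (hsumm a ha).sum_add_tsum_subtype_compl T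
    rw [(hg0s a ha).tsum_eq] at h2
    rw [h1]
    have h3 : f a = (f a - dd m g0 a) + dd m g0 a := by abel
    rw [h3, ← h2]
    abel

end Pool.Agent.Helper5.CI
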