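import Mathlib
import Pool.Agent.Helper5.Ci.Defs

set_option autoImplicit false
open Filter Topology

namespace Pool.Agent.Helper5.CI

variable {H : Type} [NormedAddCommGroup H] [InnerProductSpace ℂ H] [CompleteSpace H]

omit [CompleteSpace H] in
theorem transfer_upd (m : ℕ) (a : ℕ → (H →L[ℂ] H)) (i : ℕ) (hi : i < m) (v : H →L[ℂ] H) :
    (fun j : Fin m => Function.update a i v (j : ℕ)) =
      Function.update (fun j : Fin m => a j) ⟨i, hi⟩ v := by
  funext j
  by_cases hj : j = ⟨i, hi⟩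
  · subst hj
    simp
  · have hj' : (j : ℕ) ≠ i := fun h => hj (Fin.ext h)
    rw [Function.update_of_ne hj', Function.update_of_ne hj]

/-- extension by zero -/
noncomputable def transfer_ext (m : ℕ) (b : Fin m → (H →L[ℂ] H)) : ℕ → (H →L[ℂ] H) :=
  fun l => if h : l < m then b ⟨l, h⟩ else 0

omit [CompleteSpace H] in
theorem transfer_ext_lt (m : ℕ) (b : Fin m → (H →L[ℂ] H)) (l : ℕ) (h : l < m) :
    transfer_ext m b l = b ⟨l, h⟩ := dif_pos h

omit [CompleteSpace H] in
theorem transfer_ext_upd (m : ℕ) (b : Fin m → (H →L[ℂ] H)) (i : Fin m) (v : H →L[ℂ] H) :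
    transfer_ext m (Function.update b i v) = Function.update (transfer_ext m b) (i : ℕ) v := by
  funext l
  by_cases hl : l = (i : ℕ)
  · subst hl
    rw [transfer_ext_lt _ _ _ i.isLt]
    simp
  · rw [Function.update_of_ne hl]
    unfold transfer_ext
    by_cases h : l < m
    · rw [dif_pos h, dif_pos h, Function.update_of_ne]
      intro h'
      exact hl (congrArg Fin.val h')
    · rw [dif_neg h, dif_neg h]

theorem transfer_ext_mem (M : VonNeumannAlgebra H) (m : ℕ) (b : Fin m → (H →L[ℂ] H))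
    (hb : ∀ j, b j ∈ M) : InM M (transfer_ext m b) := by
  intro l
  unfold transfer_ext
  by_cases h : l < m
  · rw [dif_pos h]; exact hb _
  · rw [dif_neg h]; exact zero_mem M



theorem transfer (M : VonNeumannAlgebra H) (m : ℕ)
    (hmain : ∀ (C : ℝ), 0 < C → ∀ f : (ℕ → (H →L[ℂ] H)) → (H →L[ℂ] H),
      IsC M (m + 1) C f → IsZ M (m + 1) f →
      ∃ (C' : ℝ) (ψ : (ℕ → (H →L[ℂ] H)) → (H →L[ℂ] H)), IsC M m C' ψ ∧
        ∀ a, InM M a → dd m ψ a = f a) :
    ∀ φ : (Fin (m+1) → (H →L[ℂ] H)) → (H →L[ℂ] H),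
      (∀ a : Fin (m+1) → (H →L[ℂ] H), (∀ j, a j ∈ M) →
        ∀ (i : Fin (m+1)) (x y : H →L[ℂ] H), x ∈ M → y ∈ M → ∀ c : ℂ,
          φ (Function.update a i (c • x + y)) = c • φ (Function.update a i x) + φ (Function.update a i y)) →
      (∃ C : ℝ, ∀ a : Fin (m+1) → (H →L[ℂ] H), (∀ j, a j ∈ M) → ‖φ a‖ ≤ C * ∏ j, ‖a j‖) →
      (∀ a : Fin (m+1) → (H →L[ℂ] H), (∀ j, a j ∈ M) → IsCompactOperator ⇑(φ a)) →
      (∀ a : Fin (m+2) → (H →L[ℂ] H), (∀ j, a j ∈ M) →
        a 0 * φ (Fin.tail a)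
          + ∑ i : Fin (m+1), ((-1 : ℂ) ^ ((i : ℕ) + 1)) •
              φ (fun j : Fin (m+1) => if (j : ℕ) < (i : ℕ) then a (Fin.castSucc j)
                else if j = i then a (Fin.castSucc j) * a (Fin.succ j) else a (Fin.succ j))
          + ((-1 : ℂ) ^ (m + 2)) • (φ (Fin.init a) * a (Fin.last (m+1))) = 0) →
      ∃ ψ : (Fin m → (H →L[ℂ] H)) → (H →L[ℂ] H),
        (∀ a : Fin m → (H →L[ℂ] H), (∀ j, a j ∈ M) →
          ∀ (i : Fin m) (x y : H →L[ℂ] H), x ∈ M → y ∈ M → ∀ c : ℂ,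
            ψ (Function.update a i (c • x + y)) = c • ψ (Function.update a i x) + ψ (Function.update a i y)) ∧
        (∃ C : ℝ, ∀ a : Fin m → (H →L[ℂ] H), (∀ j, a j ∈ M) → ‖ψ a‖ ≤ C * ∏ j, ‖a j‖) ∧
        (∀ a : Fin m → (H →L[ℂ] H), (∀ j, a j ∈ M) → IsCompactOperator ⇑(ψ a)) ∧
        (∀ a : Fin (m+1) → (H →L[ℂ] H), (∀ j, a j ∈ M) →
          a 0 * ψ (Fin.tail a)
            + ∑ i : Fin m, ((-1 : ℂ) ^ ((i : ℕ) + 1)) •
                ψ (fun j : Fin m => if (j : ℕ) < (i : ℕ) then a (Fin.castSucc j)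
                  else if j = i then a (Fin.castSucc j) * a (Fin.succ j) else a (Fin.succ j))
            + ((-1 : ℂ) ^ (m + 1)) • (ψ (Fin.init a) * a (Fin.last m)) = φ a) := by
  intro φ hlin hbd hcpt hcoc
  obtain ⟨C, hC⟩ := hbd
  have hfC : IsC M (m + 1) (max C 1) (fun a => φ (fun j : Fin (m+1) => a j)) := by
    refine ⟨?_, ?_, ?_, ?_⟩
    · intro a b hab
      exact congrArg φ (funext fun j => hab j j.isLt)
    · intro a ha i hi x y hx hy c
      simp only [transfer_upd (m + 1) a i hi]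
      exact hlin _ (fun j => ha j) ⟨i, hi⟩ x y hx hy c
    · intro a ha
      rw [Finset.prod_range]
      refine (hC _ (fun j => ha j)).trans ?_
      exact mul_le_mul_of_nonneg_right (le_max_left _ _) (Finset.prod_nonneg fun _ _ => norm_nonneg _)
    · intro a ha
      exact hcpt _ (fun j => ha j)
  have hfZ : IsZ M (m + 1) (fun a => φ (fun j : Fin (m+1) => a j)) := by
    intro a ha
    have h := hcoc (fun j => a j) (fun j => ha j)
    unfold dd
    rw [Finset.sum_range]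
    rw [← h]
    refine congrArg₂ _ (congrArg₂ _ rfl ?_) rfl
    refine Finset.sum_congr rfl fun i _ => ?_
    refine congrArg _ (congrArg φ (funext fun j => ?_))
    unfold mulAt
    by_cases h1 : (j : ℕ) < (i : ℕ)
    · rw [if_pos h1, if_pos h1]; rfl
    · rw [if_neg h1, if_neg h1]
      by_cases h2 : j = i
      · rw [if_pos h2, if_pos (congrArg Fin.val h2), h2]; rfl
      · rw [if_neg h2, if_neg (fun h' => h2 (Fin.ext h'))]; rfl
  obtain ⟨C', ψ', hψC, hψ⟩ := hmain (max C 1) (lt_of_lt_of_le one_pos (le_max_right _ _)) _ hfC hfZ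
  refine ⟨fun b => ψ' (transfer_ext m b), ?_, ⟨C', ?_⟩, ?_, ?_⟩
  · intro a ha i x y hx hy c
    simp only [transfer_ext_upd]
    exact hψC.lin _ (transfer_ext_mem M m a ha) i i.isLt x y hx hy c
  · intro a ha
    refine (hψC.bd _ (transfer_ext_mem M m a ha)).trans (le_of_eq ?_)
    rw [Finset.prod_range]
    congr 1
    refine Finset.prod_congr rfl fun j _ => ?_
    rw [transfer_ext_lt _ _ _ j.isLt]
  · intro a ha
    exact hψC.cpt _ (transfer_ext_mem M m a ha)
  · intro a ha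
    have h := hψ (transfer_ext (m + 1) a) (transfer_ext_mem M (m + 1) a ha)
    have e0 : (fun j : Fin (m + 1) => transfer_ext (m + 1) a (j : ℕ)) = a :=
      funext fun j => transfer_ext_lt _ _ _ j.isLt
    simp only [e0] at h
    rw [← h]
    unfold dd
    rw [Finset.sum_range]
    have e1 : transfer_ext (m + 1) a 0 = a 0 := transfer_ext_lt _ _ _ (Nat.succ_pos m)
    have e2 : transfer_ext (m + 1) a m = a (Fin.last m) := transfer_ext_lt _ _ _ (Nat.lt_succ_self m)
    have e3 : ψ' (fun k => transfer_ext (m + 1) a (k + 1)) = ψ' (transfer_ext m (Fin.tail a)) := by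
      refine hψC.dep _ _ fun i hi => ?_
      rw [transfer_ext_lt _ _ _ hi, transfer_ext_lt _ _ _ (Nat.succ_lt_succ hi)]
      rfl
    have e4 : ψ' (transfer_ext (m + 1) a) = ψ' (transfer_ext m (Fin.init a)) := by
      refine hψC.dep _ _ fun i hi => ?_
      rw [transfer_ext_lt _ _ _ hi, transfer_ext_lt _ _ _ (Nat.lt_succ_of_lt hi)]
      rfl
    rw [e1, e2, e3, e4]
    refine congrArg₂ _ (congrArg₂ _ rfl ?_) rfl
    refine Finset.sum_congr rfl fun i _ => ?_
    refine congrArg _ (hψC.dep _ _ fun l hl => ?_)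
    rw [transfer_ext_lt _ _ _ hl]
    unfold mulAt
    by_cases h1 : l < (i : ℕ)
    · rw [if_pos h1, if_pos h1, transfer_ext_lt _ _ _ (Nat.lt_succ_of_lt hl)]; rfl
    · rw [if_neg h1, if_neg h1]
      by_cases h2 : l = (i : ℕ)
      · rw [if_pos (Fin.ext h2), if_pos h2, transfer_ext_lt _ _ _ (Nat.lt_succ_of_lt i.isLt),
          transfer_ext_lt _ _ _ (Nat.succ_lt_succ i.isLt)]
        subst h2
        rfl
      · rw [if_neg (fun h' => h2 (congrArg Fin.val h')), if_neg h2,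
          transfer_ext_lt _ _ _ (Nat.succ_lt_succ hl)]; rfl

end Pool.Agent.Helper5.CI
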