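import Mathlib
import Pool.Agent.Helper5.Ci.Defs
import Pool.Agent.Helper5.Ci.Step
import Pool.Agent.Helper5.Ci.Iter
import Pool.Agent.Helper5.Ci.Transfer

open Filter Topology

namespace Pool.Agent.Helper5.CI

variable {H : Type} [NormedAddCommGroup H] [InnerProductSpace ℂ H] [CompleteSpace H]

theorem main (M : VonNeumannAlgebra H) (hM : Tame M) (m : ℕ) :
    ∀ φ : (Fin (m+1) → (H →L[ℂ] H)) → (H →L[ℂ] H),
      (∀ a : Fin (m+1) → (H →L[ℂ] H), (∀ j, a j ∈ M) →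
        ∀ (i : Fin (m+1)) (x y : H →L[ℂ] H), x ∈ M → y ∈ M → ∀ c : ℂ,
          φ (Function.update a i (c • x + y)) = c • φ (Function.update a i x) + φ (Function.update a i y)) →
      (∃ C : ℝ, ∀ a : Fin (m+1) → (H →L[ℂ] H), (∀ j, a j ∈ M) → ‖φ a‖ ≤ C * ∏ j, ‖a j‖) →
      (∀ a : Fin (m+1) → (H →L[ℂ] H), (∀ j, a j ∈ M) → IsCompactOperator ⇑(φ a)) →
      (∀ a : Fin (m+2) → (H →L[ℂ] H), (∀ j, a j ∈ M) →
        a 0 * φ (Fin.tail a)
          + ∑ i : Fin (m+1), ((-1 : ℂ) ^ ((i : ℕ) + 1)) •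
              φ (fun j : Fin (m+1) => if (j : ℕ) < (i : ℕ) then a (Fin.castSucc j)
                else if j = i then a (Fin.castSucc j) * a (Fin.succ j) else a (Fin.succ j))
          + ((-1 : ℂ) ^ (m + 2)) • (φ (Fin.init a) * a (Fin.last (m+1))) = 0) →
      ∃ ψ : (Fin m → (H →L[ℂ] H)) → (H →L[ℂ] H),
        (∀ a : Fin m → (H →L[ℂ] H), (∀ j, a j ∈ M) →
          ∀ (i : Fin m) (x y : H →L[ℂ] H), x ∈ M → y ∈ M → ∀ c : ℂ,
            ψ (Function.update a i (c • x + y)) = c • ψ (Function.update a i x) + ψ (Function.update a i y)) ∧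
        (∃ C : ℝ, ∀ a : Fin m → (H →L[ℂ] H), (∀ j, a j ∈ M) → ‖ψ a‖ ≤ C * ∏ j, ‖a j‖) ∧
        (∀ a : Fin m → (H →L[ℂ] H), (∀ j, a j ∈ M) → IsCompactOperator ⇑(ψ a)) ∧
        (∀ a : Fin (m+1) → (H →L[ℂ] H), (∀ j, a j ∈ M) →
          a 0 * ψ (Fin.tail a)
            + ∑ i : Fin m, ((-1 : ℂ) ^ ((i : ℕ) + 1)) •
                ψ (fun j : Fin m => if (j : ℕ) < (i : ℕ) then a (Fin.castSucc j)
                  else if j = i then a (Fin.castSucc j) * a (Fin.succ j) else a (Fin.succ j))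
            + ((-1 : ℂ) ^ (m + 1)) • (ψ (Fin.init a) * a (Fin.last m)) = φ a) := by
  apply transfer M m
  intro C hC f hf hz
  obtain ⟨ψ, h1, h2⟩ := iter M m ((m : ℝ) + 2) (by positivity)
    (fun C hC f hf hz => step M hM m C hC f hf hz) C hC f hf hz
  exact ⟨_, ψ, h1, h2⟩

end Pool.Agent.Helper5.CI
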